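import Pool.Agent.Lib.NLB.Spn

/-!
# NLB / Act: the finite p-group

PROOF IN WORDS. `Q = Jd V ⊔ A n`, `M = R ⧸ Q`, a finite set (finite dimensional over `ZMod p` by `fin_A`). `Q` is closed under left multiplication by `R` (`Jd` by definition: `a * (a' v b)`, `A n` by `mul_mem_A` with `A 0`). Let `ρ : F2 →* Equiv.Perm M` (or into `M ≃ₗ M`, or
`(Module.End K M)ˣ`), `ρ g` = left multiplication by `u g` (`Submodule.mapQ`), `G = ρ.range`, `S = {ρ x, ρ y}`. Finite: subgroup of a finite group. `closure S = ⊤`: `FreeGroup.closure_range_of`. `Cond`: a list over `S ∪ {1}` of length `N`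
has product `ρ (pw l)` with `l.length ≤ N` (induction on the list); `u (pw l)^q - 1 ∈ V`, so `(u (pw l)^q - 1) * a ∈ Jd V` for all `a` and `ρ (pw l)^q = 1`. p-group: `(u g - 1)^(p^k) ∈ A (p^k) ≤ A n` for `p^k ≥ n`
(`pow_mem_A`, `u_sub_one_mem`), `(u g)^(p^k) - 1 = (u g - 1)^(p^k)` (characteristic `p`, commuting: `sub_pow_char_pow_of_commute` or similar; `CharP (R p) p`, or `ExpChar`), so `ρ g ^ (p^k) = 1`.
Cardinality: the orbit of the class of `1` is the set of classes of the `u g`, which span `M` (`span_u`), so `finrank M ≤ card (orbit) ≤ card G` (`finrank_span_le_card` or `finrank_range_le_card`).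
-/

set_option autoImplicit false

namespace NLB

open Module

variable (p : ℕ) [Fact p.Prime]

private theorem mulQ (V : Submodule (ZMod p) (R p)) (n : ℕ) (c : R p) {x : R p} (hx : x ∈ Jd p V ⊔ A p n) :
    c * x ∈ Jd p V ⊔ A p n := by
  obtain ⟨y, hy, z, hz, rfl⟩ := Submodule.mem_sup.1 hx
  clear hx
  rw [mul_add]
  refine Submodule.add_mem_sup ?_ ?_
  · induction hy using Submodule.span_induction with
    | mem w hw =>
      obtain ⟨a, b, v, hv, rfl⟩ := hw
      exact Submodule.subset_span ⟨c * a, b, v, hv, by simp only [mul_assoc]⟩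
    | zero => rw [mul_zero]; exact Submodule.zero_mem _
    | add w w' _ _ h h' => rw [mul_add]; exact Submodule.add_mem _ h h'
    | smul r w _ h => rw [mul_smul_comm]; exact Submodule.smul_mem _ _ h
  · have := mul_mem_A p (m := 0) (n := n) (a := c) (b := z) (by rw [A]; exact Submodule.mem_top) hz
    rwa [zero_add] at this

/-- the quotient -/
private abbrev MM (V : Submodule (ZMod p) (R p)) (n : ℕ) : Type := R p ⧸ (Jd p V ⊔ A p n)

private noncomputable def LL (V : Submodule (ZMod p) (R p)) (n : ℕ) : R p →* Module.End (ZMod p) (MM p V n) where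
  toFun c := (Jd p V ⊔ A p n).mapQ (Jd p V ⊔ A p n) (LinearMap.mulLeft (ZMod p) c) (fun _ hx => mulQ p V n c hx)
  map_one' := by
    apply Submodule.linearMap_qext
    ext x
    simp
  map_mul' c d := by
    apply Submodule.linearMap_qext
    apply LinearMap.ext
    intro x
    simp only [LinearMap.comp_apply, Submodule.mkQ_apply, Submodule.mapQ_apply, LinearMap.mulLeft_apply,
      Module.End.mul_apply, mul_assoc]

private theorem LL_mk (V : Submodule (ZMod p) (R p)) (n : ℕ) (c a : R p) :
    LL p V n c (Submodule.Quotient.mk a) = Submodule.Quotient.mk (c * a) := rfl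

private noncomputable def uh : F2 →* R p where
  toFun := u p
  map_one' := u_one p
  map_mul' := u_mul p

private noncomputable def rho (V : Submodule (ZMod p) (R p)) (n : ℕ) : F2 →* (Module.End (ZMod p) (MM p V n))ˣ :=
  ((LL p V n).comp (uh p)).toHomUnits

private theorem rho_val (V : Submodule (ZMod p) (R p)) (n : ℕ) (g : F2) :
    ((rho p V n g : (Module.End (ZMod p) (MM p V n))ˣ) : Module.End (ZMod p) (MM p V n)) = LL p V n (u p g) := rfl

private theorem LL_eq_one (V : Submodule (ZMod p) (R p)) (n : ℕ) (c : R p) (h : ∀ a, (c - 1) * a ∈ Jd p V ⊔ A p n) :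
    LL p V n c = 1 := by
  apply LinearMap.ext
  intro x
  induction x using Submodule.Quotient.induction_on with
  | _ a =>
    rw [LL_mk, Module.End.one_apply, Submodule.Quotient.eq]
    have := h a
    rwa [sub_mul, one_mul] at this

private theorem rho_eq_one (V : Submodule (ZMod p) (R p)) (n : ℕ) (g : F2) (h : ∀ a, (u p g - 1) * a ∈ Jd p V ⊔ A p n) :
    rho p V n g = 1 := by
  apply Units.ext
  rw [rho_val, LL_eq_one p V n _ h]
  rfl

private theorem finM (V : Submodule (ZMod p) (R p)) (n : ℕ) : Module.Finite (ZMod p) (MM p V n) := by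
  have : FiniteDimensional (ZMod p) (R p ⧸ A p n) := fin_A p n
  refine Module.Finite.of_surjective (Submodule.factor (le_sup_right : A p n ≤ Jd p V ⊔ A p n)) ?_
  intro x
  induction x using Submodule.Quotient.induction_on with
  | _ a => exact ⟨Submodule.Quotient.mk a, rfl⟩

theorem act (V : Submodule (ZMod p) (R p)) (q N n : ℕ)
    (hw : ∀ l : List Bool, l.length ≤ N → u p (pw l) ^ q - 1 ∈ V) :
    ∃ (G : Type) (_ : Group G) (S : Finset G), Finite G ∧ IsPGroup p G ∧ S.card ≤ 2 ∧ Subgroup.closure (S : Set G) = ⊤ ∧
      Cond N q S ∧ bb p V n ≤ Nat.card G := by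
  classical
  have : Module.Finite (ZMod p) (MM p V n) := finM p V n
  have : Finite (MM p V n) := Module.finite_of_finite (ZMod p)
  have : Finite (Module.End (ZMod p) (MM p V n)) :=
    Finite.of_injective (fun f => (f : MM p V n → MM p V n)) DFunLike.coe_injective
  let ρ := (rho p V n).rangeRestrict
  have hρ : ∀ g, ((ρ g : (rho p V n).range) : (Module.End (ZMod p) (MM p V n))ˣ) = rho p V n g := fun _ => rfl
  have hsur : Function.Surjective ρ := (rho p V n).rangeRestrict_surjective
  have : Finite (rho p V n).range := inferInstance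
  refine ⟨(rho p V n).range, inferInstance, {ρ (FreeGroup.of false), ρ (FreeGroup.of true)}, inferInstance, ?_,
    Finset.card_le_two, ?_, ?_, ?_⟩
  · intro g
    obtain ⟨h, rfl⟩ := hsur g
    refine ⟨n, ?_⟩
    rw [← map_pow]
    apply Subtype.ext
    rw [hρ]
    refine rho_eq_one p V n _ fun a => ?_
    have : CharP (R p) p := charP_of_injective_algebraMap (algebraMap (ZMod p) (R p)).injective p
    have e1 : u p (h ^ p ^ n) - 1 = (u p h - 1) ^ p ^ n := by
      rw [u_pow, sub_pow_char_pow_of_commute _ _ (Commute.one_right _), one_pow]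
    rw [e1]
    have h1 := pow_mem_A p (u_sub_one_mem p h) (p ^ n)
    rw [one_mul] at h1
    have h2 : (u p h - 1) ^ p ^ n ∈ A p n :=
      A_anti p (Nat.lt_pow_self (Fact.out : p.Prime).one_lt).le h1
    have h3 := mul_mem_A p (m := n) (n := 0) h2 (b := a) (by rw [A]; exact Submodule.mem_top)
    exact Submodule.mem_sup_right h3
  · have e1 : (({ρ (FreeGroup.of false), ρ (FreeGroup.of true)} : Finset (rho p V n).range) : Set (rho p V n).range)
        = ρ '' (Set.range (FreeGroup.of : Bool → F2)) := by
      ext x
      simp only [Finset.coe_insert, Finset.coe_singleton, Set.mem_insert_iff, Set.mem_singleton_iff, Set.mem_image,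
        Set.mem_range]
      constructor
      · rintro (h | h)
        · exact ⟨_, ⟨false, rfl⟩, h.symm⟩
        · exact ⟨_, ⟨true, rfl⟩, h.symm⟩
      · rintro ⟨_, ⟨b, rfl⟩, h⟩
        cases b
        · exact Or.inl h.symm
        · exact Or.inr h.symm
    rw [e1, ← MonoidHom.map_closure, FreeGroup.closure_range_of, Subgroup.map_top_of_surjective ρ hsur]
  · intro l hl hS
    have key : ∀ l : List (rho p V n).range,
        (∀ x ∈ l, x ∈ ({ρ (FreeGroup.of false), ρ (FreeGroup.of true)} : Finset (rho p V n).range) ∨ x = 1) →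
        ∃ w : List Bool, w.length ≤ l.length ∧ l.prod = ρ (pw w) := by
      intro l
      induction l with
      | nil => intro _; exact ⟨[], le_rfl, by simp [pw]⟩
      | cons x l ih =>
        intro h
        obtain ⟨w, hw1, hw2⟩ := ih fun y hy => h y (List.mem_cons_of_mem _ hy)
        have hcons : ∀ b : Bool, x = ρ (FreeGroup.of b) →
            ∃ w : List Bool, w.length ≤ (x :: l).length ∧ (x :: l).prod = ρ (pw w) := by
          intro b hb
          refine ⟨b :: w, by simpa using hw1, ?_⟩
          rw [List.prod_cons, hw2, hb, ← map_mul]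
          simp [pw]
        rcases h x List.mem_cons_self with hx | hx
        · rw [Finset.mem_insert, Finset.mem_singleton] at hx
          rcases hx with hx | hx
          · exact hcons _ hx
          · exact hcons _ hx
        · exact ⟨w, hw1.trans (by simp), by rw [List.prod_cons, hx, one_mul, hw2]⟩
    obtain ⟨w, hw1, hw2⟩ := key l hS
    rw [hw2, ← map_pow]
    apply Subtype.ext
    rw [hρ]
    refine rho_eq_one p V n _ fun a => ?_
    rw [u_pow]
    refine Submodule.mem_sup_left (Submodule.subset_span ⟨1, a, _, hw w (hw1.trans hl.le), by rw [one_mul]⟩)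
  · haveI : Fintype (rho p V n).range := Fintype.ofFinite _
    rw [Nat.card_eq_fintype_card, bb]
    let b : (rho p V n).range → MM p V n := fun g =>
      ((g : (Module.End (ZMod p) (MM p V n))ˣ) : Module.End (ZMod p) (MM p V n)) (Submodule.Quotient.mk 1)
    have hb : Submodule.span (ZMod p) (Set.range b) = ⊤ := by
      have h1 := congrArg (Submodule.map (Jd p V ⊔ A p n).mkQ) (span_u p)
      rw [Submodule.map_top, Submodule.range_mkQ, Submodule.map_span] at h1
      rw [← h1]
      congr 1
      ext x
      constructor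
      · rintro ⟨g, rfl⟩
        obtain ⟨h, rfl⟩ := hsur g
        refine ⟨u p h, ⟨h, rfl⟩, ?_⟩
        show Submodule.Quotient.mk (u p h) = LL p V n (u p h) (Submodule.Quotient.mk 1)
        rw [LL_mk, mul_one]
      · rintro ⟨_, ⟨h, rfl⟩, rfl⟩
        refine ⟨ρ h, ?_⟩
        show LL p V n (u p h) (Submodule.Quotient.mk 1) = Submodule.Quotient.mk (u p h)
        rw [LL_mk, mul_one]
    have h2 := finrank_range_le_card (R := ZMod p) b
    rw [Set.finrank, hb, finrank_top] at h2
    exact h2

end NLB
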