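import Pool.Agent.Lib.NLB.Defs

/-!
# NLB / Aug: powers of the augmentation ideal

PROOF IN WORDS. `I = ker eps` is a two-sided ideal (`eps` multiplicative). `A (n+1) = A n * I`. First `R * A n ⊆ A n` (induction, `Submodule.mul_induction_on`), and
`A n * R ⊆ A n` (n = 0 clear; `A n * I * R ⊆ A n * I`). `A (n+1) ≤ A n` follows. `mul_mem_A` by induction on `n` (second factor; `n = 0` is `A m * R ⊆ A m`). `A 1 = ⊤ * I = I`.
`mon_mem` by induction on the list with `X b ∈ A 1` and `mul_mem_A`.
-/

set_option autoImplicit false

namespace NLB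

variable (p : ℕ) [Fact p.Prime]

private theorem aug_l {n : ℕ} (a : R p) {x : R p} (hx : x ∈ A p n) : a * x ∈ A p n := by
  induction n generalizing x with
  | zero => exact Submodule.mem_top
  | succ n ih =>
    refine Submodule.mul_induction_on (C := fun x => a * x ∈ A p (n + 1)) hx (fun m hm i hi => ?_) fun x y hx hy => ?_
    · rw [← mul_assoc]
      exact Submodule.mul_mem_mul (ih hm) hi
    · rw [mul_add]
      exact Submodule.add_mem _ hx hy

private theorem aug_r {n : ℕ} (a : R p) {x : R p} (hx : x ∈ A p n) : x * a ∈ A p n := by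
  cases n with
  | zero => exact Submodule.mem_top
  | succ n =>
    refine Submodule.mul_induction_on (C := fun x => x * a ∈ A p (n + 1)) hx (fun m hm i hi => ?_) fun x y hx hy => ?_
    · rw [mul_assoc]
      refine Submodule.mul_mem_mul hm ?_
      have hi0 : eps p i = 0 := hi
      show eps p (i * a) = 0
      rw [map_mul, hi0, zero_mul]
    · rw [add_mul]
      exact Submodule.add_mem _ hx hy

private theorem aug_s (n : ℕ) : A p (n + 1) ≤ A p n := by
  intro x hx
  exact Submodule.mul_induction_on (C := fun x => x ∈ A p n) hx (fun m hm i _ => aug_r p i hm) fun x y hx hy => Submodule.add_mem _ hx hy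

theorem mul_mem_A {m n : ℕ} {a b : R p} (ha : a ∈ A p m) (hb : b ∈ A p n) : a * b ∈ A p (m + n) := by
  induction n generalizing b with
  | zero => exact aug_r p b ha
  | succ n ih =>
    refine Submodule.mul_induction_on (C := fun x => a * x ∈ A p (m + (n + 1))) hb (fun y hy i hi => ?_) fun x y hx hy => ?_
    · rw [← mul_assoc]
      exact Submodule.mul_mem_mul (ih hy) hi
    · rw [mul_add]
      exact Submodule.add_mem _ hx hy

theorem A_anti {m n : ℕ} (h : m ≤ n) : A p n ≤ A p m := by
  exact antitone_nat_of_succ_le (aug_s p) h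

theorem mem_A_one (a : R p) : a ∈ A p 1 ↔ eps p a = 0 := by
  constructor
  · intro ha
    refine Submodule.mul_induction_on (C := fun x => eps p x = 0) ha (fun m _ i hi => ?_) fun x y hx hy => ?_
    · have hi0 : eps p i = 0 := hi
      rw [map_mul, hi0, mul_zero]
    · rw [map_add, hx, hy, add_zero]
  · intro ha
    have h := Submodule.mul_mem_mul (M := A p 0) (N := LinearMap.ker (eps p).toLinearMap) (m := (1 : R p)) (n := a) Submodule.mem_top ha
    rwa [one_mul] at h

theorem u_sub_one_mem (g : F2) : u p g - 1 ∈ A p 1 := by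
  rw [mem_A_one, map_sub, eps_u, map_one, sub_self]

theorem mon_append (v w : List Bool) : mon p (v ++ w) = mon p v * mon p w := by
  unfold mon
  rw [List.map_append, List.prod_append]

theorem mon_mem (w : List Bool) : mon p w ∈ A p w.length := by
  induction w with
  | nil => exact Submodule.mem_top
  | cons b w ih =>
    have h1 : X p b ∈ A p 1 := u_sub_one_mem p _
    have h2 := mul_mem_A p h1 ih
    rw [add_comm] at h2
    exact h2

theorem pow_mem_A {a : R p} {k : ℕ} (ha : a ∈ A p k) (n : ℕ) : a ^ n ∈ A p (k * n) := by
  induction n with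
  | zero => exact Submodule.mem_top
  | succ n ih =>
    rw [pow_succ]
    exact mul_mem_A p ih ha

end NLB
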