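import Mathlib

/-!
# NLB / Crn: few binary words contain a long run

PROOF IN WORDS. `h ≥ 1`. If `L < h` the set is empty (length). Otherwise `w = α ++ replicate h false ++ β` with `|α| = i ≤ L - h`; for fixed `i` the number of such `w` is at most `2^i * 2^(L-h-i) = 2^(L-h)`; there are `L - h + 1 ≤ L` values of `i`.
So the number is at most `L * 2^(L-h) = 2^L * L * (1/2)^h`. (One may map `w` to `(i, w with the positions i, .., i+h-1 removed)`: for fixed `i` the restriction of `f : Fin L → Bool` to the other positions is injective on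
`{f | f = false on [i, i+h)}`; `Fintype.card_pi`, or count functions with prescribed values on `h` positions.)
-/

set_option autoImplicit false

namespace NLB

private theorem crn_card (L h i : ℕ) (hi : i + h ≤ L) :
    (Fintype.piFinset (fun j : Fin L => if i ≤ (j : ℕ) ∧ (j : ℕ) < i + h then ({false} : Finset Bool)
      else Finset.univ)).card = 2 ^ (L - h) := by
  classical
  rw [Fintype.card_piFinset]
  have e1 : (∏ j : Fin L, (if i ≤ (j : ℕ) ∧ (j : ℕ) < i + h then ({false} : Finset Bool)
      else Finset.univ).card) = ∏ j : Fin L, (if i ≤ (j : ℕ) ∧ (j : ℕ) < i + h then 1 else 2) := by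
    refine Finset.prod_congr rfl fun j _ => ?_
    split_ifs <;> simp
  rw [e1, ← Finset.prod_range (fun j : ℕ => if i ≤ j ∧ j < i + h then 1 else 2)]
  have e2 : (∏ j ∈ Finset.range L, (if i ≤ j ∧ j < i + h then 1 else 2)) * 2 ^ h = 2 ^ L := by
    have e3 : (2 : ℕ) ^ h = ∏ j ∈ Finset.range L, (if i ≤ j ∧ j < i + h then 2 else 1) := by
      rw [Finset.prod_ite, Finset.prod_const, Finset.prod_const, one_pow, mul_one]
      congr 1
      have e4 : (Finset.range L).filter (fun j => i ≤ j ∧ j < i + h) = Finset.Ico i (i + h) := by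
        ext j
        rw [Finset.mem_filter, Finset.mem_range, Finset.mem_Ico]
        constructor
        · rintro ⟨_, h2⟩
          exact h2
        · intro h2
          exact ⟨by omega, h2⟩
      rw [e4, Nat.card_Ico]
      omega
    rw [e3, ← Finset.prod_mul_distrib]
    have e5 : ∀ j ∈ Finset.range L, (if i ≤ j ∧ j < i + h then 1 else 2) *
        (if i ≤ j ∧ j < i + h then 2 else 1) = 2 := by
      intro j _
      split_ifs <;> rfl
    rw [Finset.prod_congr rfl e5, Finset.prod_const, Finset.card_range]
  have e6 : 2 ^ (L - h) * 2 ^ h = 2 ^ L := by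
    rw [← pow_add]
    congr 1
    omega
  exact Nat.eq_of_mul_eq_mul_right (by positivity : 0 < 2 ^ h) (e2.trans e6.symm)

private theorem crn_get {L h : ℕ} {f : Fin L → Bool} {α β : List Bool}
    (hf : List.ofFn f = α ++ List.replicate h false ++ β) :
    α.length + h ≤ L ∧ ∀ j : Fin L, α.length ≤ (j : ℕ) ∧ (j : ℕ) < α.length + h → f j = false := by
  constructor
  · have := congrArg List.length hf
    rw [List.length_ofFn, List.length_append, List.length_append, List.length_replicate] at this
    omega
  · rintro j ⟨h1, h2⟩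
    have e1 : (List.ofFn f)[(j : ℕ)]? = some (f j) := by
      rw [List.getElem?_ofFn, dif_pos j.2]
    have e2 : (α ++ List.replicate h false ++ β)[(j : ℕ)]? = some false := by
      rw [List.getElem?_append_left (by rw [List.length_append, List.length_replicate]; exact h2),
        List.getElem?_append_right h1, List.getElem?_replicate_of_lt (by omega)]
    rw [hf, e2] at e1
    exact (Option.some.inj e1).symm

theorem card_run (L h : ℕ) (hh : 1 ≤ h) (T : Finset (Fin L → Bool))
    (hT : ∀ f ∈ T, ∃ α β : List Bool, List.ofFn f = α ++ List.replicate h false ++ β) :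
    (T.card : ℝ) ≤ 2 ^ L * (L * (1 / 2) ^ h) := by
  classical
  rcases T.eq_empty_or_nonempty with hT0 | hT0
  · rw [hT0, Finset.card_empty, Nat.cast_zero]
    positivity
  have hLh : h ≤ L := by
    obtain ⟨f, hf⟩ := hT0
    obtain ⟨α, β, he⟩ := hT f hf
    have := (crn_get he).1
    omega
  have hsub : T ⊆ (Finset.range (L - h + 1)).biUnion (fun i => Fintype.piFinset (fun j : Fin L =>
      if i ≤ (j : ℕ) ∧ (j : ℕ) < i + h then ({false} : Finset Bool) else Finset.univ)) := by
    intro f hf
    obtain ⟨α, β, he⟩ := hT f hf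
    obtain ⟨g1, g2⟩ := crn_get he
    rw [Finset.mem_biUnion]
    refine ⟨α.length, Finset.mem_range.mpr (by omega), ?_⟩
    rw [Fintype.mem_piFinset]
    intro j
    split_ifs with hj
    · rw [Finset.mem_singleton]
      exact g2 j hj
    · exact Finset.mem_univ _
  have h1 : T.card ≤ (L - h + 1) * 2 ^ (L - h) := by
    refine (Finset.card_le_card hsub).trans (Finset.card_biUnion_le.trans ?_)
    have h2 : ∀ i ∈ Finset.range (L - h + 1), (Fintype.piFinset (fun j : Fin L =>
        if i ≤ (j : ℕ) ∧ (j : ℕ) < i + h then ({false} : Finset Bool) else Finset.univ)).card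
        = 2 ^ (L - h) := by
      intro i hi
      rw [Finset.mem_range] at hi
      exact crn_card L h i (by omega)
    rw [Finset.sum_congr rfl h2, Finset.sum_const, Finset.card_range, smul_eq_mul]
  have h3 : T.card ≤ L * 2 ^ (L - h) := h1.trans (Nat.mul_le_mul_right _ (by omega))
  have h4 : (2 : ℝ) ^ L * (L * (1 / 2) ^ h) = (L * 2 ^ (L - h) : ℕ) := by
    obtain ⟨m, rfl⟩ := Nat.exists_eq_add_of_le hLh
    rw [Nat.add_sub_cancel_left, Nat.cast_mul, Nat.cast_pow, Nat.cast_ofNat, pow_add]
    have h5 : (2 : ℝ) ^ h * (1 / 2) ^ h = 1 := by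
      rw [← mul_pow]
      norm_num
    calc (2 : ℝ) ^ h * 2 ^ m * (((h + m : ℕ) : ℝ) * (1 / 2) ^ h)
        = ((2 : ℝ) ^ h * (1 / 2) ^ h) * (((h + m : ℕ) : ℝ) * 2 ^ m) := by ring
      _ = ((h + m : ℕ) : ℝ) * 2 ^ m := by rw [h5, one_mul]
  rw [h4]
  exact_mod_cast h3

end NLB
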