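import Pool.Agent.Lib.NLB.Defs

/-!
# NLB / Wsm: the weighted sum over binary words

PROOF IN WORDS. `W (v, c, s) = (4/3)^s (2/3)^(max v c)`. For every state `a`: `W (step a false) + W (step a true) = 2 W a`: if `v ≤ c`: `max v c = c`, `(v, c+1, s)` has weight `(2/3) W a`, `(c, 0, s+1)` has weight `(4/3) W a`; if `c < v`:
both weights are `W a` (`max v (c+1) = v`). So the sum over `f : Fin (L+1) → Bool` is twice the sum over `Fin L → Bool` (`Fin.snocEquiv` or `Fin.consEquiv` with a general starting state: prove for all `a`: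
`Σ_f W ((List.ofFn f).foldl step a) = 2^L * W a` by induction on `L`, `Fin.consEquiv`, `List.ofFn_cons`/`List.ofFn_succ`). `W (0,0,0) = 1`.
-/

set_option autoImplicit false

namespace NLB

private noncomputable def Wt (a : ℕ × ℕ × ℕ) : ℝ := (4 / 3 : ℝ) ^ a.2.2 * (2 / 3 : ℝ) ^ (max a.1 a.2.1)

private theorem Wt_step (a : ℕ × ℕ × ℕ) : Wt (step a false) + Wt (step a true) = 2 * Wt a := by
  obtain ⟨v, c, s⟩ := a
  simp only [step, Wt]
  by_cases h : v ≤ c
  · simp only [h, if_true, Bool.false_eq_true, if_false]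
    rw [max_eq_right (by omega : v ≤ c + 1), max_eq_right h, max_eq_left (Nat.zero_le c)]
    ring
  · simp only [h, if_true, Bool.false_eq_true, if_false]
    rw [max_eq_left (by omega : c + 1 ≤ v), max_eq_left (Nat.zero_le v), max_eq_left (by omega : c ≤ v)]
    ring

private theorem wsum_aux (L : ℕ) : ∀ a : ℕ × ℕ × ℕ, ∑ f : Fin L → Bool, Wt ((List.ofFn f).foldl step a) = 2 ^ L * Wt a := by
  induction L with
  | zero => intro a; simp
  | succ L ih =>
    intro a
    rw [← (Fin.consEquiv (fun _ : Fin (L + 1) => Bool)).sum_comp, Fintype.sum_prod_type]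
    have h : ∀ (b : Bool) (f : Fin L → Bool),
        Wt ((List.ofFn ((Fin.consEquiv (fun _ : Fin (L + 1) => Bool)) (b, f))).foldl step a) =
          Wt ((List.ofFn f).foldl step (step a b)) := by
      intro b f
      simp [Fin.consEquiv]
    simp only [h, ih]
    rw [Fintype.sum_bool, pow_succ, add_comm, ← mul_add, Wt_step]
    ring

theorem wsum (L : ℕ) : ∑ f : Fin L → Bool, (4 / 3 : ℝ) ^ (st (List.ofFn f)).2.2 *
    (2 / 3 : ℝ) ^ (max (st (List.ofFn f)).1 (st (List.ofFn f)).2.1) = 2 ^ L := by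
  have h := wsum_aux L (0, 0, 0)
  simpa [Wt, st] using h

end NLB
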