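import Pool.Agent.Lib.NLB.Pst
import Pool.Agent.Lib.NLB.Wsm
import Pool.Agent.Lib.NLB.Crn

/-!
# NLB / Bdo: bad words of one length

PROOF IN WORDS. `T` = all words `List.ofFn f`, `f : Fin L → Bool`, with `S < s + c` where `(v, c, s) = st w`. Outside `T`: `Pcs (s + c) w` (`pcs_st`), `s + c ≤ S`. Count: `T₁` = those with `h ≤ max v c`: by `run_st` and `card_run` at most `2^L * (L * (1/2)^h)`.
`T₂` = those with `max v c < h`: then `c < h`, so `s ≥ S - h` and the weight `(4/3)^s (2/3)^(max v c) ≥ (4/3)^(S-h) (2/3)^h`; by `wsum` (all weights positive) `card T₂ * (4/3)^(S-h) (2/3)^h ≤ 2^L`, i.e. `card T₂ ≤ 2^L (3/4)^(S-h) (3/2)^h`.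
-/

set_option autoImplicit false

namespace NLB

theorem bad_one (L S h : ℕ) (hh : 1 ≤ h) (hS : h ≤ S) : ∃ T : Finset (List Bool),
    (∀ w : List Bool, w.length = L → w ∉ T → ∃ s, s ≤ S ∧ Pcs s w) ∧
      (T.card : ℝ) ≤ 2 ^ L * (L * (1 / 2) ^ h + (3 / 4) ^ (S - h) * (3 / 2) ^ h) := by
  classical
  refine ⟨(Finset.univ.filter fun f : Fin L → Bool =>
    S < (st (List.ofFn f)).2.2 + (st (List.ofFn f)).2.1).image List.ofFn, fun w hw hwT => ?_, ?_⟩
  · refine ⟨(st w).2.2 + (st w).2.1, ?_, pcs_st w⟩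
    by_contra hlt
    apply hwT
    subst hw
    rw [Finset.mem_image]
    refine ⟨w.get, ?_, List.ofFn_get w⟩
    rw [Finset.mem_filter, List.ofFn_get]
    exact ⟨Finset.mem_univ _, not_le.1 hlt⟩
  · have h1 : ((Finset.univ.filter fun f : Fin L → Bool =>
        S < (st (List.ofFn f)).2.2 + (st (List.ofFn f)).2.1).image List.ofFn).card ≤
        (Finset.univ.filter fun f : Fin L → Bool =>
          h ≤ max (st (List.ofFn f)).1 (st (List.ofFn f)).2.1).card +
        (Finset.univ.filter fun f : Fin L → Bool =>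
          S < (st (List.ofFn f)).2.2 + (st (List.ofFn f)).2.1 ∧
            max (st (List.ofFn f)).1 (st (List.ofFn f)).2.1 < h).card := by
      refine Finset.card_image_le.trans ((Finset.card_le_card ?_).trans (Finset.card_union_le _ _))
      intro f hf
      have hf' := (Finset.mem_filter.1 hf).2
      rw [Finset.mem_union]
      rcases le_or_gt h (max (st (List.ofFn f)).1 (st (List.ofFn f)).2.1) with h3 | h3
      · exact Or.inl (Finset.mem_filter.2 ⟨Finset.mem_univ _, h3⟩)
      · exact Or.inr (Finset.mem_filter.2 ⟨Finset.mem_univ _, hf', h3⟩)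
    have h2 : ((Finset.univ.filter fun f : Fin L → Bool =>
        h ≤ max (st (List.ofFn f)).1 (st (List.ofFn f)).2.1).card : ℝ) ≤ 2 ^ L * (L * (1 / 2) ^ h) :=
      card_run L h hh _ fun f hf => run_st _ h (Finset.mem_filter.1 hf).2
    have h3 : ((Finset.univ.filter fun f : Fin L → Bool =>
        S < (st (List.ofFn f)).2.2 + (st (List.ofFn f)).2.1 ∧
          max (st (List.ofFn f)).1 (st (List.ofFn f)).2.1 < h).card : ℝ) *
        ((4 / 3) ^ (S - h) * (2 / 3) ^ h) ≤ 2 ^ L := by
      rw [← wsum L, ← nsmul_eq_mul, ← Finset.sum_const]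
      refine (Finset.sum_le_sum fun f hf => ?_).trans
        (Finset.sum_le_sum_of_subset_of_nonneg (Finset.filter_subset _ _) fun f _ _ => by positivity)
      obtain ⟨-, h4, h5⟩ := Finset.mem_filter.1 hf
      have h6 : (st (List.ofFn f)).2.1 < h := lt_of_le_of_lt (le_max_right _ _) h5
      have h7 : S - h ≤ (st (List.ofFn f)).2.2 := by omega
      refine mul_le_mul (pow_le_pow_right₀ (by norm_num) h7) ?_ (by positivity) (by positivity)
      exact pow_le_pow_of_le_one (by norm_num) (by norm_num) h5.le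
    have h4 : ((4 : ℝ) / 3) ^ (S - h) * (2 / 3) ^ h * ((3 / 4) ^ (S - h) * (3 / 2) ^ h) = 1 := by
      have e1 : ((4 : ℝ) / 3) ^ (S - h) * (3 / 4) ^ (S - h) = 1 := by
        rw [← mul_pow]
        norm_num
      have e2 : ((2 : ℝ) / 3) ^ h * (3 / 2) ^ h = 1 := by
        rw [← mul_pow]
        norm_num
      calc ((4 : ℝ) / 3) ^ (S - h) * (2 / 3) ^ h * ((3 / 4) ^ (S - h) * (3 / 2) ^ h) =
          (((4 : ℝ) / 3) ^ (S - h) * (3 / 4) ^ (S - h)) * (((2 : ℝ) / 3) ^ h * (3 / 2) ^ h) := by ring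
        _ = 1 := by rw [e1, e2, one_mul]
    have h5 : ((Finset.univ.filter fun f : Fin L → Bool =>
        S < (st (List.ofFn f)).2.2 + (st (List.ofFn f)).2.1 ∧
          max (st (List.ofFn f)).1 (st (List.ofFn f)).2.1 < h).card : ℝ) ≤
        2 ^ L * ((3 / 4) ^ (S - h) * (3 / 2) ^ h) := by
      have h6 := mul_le_mul_of_nonneg_right h3
        (show (0 : ℝ) ≤ (3 / 4) ^ (S - h) * (3 / 2) ^ h by positivity)
      rw [mul_assoc, h4, mul_one] at h6
      exact h6
    have h6 : ((((Finset.univ.filter fun f : Fin L → Bool =>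
        S < (st (List.ofFn f)).2.2 + (st (List.ofFn f)).2.1).image List.ofFn).card : ℕ) : ℝ) ≤
        ((Finset.univ.filter fun f : Fin L → Bool =>
          h ≤ max (st (List.ofFn f)).1 (st (List.ofFn f)).2.1).card : ℝ) +
        ((Finset.univ.filter fun f : Fin L → Bool =>
          S < (st (List.ofFn f)).2.2 + (st (List.ofFn f)).2.1 ∧
            max (st (List.ofFn f)).1 (st (List.ofFn f)).2.1 < h).card : ℝ) := by
      exact_mod_cast h1
    rw [mul_add]
    linarith

end NLB
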