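import Pool.Agent.Lib.NLB.Bdo

/-!
# NLB / Bdt: bad words of length at most `m`

PROOF IN WORDS. `T` = all words of length `i` with `i + h' ≤ m` (number `Σ 2^i < 2^(m-h'+1)` if `h' ≤ m`, none otherwise; in both cases `≤ 2^(m+1) (1/2)^h'`), together with the sets of `bad_one i (q-h') h` for `i ≤ m` (number
`≤ Σ_{i ≤ m} 2^i (m (1/2)^h + ..) ≤ 2^(m+1) (..)`). For `w ∉ T`, `|w| ≤ m`: `|w| + h' ≥ m + 1` and there is `s ≤ q - h'` with `Pcs s w`, so `|w| + (q - s) ≥ |w| + h' ≥ m + 1`.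
-/

set_option autoImplicit false

namespace NLB

open Finset

private theorem bdt_sum_pow (m : ℕ) : ∑ i ∈ range (m + 1), (2 : ℝ) ^ i ≤ 2 ^ (m + 1) := by
  have h := geom_sum_eq (x := (2 : ℝ)) (by norm_num) (m + 1)
  rw [h]
  have : (2 : ℝ) - 1 = 1 := by norm_num
  rw [this, div_one]
  linarith

private theorem bdt_short (m h' : ℕ) : ∃ W : Finset (List Bool),
    (∀ w : List Bool, w.length ≤ m → w ∉ W → m + 1 ≤ w.length + h') ∧
      (W.card : ℝ) ≤ 2 ^ (m + 1) * (1 / 2) ^ h' := by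
  classical
  refine ⟨((range (m + 1)).filter (fun i => i + h' ≤ m)).biUnion
    (fun i => (univ : Finset (Fin i → Bool)).image List.ofFn), ?_, ?_⟩
  · intro w hw hn
    by_contra hc
    apply hn
    rw [mem_biUnion]
    refine ⟨w.length, ?_, ?_⟩
    · rw [mem_filter, mem_range]
      omega
    · rw [mem_image]
      exact ⟨w.get, mem_univ _, List.ofFn_get w⟩
  · have h1 : ((((range (m + 1)).filter (fun i => i + h' ≤ m)).biUnion
        (fun i => (univ : Finset (Fin i → Bool)).image List.ofFn)).card : ℝ) ≤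
        ∑ i ∈ (range (m + 1)).filter (fun i => i + h' ≤ m), (2 : ℝ) ^ i := by
      have h2 : (((range (m + 1)).filter (fun i => i + h' ≤ m)).biUnion
          (fun i => (univ : Finset (Fin i → Bool)).image List.ofFn)).card ≤
          ∑ i ∈ (range (m + 1)).filter (fun i => i + h' ≤ m), 2 ^ i := by
        refine card_biUnion_le.trans (sum_le_sum fun i _ => ?_)
        refine card_image_le.trans (le_of_eq ?_)
        simp
      have h3 := (Nat.cast_le (α := ℝ)).mpr h2
      push_cast at h3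
      exact h3
    have h4 : (∑ i ∈ (range (m + 1)).filter (fun i => i + h' ≤ m), (2 : ℝ) ^ i) * 2 ^ h' ≤
        2 ^ (m + 1) := by
      have h5 : (∑ i ∈ (range (m + 1)).filter (fun i => i + h' ≤ m), (2 : ℝ) ^ i) * 2 ^ h' =
          ∑ j ∈ ((range (m + 1)).filter (fun i => i + h' ≤ m)).image (fun i => i + h'), (2 : ℝ) ^ j := by
        rw [sum_mul, sum_image (fun a _ b _ hab => Nat.add_right_cancel hab)]
        exact sum_congr rfl fun i _ => (pow_add _ _ _).symm
      rw [h5]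
      refine le_trans (sum_le_sum_of_subset_of_nonneg ?_ (fun _ _ _ => by positivity)) (bdt_sum_pow m)
      intro j hj
      rw [mem_image] at hj
      obtain ⟨i, hi, rfl⟩ := hj
      rw [mem_filter] at hi
      rw [mem_range]
      omega
    refine h1.trans ?_
    rw [one_div, inv_pow, ← div_eq_mul_inv, le_div_iff₀ (by positivity)]
    exact h4

theorem bad_all (q h' h m : ℕ) (h1 : h' ≤ q) (hh : 1 ≤ h) (h2 : h ≤ q - h') : ∃ T : Finset (List Bool),
    (∀ w : List Bool, w.length ≤ m → w ∉ T → ∃ s, Pcs s w ∧ m + 1 ≤ w.length + (q - s)) ∧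
      (T.card : ℝ) ≤ 2 ^ (m + 1) * ((1 / 2) ^ h' + (m * (1 / 2) ^ h + (3 / 4) ^ (q - h' - h) * (3 / 2) ^ h)) := by
  classical
  obtain ⟨W, hW1, hW2⟩ := bdt_short m h'
  choose T hT1 hT2 using fun i => bad_one i (q - h') h hh h2
  refine ⟨W ∪ (range (m + 1)).biUnion T, ?_, ?_⟩
  · intro w hw hn
    rw [notMem_union, mem_biUnion] at hn
    obtain ⟨hn1, hn2⟩ := hn
    have h3 := hW1 w hw hn1
    have h4 : w ∉ T w.length := fun hc => hn2 ⟨w.length, mem_range.mpr (by omega), hc⟩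
    obtain ⟨s, hs, hp⟩ := hT1 w.length w rfl h4
    exact ⟨s, hp, by omega⟩
  · have h5 : ((W ∪ (range (m + 1)).biUnion T).card : ℝ) ≤ W.card + ∑ i ∈ range (m + 1), ((T i).card : ℝ) := by
      have h6 : (W ∪ (range (m + 1)).biUnion T).card ≤ W.card + ∑ i ∈ range (m + 1), (T i).card :=
        (card_union_le _ _).trans (Nat.add_le_add_left card_biUnion_le _)
      have h7 := (Nat.cast_le (α := ℝ)).mpr h6
      push_cast at h7
      exact h7
    have h8 : ∑ i ∈ range (m + 1), ((T i).card : ℝ) ≤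
        2 ^ (m + 1) * (m * (1 / 2) ^ h + (3 / 4) ^ (q - h' - h) * (3 / 2) ^ h) := by
      have h9 : ∑ i ∈ range (m + 1), ((T i).card : ℝ) ≤
          ∑ i ∈ range (m + 1), (2 : ℝ) ^ i * (m * (1 / 2) ^ h + (3 / 4) ^ (q - h' - h) * (3 / 2) ^ h) := by
        refine sum_le_sum fun i hi => (hT2 i).trans ?_
        refine mul_le_mul_of_nonneg_left ?_ (by positivity)
        have h10 : (i : ℝ) ≤ m := by
          exact_mod_cast Nat.lt_succ_iff.mp (mem_range.mp hi)
        have h11 : (i : ℝ) * (1 / 2) ^ h ≤ m * (1 / 2) ^ h := mul_le_mul_of_nonneg_right h10 (by positivity)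
        linarith
      rw [← sum_mul] at h9
      refine h9.trans (mul_le_mul_of_nonneg_right (bdt_sum_pow m) (by positivity))
    calc ((W ∪ (range (m + 1)).biUnion T).card : ℝ) ≤ W.card + ∑ i ∈ range (m + 1), ((T i).card : ℝ) := h5
      _ ≤ 2 ^ (m + 1) * (1 / 2) ^ h' +
          2 ^ (m + 1) * (m * (1 / 2) ^ h + (3 / 4) ^ (q - h' - h) * (3 / 2) ^ h) := add_le_add hW2 h8
      _ = 2 ^ (m + 1) * ((1 / 2) ^ h' + (m * (1 / 2) ^ h + (3 / 4) ^ (q - h' - h) * (3 / 2) ^ h)) := by ring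

end NLB
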