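import Mathlib

/-!
# NLB: exponential lower bounds for the number N(k,n) of MP_322c76, definitions

`R p` is the group algebra of the free group on two letters over the field with `p` elements, `u g` the group element `g` in it,
`X b = u b - 1`, `A n` the `n`-th power of the augmentation ideal, `mon w` the product of the `X b` over the word `w`.
-/

set_option autoImplicit false

namespace NLB

open Module

/-- the free group on two letters -/
abbrev F2 : Type := FreeGroup Bool

/-- the group algebra of the free group over the field with `p` elements -/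
abbrev R (p : ℕ) : Type := MonoidAlgebra (ZMod p) F2

section

variable (p : ℕ) [Fact p.Prime]

/-- a group element in the group algebra -/
noncomputable def u (g : F2) : R p := MonoidAlgebra.single g 1

theorem u_one : u p 1 = 1 := rfl

theorem u_mul (g h : F2) : u p (g * h) = u p g * u p h := by
  rw [u, u, u, MonoidAlgebra.single_mul_single, one_mul]

theorem u_inv_mul (g : F2) : u p g⁻¹ * u p g = 1 := by
  rw [← u_mul, inv_mul_cancel, u_one]

theorem u_mul_inv (g : F2) : u p g * u p g⁻¹ = 1 := by
  rw [← u_mul, mul_inv_cancel, u_one]

theorem u_pow (g : F2) (n : ℕ) : u p (g ^ n) = u p g ^ n := by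
  induction n with
  | zero => simp [u_one]
  | succ n ih => rw [pow_succ, pow_succ, u_mul, ih]

/-- the linear extension of a function on the group -/
noncomputable def ext {M : Type} [AddCommGroup M] [Module (ZMod p) M] (f : F2 → M) : R p →ₗ[ZMod p] M where
  toFun a := a.coeff.sum fun g c => c • f g
  map_add' a b := by
    rw [MonoidAlgebra.coeff_add, Finsupp.sum_add_index'] <;> intros <;> simp [add_smul]
  map_smul' c a := by
    rw [MonoidAlgebra.coeff_smul, Finsupp.sum_smul_index', Finsupp.smul_sum, RingHom.id_apply]
    · exact Finsupp.sum_congr fun g _ => by rw [smul_eq_mul, mul_smul]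
    · intro g
      simp

theorem ext_u {M : Type} [AddCommGroup M] [Module (ZMod p) M] (f : F2 → M) (g : F2) : ext p f (u p g) = f g := by
  show (Finsupp.single g (1 : ZMod p)).sum (fun g c => c • f g) = f g
  rw [Finsupp.sum_single_index] <;> simp

/-- two linear maps which agree on the group are equal -/
theorem ext_unique {M : Type} [AddCommGroup M] [Module (ZMod p) M] (f g : R p →ₗ[ZMod p] M) (h : ∀ x, f (u p x) = g (u p x)) :
    f = g := by
  apply LinearMap.ext
  intro a
  refine MonoidAlgebra.induction_linear a (by simp) (fun a b ha hb => by rw [map_add, map_add, ha, hb]) fun x c => ?_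
  have : (MonoidAlgebra.single x c : R p) = c • u p x := by
    rw [u, MonoidAlgebra.smul_single, smul_eq_mul, mul_one]
  rw [this, map_smul, map_smul, h]

/-- the group spans -/
theorem span_u : Submodule.span (ZMod p) (Set.range (u p)) = ⊤ := by
  rw [eq_top_iff]
  intro a _
  refine MonoidAlgebra.induction_linear a (Submodule.zero_mem _) (fun a b ha hb => Submodule.add_mem _ ha hb) fun x c => ?_
  have : (MonoidAlgebra.single x c : R p) = c • u p x := by
    rw [u, MonoidAlgebra.smul_single, smul_eq_mul, mul_one]
  rw [this]
  exact Submodule.smul_mem _ _ (Submodule.subset_span ⟨x, rfl⟩)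

/-- the augmentation -/
noncomputable def eps : R p →ₐ[ZMod p] ZMod p := MonoidAlgebra.lift (ZMod p) (ZMod p) F2 1

theorem eps_u (g : F2) : eps p (u p g) = 1 := by
  simp [eps, u]

/-- the generators of the augmentation ideal -/
noncomputable def X (b : Bool) : R p := u p (FreeGroup.of b) - 1

/-- the monomials -/
noncomputable def mon (w : List Bool) : R p := (w.map (X p)).prod

/-- the powers of the augmentation ideal -/
noncomputable def A : ℕ → Submodule (ZMod p) (R p)
  | 0 => ⊤
  | n + 1 => A n * LinearMap.ker (eps p).toLinearMap

/-- the linear extension of `g ↦ (g - 1)^n` -/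
noncomputable def Psi (n : ℕ) : R p →ₗ[ZMod p] R p := ext p fun g => (u p g - 1) ^ n

theorem Psi_u (n : ℕ) (g : F2) : Psi p n (u p g) = (u p g - 1) ^ n := ext_u p _ g

/-- products of group elements and of `s` factors `u g - 1` in `A k`, `1 ≤ k`, with sum of the `k` equal to `w` -/
inductive Dp : ℕ → ℕ → R p → Prop
  | base (g : F2) : Dp 0 0 (u p g)
  | lm (g : F2) {s w : ℕ} {t : R p} : Dp s w t → Dp s w (u p g * t)
  | dm (g : F2) {k s w : ℕ} {t : R p} : u p g - 1 ∈ A p k → 1 ≤ k → Dp s w t → Dp (s + 1) (k + w) ((u p g - 1) * t)

/-- the value of a binary word -/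
def val (w : List Bool) : ℕ := w.foldl (fun a b => 2 * a + (if b then 1 else 0)) 0

/-- combinations of monomials of the same length and larger value, and of higher order -/
noncomputable def hi (w : List Bool) : Submodule (ZMod p) (R p) :=
  Submodule.span (ZMod p) {x | ∃ v : List Bool, v.length = w.length ∧ val w < val v ∧ x = mon p v} ⊔ A p (w.length + 1)

/-- `u g - 1` has the leading word `w` -/
def Lead (g : F2) (w : List Bool) : Prop := u p g - 1 - mon p w ∈ hi p w

/-- Fox derivatives -/
structure IsFox (D : Bool → (R p →ₗ[ZMod p] R p)) : Prop where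
  fund : ∀ a, a = algebraMap (ZMod p) (R p) (eps p a) + D false a * X p false + D true a * X p true
  mulX : ∀ (b c : Bool) (a : R p), D b (a * X p c) = if b = c then a else 0
  mul : ∀ (b : Bool) (a c : R p), D b (a * c) = a * D b c + eps p c • D b a
  mem : ∀ (b : Bool) (n : ℕ) (a : R p), a ∈ A p (n + 1) → D b a ∈ A p n

/-- the pairs of multiples of a pair -/
noncomputable def pr (a b : R p) : R p →ₗ[ZMod p] R p × R p where
  toFun s := (s * a, s * b)
  map_add' s t := by simp [add_mul]
  map_smul' c s := by simp

/-- the two-sided ideal generated by a subspace -/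
noncomputable def Jd (V : Submodule (ZMod p) (R p)) : Submodule (ZMod p) (R p) :=
  Submodule.span (ZMod p) {x | ∃ a b v : R p, v ∈ V ∧ x = a * v * b}

/-- the dimension of the truncated quotient -/
noncomputable def bb (V : Submodule (ZMod p) (R p)) (n : ℕ) : ℕ := finrank (ZMod p) (R p ⧸ (Jd p V ⊔ A p n))

end

/-- blocks -/
def blk (i : ℕ) : List Bool := List.replicate i false ++ [true]

/-- segments: a block followed by shorter blocks -/
inductive Seg : ℕ → List Bool → Prop
  | one (i : ℕ) : Seg i (blk i)
  | app {i j : ℕ} {w : List Bool} : Seg i w → j < i → Seg i (w ++ blk j)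

/-- concatenations of `s` pieces, which are segments or single letters `false` -/
inductive Pcs : ℕ → List Bool → Prop
  | nil : Pcs 0 []
  | seg {i s : ℕ} {v w : List Bool} : Seg i v → Pcs s w → Pcs (s + 1) (v ++ w)
  | x {s : ℕ} {w : List Bool} : Pcs s w → Pcs (s + 1) (false :: w)

/-- positive words in the free group -/
def pw (l : List Bool) : F2 := (l.map FreeGroup.of).prod

/-- one step of the automaton: (largest completed block, current run, number of segments) -/
def step (a : ℕ × ℕ × ℕ) (b : Bool) : ℕ × ℕ × ℕ :=
  if b then (if a.1 ≤ a.2.1 then (a.2.1, 0, a.2.2 + 1) else (a.1, 0, a.2.2)) else (a.1, a.2.1 + 1, a.2.2)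

/-- the state after reading a word -/
def st (w : List Bool) : ℕ × ℕ × ℕ := w.foldl step (0, 0, 0)

/-- the condition `C(N,n)` -/
def Cond {G : Type} [Group G] (N n : ℕ) (S : Finset G) : Prop :=
  ∀ l : List G, l.length = N → (∀ x ∈ l, x ∈ S ∨ x = 1) → l.prod ^ n = 1

end NLB
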