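import Mathlib

/-!
# NLB / Num: choice of the parameters (pure real numbers)

PROOF IN WORDS. `C = 1000`. Let `u = q / 16` (floor; `u ≥ 62`), `h' = 8 u`, `h = u`, so `q - h' - h ≥ 7 u`, `k = (u - 5) / 3` (floor; `k ≥ 19`), `M0 = 2^k`, `t = (1 + 1/M0) / 2`. `(1 + 1/M0)^m ≤ 3` for `m ≤ M0`
(`≤ exp 1 < 3`; `Real.add_one_le_exp`, `Real.exp_one_lt_d9`). The bracket is at most `(1/2)^(8u) + m (1/2)^u + ((3/4)^7 (3/2))^u ≤ (m + 2) (1/2)^u` (`(3/4)^7 * (3/2) ≤ 1/2`). The sum over `m < M0` is at most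
`Σ 2 * 3 * (m+2) (1/2)^u ≤ 12 M0^2 (1/2)^u ≤ 1/(2 M0)`, because `24 M0^3 ≤ 2^(3k+5) ≤ 2^u`. `2^(N+1) t^M0 ≤ 3 * 2^(N+1) / 2^M0 ≤ 2^(N+3) / 2^M0 ≤ 2^(-(k+1)) = 1/(2 M0)`, because `N + 4 + k ≤ 2^k`: `N ≤ 2^(k-1)` (from `N^1000 ≤ 2^q`
and `q ≤ 1000 (k - 1)`) and `4 + k ≤ 2^(k-1)`. Finally `2 t - 1 = 1/M0`. Other constants are welcome (only the existence of `C` matters; `C ≥ 1` is needed).
-/

set_option autoImplicit false

namespace NLB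

private theorem two_mul_pow_le (k m : ℕ) (hm : m ≤ 2 ^ k) :
    (2 : ℝ) ^ m * ((1 + 1 / (2 : ℝ) ^ k) / 2) ^ m ≤ 3 := by
  have hM : (0 : ℝ) < (2 : ℝ) ^ k := by positivity
  have h0 : (0 : ℝ) ≤ 1 / (2 : ℝ) ^ k := by positivity
  rw [← mul_pow]
  have h1 : (2 : ℝ) * ((1 + 1 / (2 : ℝ) ^ k) / 2) = 1 + 1 / (2 : ℝ) ^ k := by ring
  rw [h1]
  calc (1 + 1 / (2 : ℝ) ^ k) ^ m ≤ (1 + 1 / (2 : ℝ) ^ k) ^ (2 ^ k) :=
        pow_le_pow_right₀ (by linarith) hm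
    _ ≤ (Real.exp (1 / (2 : ℝ) ^ k)) ^ (2 ^ k) := by
        refine pow_le_pow_left₀ (by linarith) ?_ _
        have := Real.add_one_le_exp (1 / (2 : ℝ) ^ k)
        linarith
    _ = Real.exp 1 := by
        rw [← Real.exp_nat_mul]
        congr 1
        push_cast
        field_simp
    _ ≤ 3 := by
        have := Real.exp_one_lt_d9
        linarith

private theorem bracket_le (u q m : ℕ) (hq : 16 * u ≤ q) :
    ((1 : ℝ) / 2) ^ (8 * u) + (m * (1 / 2) ^ u + (3 / 4) ^ (q - 8 * u - u) * (3 / 2) ^ u) ≤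
      (m + 2) * (1 / 2) ^ u := by
  have h1 : ((1 : ℝ) / 2) ^ (8 * u) ≤ (1 / 2) ^ u :=
    pow_le_pow_of_le_one (by norm_num) (by norm_num) (by omega)
  have h2 : ((3 : ℝ) / 4) ^ (q - 8 * u - u) ≤ (3 / 4) ^ (7 * u) :=
    pow_le_pow_of_le_one (by norm_num) (by norm_num) (by omega)
  have h3 : ((3 : ℝ) / 4) ^ (q - 8 * u - u) * (3 / 2) ^ u ≤ (1 / 2) ^ u := by
    calc ((3 : ℝ) / 4) ^ (q - 8 * u - u) * (3 / 2) ^ u ≤ (3 / 4) ^ (7 * u) * (3 / 2) ^ u :=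
          mul_le_mul_of_nonneg_right h2 (by positivity)
      _ = ((3 / 4) ^ 7 * (3 / 2)) ^ u := by rw [pow_mul, ← mul_pow]
      _ ≤ (1 / 2) ^ u := pow_le_pow_left₀ (by positivity) (by norm_num) _
  linarith

private theorem four_add_le (k : ℕ) (hk : 19 ≤ k) : 4 + k ≤ 2 ^ (k - 1) := by
  have h1 : k - 2 < 2 ^ (k - 2) := Nat.lt_two_pow_self
  have h2 : 2 ^ (k - 1) = 2 * 2 ^ (k - 2) := by
    rw [show k - 1 = (k - 2) + 1 by omega, pow_succ]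
    ring
  omega

private theorem N_le (q N k : ℕ) (hq : q ≤ 1000 * (k - 1)) (hN : N ^ 1000 ≤ 2 ^ q) :
    N ≤ 2 ^ (k - 1) := by
  by_contra h
  have h1 : 2 ^ (k - 1) < N := by omega
  have h2 : (2 ^ (k - 1)) ^ 1000 < N ^ 1000 := Nat.pow_lt_pow_left h1 (by norm_num)
  have h3 : (2 ^ (k - 1)) ^ 1000 = 2 ^ (1000 * (k - 1)) := by
    rw [← pow_mul, mul_comm]
  have h4 : 2 ^ q ≤ 2 ^ (1000 * (k - 1)) := Nat.pow_le_pow_right (by norm_num) hq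
  rw [h3] at h2
  exact absurd (h2.trans_le hN) (not_lt.mpr h4)

theorem num : ∃ C : ℕ, 1 ≤ C ∧ ∀ q N : ℕ, C ≤ q → N ^ C ≤ 2 ^ q → ∃ (t : ℝ) (M0 h' h : ℕ), 0 < t ∧ t ≤ 1 ∧ h' ≤ q ∧ 1 ≤ h ∧ h ≤ q - h' ∧
    1 < 1 / t ∧
    ∑ m ∈ Finset.range M0, 2 ^ (m + 1) * ((1 / 2) ^ h' + (m * (1 / 2) ^ h + (3 / 4) ^ (q - h' - h) * (3 / 2) ^ h)) * t ^ m +
      2 ^ (N + 1) * t ^ M0 ≤ 2 * t - 1 := by
  refine ⟨1000, by norm_num, ?_⟩
  intro q N hq hN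
  obtain ⟨u, hu⟩ : ∃ u, u = q / 16 := ⟨_, rfl⟩
  have hu1 : 62 ≤ u := by omega
  have hu2 : 16 * u ≤ q := by omega
  have hu3 : q < 16 * u + 16 := by omega
  obtain ⟨k, hk⟩ : ∃ k, k = (u - 5) / 3 := ⟨_, rfl⟩
  have hk1 : 19 ≤ k := by omega
  have hk2 : 3 * k + 5 ≤ u := by omega
  have hk3 : u ≤ 3 * k + 7 := by omega
  have hNk : N ≤ 2 ^ (k - 1) := N_le q N k (by omega) hN
  have h4 := four_add_le k hk1
  have h2k : 2 ^ k = 2 * 2 ^ (k - 1) := by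
    conv_lhs => rw [show k = (k - 1) + 1 by omega, pow_succ]
    ring
  have hexp : N + 3 + (k + 1) ≤ 2 ^ k := by omega
  have hMpos : (0 : ℝ) < (2 : ℝ) ^ k := by positivity
  have hM1 : (1 : ℝ) < (2 : ℝ) ^ k := one_lt_pow₀ (by norm_num) (by omega)
  have hinv : 1 / (2 : ℝ) ^ k < 1 := by
    rw [div_lt_one hMpos]
    exact hM1
  have hinv0 : 0 < 1 / (2 : ℝ) ^ k := by positivity
  have ht0 : 0 < (1 + 1 / (2 : ℝ) ^ k) / 2 := by positivity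
  have ht1 : (1 + 1 / (2 : ℝ) ^ k) / 2 < 1 := by linarith
  refine ⟨(1 + 1 / (2 : ℝ) ^ k) / 2, 2 ^ k, 8 * u, u, ht0, ht1.le, by omega, by omega, by omega, ?_, ?_⟩
  · rw [lt_div_iff₀ ht0]
    linarith
  · have hrhs : 2 * ((1 + 1 / (2 : ℝ) ^ k) / 2) - 1 = 1 / (2 * 2 ^ k) + 1 / (2 * 2 ^ k) := by
      field_simp
      ring
    rw [hrhs]
    refine add_le_add ?_ ?_
    · have hterm : ∀ m ∈ Finset.range (2 ^ k),
          2 ^ (m + 1) * ((1 / 2) ^ (8 * u) + (m * (1 / 2) ^ u + (3 / 4) ^ (q - 8 * u - u) * (3 / 2) ^ u)) *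
            ((1 + 1 / (2 : ℝ) ^ k) / 2) ^ m ≤ 12 * (2 : ℝ) ^ k * (1 / 2) ^ u := by
        intro m hm
        rw [Finset.mem_range] at hm
        have h1 := two_mul_pow_le k m hm.le
        have h2 := bracket_le u q m hu2
        have h3 : ((m : ℝ) + 2) ≤ 2 * (2 : ℝ) ^ k := by
          have h5 : m + 2 ≤ 2 * 2 ^ k := by omega
          exact_mod_cast h5
        have h6 : (0 : ℝ) ≤ (1 / 2) ^ u := by positivity
        have h7 : (0 : ℝ) ≤ (m : ℝ) + 2 := by positivity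
        have h8 : (0 : ℝ) ≤ 2 ^ m * ((1 + 1 / (2 : ℝ) ^ k) / 2) ^ m := by positivity
        calc 2 ^ (m + 1) * ((1 / 2) ^ (8 * u) + (m * (1 / 2) ^ u + (3 / 4) ^ (q - 8 * u - u) * (3 / 2) ^ u)) *
              ((1 + 1 / (2 : ℝ) ^ k) / 2) ^ m
            = 2 * (2 ^ m * ((1 + 1 / (2 : ℝ) ^ k) / 2) ^ m) *
              ((1 / 2) ^ (8 * u) + (m * (1 / 2) ^ u + (3 / 4) ^ (q - 8 * u - u) * (3 / 2) ^ u)) := by
              rw [pow_succ]
              ring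
          _ ≤ 2 * (2 ^ m * ((1 + 1 / (2 : ℝ) ^ k) / 2) ^ m) * (((m : ℝ) + 2) * (1 / 2) ^ u) :=
              mul_le_mul_of_nonneg_left h2 (by positivity)
          _ ≤ 2 * 3 * (((m : ℝ) + 2) * (1 / 2) ^ u) :=
              mul_le_mul_of_nonneg_right (by linarith) (by positivity)
          _ ≤ 2 * 3 * ((2 * (2 : ℝ) ^ k) * (1 / 2) ^ u) :=
              mul_le_mul_of_nonneg_left (mul_le_mul_of_nonneg_right h3 h6) (by norm_num)
          _ = 12 * (2 : ℝ) ^ k * (1 / 2) ^ u := by ring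
      refine (Finset.sum_le_sum hterm).trans ?_
      rw [Finset.sum_const, Finset.card_range, nsmul_eq_mul]
      have h9 : (24 : ℝ) * ((2 : ℝ) ^ k) ^ 3 ≤ 2 ^ u := by
        calc (24 : ℝ) * ((2 : ℝ) ^ k) ^ 3 ≤ 2 ^ 5 * ((2 : ℝ) ^ k) ^ 3 :=
              mul_le_mul_of_nonneg_right (by norm_num) (by positivity)
          _ = 2 ^ (3 * k + 5) := by
              rw [← pow_mul, pow_add, mul_comm k 3]
              ring
          _ ≤ 2 ^ u := pow_le_pow_right₀ (by norm_num) hk2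
      have hu0 : (0 : ℝ) < 2 ^ u := by positivity
      rw [one_div_pow, le_div_iff₀ (by positivity)]
      push_cast
      calc (2 : ℝ) ^ k * (12 * 2 ^ k * (1 / 2 ^ u)) * (2 * 2 ^ k) = (24 * ((2 : ℝ) ^ k) ^ 3) / 2 ^ u := by
            field_simp
            ring
        _ ≤ 1 := by
            rw [div_le_one hu0]
            exact h9
    · have h1 := two_mul_pow_le k (2 ^ k) le_rfl
      have hP : (0 : ℝ) < 2 ^ (2 ^ k) := by positivity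
      have h2 : ((1 + 1 / (2 : ℝ) ^ k) / 2) ^ (2 ^ k) ≤ 3 / 2 ^ (2 ^ k) := by
        rw [le_div_iff₀ hP, mul_comm]
        exact h1
      calc (2 : ℝ) ^ (N + 1) * ((1 + 1 / (2 : ℝ) ^ k) / 2) ^ (2 ^ k) ≤ 2 ^ (N + 1) * (3 / 2 ^ (2 ^ k)) :=
            mul_le_mul_of_nonneg_left h2 (by positivity)
        _ ≤ 2 ^ (N + 1) * (2 ^ 2 / 2 ^ (2 ^ k)) := by
            refine mul_le_mul_of_nonneg_left ?_ (by positivity)
            exact div_le_div_of_nonneg_right (by norm_num) hP.le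
        _ = 2 ^ (N + 3) / 2 ^ (2 ^ k) := by
            rw [← mul_div_assoc, ← pow_add]
        _ ≤ 1 / (2 * 2 ^ k) := by
            rw [div_le_div_iff₀ hP (by positivity), one_mul, ← pow_succ', ← pow_add]
            exact pow_le_pow_right₀ (by norm_num) hexp

end NLB
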