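import Pool.Agent.Lib.NLB.Defs

/-!
# NLB / Pad: exactly `k` generators

PROOF IN WORDS. `G' = G × Multiplicative (Fin r → ZMod p)`, `r = k - S.card`, `S' = {(x, 1) | x ∈ S} ∪ {(1, e_i) | i}`, `e_i` the standard basis: the elements are distinct and `e_i ≠ 1`, so `S'.card = S.card + r = k`. It generates (the closure contains
`G × 1` and `1 × (ZMod p)^r`). A product of `N` elements of `S' ∪ {1}` is `(a, v)` with `a` a product of `N` elements of `S ∪ {1}` (first components), so `a^q = 1` and `q v = 0` as `p ∣ q`. A finite p-group: exponent of the second factor divides `p`.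
-/

set_option autoImplicit false

namespace NLB

private theorem pad_pow (p : ℕ) [Fact p.Prime] (r q : ℕ) (hpq : p ∣ q) (v : Multiplicative (Fin r → ZMod p)) : v ^ q = 1 := by
  apply Multiplicative.toAdd.injective
  rw [toAdd_pow, toAdd_one]
  funext i
  rw [Pi.smul_apply, nsmul_eq_mul, (ZMod.natCast_eq_zero_iff q p).2 hpq, zero_mul, Pi.zero_apply]

private theorem pad_gen (p : ℕ) [Fact p.Prime] (r : ℕ) (H : Subgroup (Multiplicative (Fin r → ZMod p)))
    (h : ∀ i : Fin r, Multiplicative.ofAdd (Pi.single i (1 : ZMod p)) ∈ H) (v : Multiplicative (Fin r → ZMod p)) : v ∈ H := by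
  have hv : v = ∏ i : Fin r, (Multiplicative.ofAdd (Pi.single i (1 : ZMod p)) : Multiplicative (Fin r → ZMod p)) ^ (v.toAdd i).val := by
    apply Multiplicative.toAdd.injective
    rw [toAdd_prod]
    funext j
    rw [Finset.sum_apply, Finset.sum_eq_single j]
    · rw [toAdd_pow, toAdd_ofAdd, Pi.smul_apply, Pi.single_eq_same, nsmul_eq_mul, mul_one, ZMod.natCast_zmod_val]
    · intro b _ hb
      rw [toAdd_pow, toAdd_ofAdd, Pi.smul_apply, Pi.single_eq_of_ne hb.symm, nsmul_eq_mul, mul_zero]
    · intro hj
      exact absurd (Finset.mem_univ j) hj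
  rw [hv]
  exact Subgroup.prod_mem _ fun i _ => Subgroup.pow_mem _ (h i) _

theorem pad (p : ℕ) [Fact p.Prime] (N q k : ℕ) (hpq : p ∣ q) (hk : 2 ≤ k) (G : Type) [Group G] [Finite G] (hG : IsPGroup p G)
    (S : Finset G) (hS : S.card ≤ 2) (hc : Subgroup.closure (S : Set G) = ⊤) (hC : Cond N q S) :
    ∃ (G' : Type) (_ : Group G') (S' : Finset G'), Finite G' ∧ IsPGroup p G' ∧ S'.card = k ∧
      Subgroup.closure (S' : Set G') = ⊤ ∧ Cond N q S' ∧ Nat.card G ≤ Nat.card G' := by
  classical
  set r : ℕ := k - S.card with hr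
  let E : Fin r → Multiplicative (Fin r → ZMod p) := fun i => Multiplicative.ofAdd (Pi.single i (1 : ZMod p))
  have hE1 : ∀ i, E i ≠ 1 := by
    intro i h
    have h1 : (Pi.single i (1 : ZMod p) : Fin r → ZMod p) = 0 := by
      have := congrArg Multiplicative.toAdd h
      simpa [E] using this
    have h2 := congrFun h1 i
    rw [Pi.single_eq_same, Pi.zero_apply] at h2
    exact one_ne_zero h2
  have hEi : Function.Injective E := by
    intro i j h
    have h1 : (Pi.single i (1 : ZMod p) : Fin r → ZMod p) = Pi.single j 1 := by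
      have := congrArg Multiplicative.toAdd h
      simpa [E] using this
    by_contra hij
    have h2 := congrFun h1 i
    rw [Pi.single_eq_same, Pi.single_eq_of_ne hij] at h2
    exact one_ne_zero h2
  let S1 : Finset (G × Multiplicative (Fin r → ZMod p)) := S.image fun x => (x, 1)
  let S2 : Finset (G × Multiplicative (Fin r → ZMod p)) := Finset.univ.image fun i => (1, E i)
  refine ⟨G × Multiplicative (Fin r → ZMod p), inferInstance, S1 ∪ S2, inferInstance, ?_, ?_, ?_, ?_, ?_⟩
  · intro g
    obtain ⟨m, hm⟩ := hG g.1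
    refine ⟨m + 1, Prod.ext ?_ ?_⟩
    · rw [Prod.pow_fst, pow_succ, pow_mul, hm, one_pow, Prod.fst_one]
    · rw [Prod.pow_snd, Prod.snd_one]
      exact pad_pow p r _ (dvd_pow_self p (Nat.succ_ne_zero m)) _
  · rw [Finset.card_union_of_disjoint, Finset.card_image_of_injective, Finset.card_image_of_injective, Finset.card_univ, Fintype.card_fin]
    · omega
    · intro i j h
      exact hEi (congrArg Prod.snd h)
    · intro x y h
      exact congrArg Prod.fst h
    · rw [Finset.disjoint_left]
      intro a ha hb
      obtain ⟨x, -, hx⟩ := Finset.mem_image.1 ha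
      obtain ⟨i, -, hi⟩ := Finset.mem_image.1 hb
      exact hE1 i (by rw [← hx] at hi; exact congrArg Prod.snd hi)
  · rw [eq_top_iff]
    intro g _
    have h1 : ∀ a : G, ((a, 1) : G × Multiplicative (Fin r → ZMod p)) ∈ Subgroup.closure ((S1 ∪ S2 : Finset _) : Set (G × Multiplicative (Fin r → ZMod p))) := by
      intro a
      have h2 : Subgroup.closure (S : Set G) ≤ (Subgroup.closure ((S1 ∪ S2 : Finset _) : Set (G × Multiplicative (Fin r → ZMod p)))).comap (MonoidHom.inl G (Multiplicative (Fin r → ZMod p))) := by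
        rw [Subgroup.closure_le]
        intro x hx
        refine Subgroup.subset_closure ?_
        rw [Finset.mem_coe, Finset.mem_union]
        exact Or.inl (Finset.mem_image.2 ⟨x, hx, rfl⟩)
      have h3 : a ∈ Subgroup.closure (S : Set G) := by
        rw [hc]
        trivial
      exact h2 h3
    have h4 : ∀ v : Multiplicative (Fin r → ZMod p), ((1, v) : G × Multiplicative (Fin r → ZMod p)) ∈ Subgroup.closure ((S1 ∪ S2 : Finset _) : Set (G × Multiplicative (Fin r → ZMod p))) := by
      intro v
      refine pad_gen p r ((Subgroup.closure ((S1 ∪ S2 : Finset _) : Set (G × Multiplicative (Fin r → ZMod p)))).comap (MonoidHom.inr G (Multiplicative (Fin r → ZMod p)))) ?_ v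
      intro i
      refine Subgroup.subset_closure ?_
      rw [Finset.mem_coe, Finset.mem_union]
      exact Or.inr (Finset.mem_image.2 ⟨i, Finset.mem_univ i, rfl⟩)
    have h5 : g = (g.1, 1) * (1, g.2) := by
      ext <;> simp
    rw [h5]
    exact Subgroup.mul_mem _ (h1 _) (h4 _)
  · intro l hl hx
    refine Prod.ext ?_ ?_
    · rw [Prod.pow_fst, Prod.fst_one]
      have h1 : l.prod.1 = (l.map Prod.fst).prod := map_list_prod (MonoidHom.fst G (Multiplicative (Fin r → ZMod p))) l
      rw [h1]
      refine hC _ (by rw [List.length_map, hl]) ?_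
      intro x hx'
      obtain ⟨y, hy, rfl⟩ := List.mem_map.1 hx'
      rcases hx y hy with h | h
      · rcases Finset.mem_union.1 h with h | h
        · obtain ⟨z, hz, rfl⟩ := Finset.mem_image.1 h
          exact Or.inl hz
        · obtain ⟨i, -, rfl⟩ := Finset.mem_image.1 h
          exact Or.inr rfl
      · rw [h]
        exact Or.inr rfl
    · rw [Prod.pow_snd, Prod.snd_one]
      exact pad_pow p r q hpq _
  · rw [Nat.card_prod]
    exact Nat.le_mul_of_pos_right _ Nat.card_pos

end NLB
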