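import Pool.Agent.Lib.NLB.Ldm

/-!
# NLB / Lds: group elements with given leading words

PROOF IN WORDS. `lead_of`: `u (of b) - 1 = X b = mon [b]`, the difference is 0. `lead_comm`: with `ξ = u g - 1`, `η = u h - 1`: `u (g h g⁻¹ h⁻¹) - 1 = (ξ η - η ξ) * u ((h g)⁻¹)`, and
`u ((hg)⁻¹) = 1 + c`, `c ∈ A 1` (`u_sub_one_mem`), `(ξη - ηξ) c ∈ A (|v|+|w|+1)`. `ξη - mon (v ++ w) ∈ hi (v ++ w)` (`mul_hi`), `ηξ - mon (w ++ v) ∈ hi (w ++ v) ≤ hi (v ++ w)` (`hi_anti`, same length, `val (v ++ w) < val (w ++ v)`),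
`mon (w ++ v) ∈ hi (v ++ w)` (`mon_mem_hi`). `lead_seg`: first `blk i` by induction on `i`: `blk 0 = [true]`, `blk (i+1) = [false] ++ blk i`, `val ([false] ++ blk i) = 1 < 2 ≤ val (blk i ++ [false])`, so the commutator of `of false`
with the element for `blk i`. Then induction over `Seg` with `seg_cmp` and `lead_comm`. `lead_pcs`: induction over `Pcs`: `nil`: `t = 1 = u 1` (`Dp.base`), `mon [] = 1`. `seg`: `g` for `v`, `u g - 1 ∈ A |v|` (`hi_le_A`, `mon_mem`), `1 ≤ |v|`,
`Dp.dm` and `mul_hi`; `x`: `g = of false`, `v = [false]`.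
-/

set_option autoImplicit false

namespace NLB

variable (p : ℕ) [Fact p.Prime]

theorem lead_of (b : Bool) : Lead p (FreeGroup.of b) [b] := by
  have h : u p (FreeGroup.of b) - 1 - mon p [b] = 0 := by
    simp [mon, X]
  rw [Lead, h]
  exact Submodule.zero_mem _

private theorem lds_mem {g : F2} {v : List Bool} (hg : Lead p g v) : u p g - 1 ∈ A p v.length := by
  have h := Submodule.add_mem _ (hi_le_A p v hg) (mon_mem p v)
  rwa [sub_add_cancel] at h

theorem lead_comm {g h : F2} {v w : List Bool} (hg : Lead p g v) (hh : Lead p h w) (hvw : val (v ++ w) < val (w ++ v)) :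
    Lead p (g * h * g⁻¹ * h⁻¹) (v ++ w) := by
  have hlen : (v ++ w).length = (w ++ v).length := by
    rw [List.length_append, List.length_append, add_comm]
  have key : u p (g * h * g⁻¹ * h⁻¹) - 1 =
      ((u p g - 1) * (u p h - 1) - (u p h - 1) * (u p g - 1)) * u p ((h * g)⁻¹) := by
    have e1 : (u p g - 1) * (u p h - 1) - (u p h - 1) * (u p g - 1) = u p (g * h) - u p (h * g) := by
      rw [u_mul, u_mul]
      noncomm_ring
    rw [e1, sub_mul, ← u_mul, u_mul_inv, mul_inv_rev]
    congr 2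
    group
  have hc : u p ((h * g)⁻¹) - 1 ∈ A p 1 := u_sub_one_mem p _
  have ha := mul_hi p hg hh
  have hb := mul_hi p hh hg
  have hb' := hi_anti p hlen hvw.le hb
  have hm := mon_mem_hi p hlen hvw
  have hA1 : (u p g - 1) * (u p h - 1) ∈ A p (v ++ w).length := by
    rw [List.length_append]
    exact mul_mem_A p (lds_mem p hg) (lds_mem p hh)
  have hA2 : (u p h - 1) * (u p g - 1) ∈ A p (v ++ w).length := by
    rw [hlen, List.length_append]
    exact mul_mem_A p (lds_mem p hh) (lds_mem p hg)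
  have hd : ((u p g - 1) * (u p h - 1) - (u p h - 1) * (u p g - 1)) * (u p ((h * g)⁻¹) - 1) ∈ hi p (v ++ w) :=
    Submodule.mem_sup_right (mul_mem_A p (Submodule.sub_mem _ hA1 hA2) hc)
  have hfin := Submodule.add_mem _ (Submodule.sub_mem _ (Submodule.sub_mem _ ha hb') hm) hd
  rw [Lead, key]
  convert hfin using 1
  noncomm_ring

private theorem lds_blk (i : ℕ) : ∃ g : F2, Lead p g (blk i) := by
  induction i with
  | zero => exact ⟨FreeGroup.of true, lead_of p true⟩
  | succ i ih =>
    obtain ⟨g, hg⟩ := ih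
    have hlt : val ([false] ++ blk i) < val (blk i ++ [false]) := by
      rw [val_append, val_append, val_blk]
      simp [val]
    have e : blk (i + 1) = [false] ++ blk i := rfl
    have h2 := lead_comm p (lead_of p false) hg hlt
    rw [e]
    exact ⟨_, h2⟩

theorem lead_seg {i : ℕ} {w : List Bool} (h : Seg i w) : ∃ g : F2, Lead p g w := by
  induction h with
  | one => exact lds_blk p _
  | app hs hj ih =>
    obtain ⟨g, hg⟩ := ih
    obtain ⟨g', hg'⟩ := lds_blk p _
    exact ⟨_, lead_comm p hg hg' (seg_cmp hs hj)⟩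

private theorem lds_len {i : ℕ} {w : List Bool} (h : Seg i w) : 1 ≤ w.length := by
  induction h with
  | one =>
    rw [blk, List.length_append]
    exact Nat.le_add_left _ _
  | app hs hj ih =>
    rw [List.length_append]
    exact le_add_right ih

theorem lead_pcs {s : ℕ} {w : List Bool} (h : Pcs s w) : ∃ t : R p, Dp p s w.length t ∧ t - mon p w ∈ hi p w := by
  induction h with
  | nil =>
    refine ⟨u p 1, Dp.base 1, ?_⟩
    have h0 : u p 1 - mon p [] = 0 := by
      rw [u_one]
      simp [mon]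
    rw [h0]
    exact Submodule.zero_mem _
  | seg hv hw ih =>
    obtain ⟨t, ht, ht'⟩ := ih
    obtain ⟨g, hg⟩ := lead_seg p hv
    refine ⟨(u p g - 1) * t, ?_, mul_hi p hg ht'⟩
    rw [List.length_append]
    exact Dp.dm g (lds_mem p hg) (lds_len hv) ht
  | @x s w hw ih =>
    obtain ⟨t, ht, ht'⟩ := ih
    have hA : u p (FreeGroup.of false) - 1 ∈ A p 1 := u_sub_one_mem p _
    have h1 := mul_hi p (lead_of p false) ht'
    refine ⟨(u p (FreeGroup.of false) - 1) * t, ?_, h1⟩
    have h2 := Dp.dm (FreeGroup.of false) hA le_rfl ht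
    rwa [Nat.add_comm 1 w.length] at h2

end NLB
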