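import Pool.Agent.Lib.NLB.Aug

/-!
# NLB / Ps: the map `g ↦ (g - 1)^n` on products of differences

PROOF IN WORDS. For functions `α β : F2 → R p` let `α * β` be the pointwise product; `ext (α * β)` is the convolution. KEY (structural induction on `Dp`): for `Dp s w t` there is a finite list of pairs `(t', t'')`
with `Dp s' w' t'`, `Dp s'' w'' t''`, `s' + s'' = s`, `w' + w'' = w`, such that for ALL `α β : F2 → R p`: `ext (α * β) t = Σ ext α t' * ext β t''`. Base: `t = u g`, the pair `(u g, u g)`. `lm`: `t = u h * t₀`: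
`ext (α * β) (u h * t₀) = ext (α(h ·) * β(h ·)) t₀`, apply the induction hypothesis to `α(h ·)`, `β(h ·)` and use `ext (α(h ·)) x = ext α (u h * x)` (linear in x, check on group elements). `dm`: `(u h - 1) * t₀`:
`ext (αβ) ((u h - 1) t₀) = Σ ext α (u h t') * ext β (u h t'') - ext α t' * ext β t'' = Σ ext α ((u h - 1) t') * ext β (u h t'') + ext α t' * ext β ((u h - 1) t'')`: two pairs for each old pair.
(One may instead prove the membership statement below directly in the form: for all submodules ..; any form of the key is fine, it is private.)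
THEN by induction on `n`: `n = 0`: `Psi 0 = ext 1`, `Psi 0 t = algebraMap (eps t)`, which is `1` for `s = 0, w = 0` products of group elements (`A 0 = ⊤`, as `w + (0 - s) = 0`), and 0 if `s ≥ 1` (`eps (u g - 1) = 0`).
Step: `(g-1)^(n+1) = (g-1) * (g-1)^n`, so `Psi (n+1) t = Σ Psi 1 t' * Psi n t''`; `Psi 1 t' = t' - eps t' • 1`. If `s' = 0` (then `w' = 0`) it lies in `A 1` (`mem_A_one`), and the product is in
`A (1 + w + (n - s)) ≤ A (w + (n+1-s))`. If `s' ≥ 1`, `eps t' = 0`, `t' ∈ A w'` (structural induction, `mul_mem_A`), and the product is in `A (w' + w'' + (n - s''))`, `n - (s - s') ≥ (n+1) - s`.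
-/

set_option autoImplicit false

namespace NLB

variable (p : ℕ) [Fact p.Prime]

private theorem ps_shift {M : Type} [AddCommGroup M] [Module (ZMod p) M] (α : F2 → M) (g : F2) (x : R p) :
    ext p (fun y => α (g * y)) x = ext p α (u p g * x) := by
  have h : ext p (fun y => α (g * y)) = (ext p α).comp (LinearMap.mulLeft (ZMod p) (u p g)) := by
    apply ext_unique
    intro y
    rw [ext_u, LinearMap.comp_apply, LinearMap.mulLeft_apply, ← u_mul, ext_u]
  rw [h]
  rfl

private theorem ps_pair {M N : Type} [AddCommGroup M] [Module (ZMod p) M] [AddCommGroup N] [Module (ZMod p) N] (α : F2 → M) (β : F2 → N) (x : R p) :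
    ext p (fun y => (α y, β y)) x = (ext p α x, ext p β x) := by
  have h : ext p (fun y => (α y, β y)) = (ext p α).prod (ext p β) := by
    apply ext_unique
    intro y
    rw [ext_u]
    exact Prod.ext (ext_u p α y).symm (ext_u p β y).symm
  rw [h]
  rfl

private theorem ps_key {s w : ℕ} {t : R p} (h : Dp p s w t) : ∀ (S : Type) [Ring S] [Algebra (ZMod p) S] (α β : F2 → S)
    (M : Submodule (ZMod p) S), (∀ (s1 w1 : ℕ) (t1 : R p) (s2 w2 : ℕ) (t2 : R p), Dp p s1 w1 t1 → Dp p s2 w2 t2 →
      s1 + s2 = s → w1 + w2 = w → ext p α t1 * ext p β t2 ∈ M) → ext p (fun g => α g * β g) t ∈ M := by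
  induction h with
  | base g =>
    intro S _ _ α β M hM
    have := hM 0 0 _ 0 0 _ (Dp.base g) (Dp.base g) rfl rfl
    rw [ext_u, ext_u] at this
    rw [ext_u]
    exact this
  | lm g h0 ih =>
    intro S _ _ α β M hM
    rw [← ps_shift p (fun g => α g * β g) g]
    refine ih S (fun y => α (g * y)) (fun y => β (g * y)) M fun s1 w1 t1 s2 w2 t2 h1 h2 hs hw => ?_
    rw [ps_shift, ps_shift]
    exact hM s1 w1 _ s2 w2 _ (Dp.lm g h1) (Dp.lm g h2) hs hw
  | @dm g k s w t hk hk1 h0 ih =>
    intro S _ _ α β M hM
    have h1 := ih (S × S) (fun y => (α (g * y), α y)) (fun y => (β (g * y), β y))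
      (M.comap (LinearMap.fst (ZMod p) S S - LinearMap.snd (ZMod p) S S)) (fun s1 w1 t1 s2 w2 t2 h1 h2 hs hw => by
        rw [Submodule.mem_comap, ps_pair, ps_pair, ps_shift, ps_shift]
        have e : (LinearMap.fst (ZMod p) S S - LinearMap.snd (ZMod p) S S)
            ((ext p α (u p g * t1), ext p α t1) * (ext p β (u p g * t2), ext p β t2)) =
            ext p α ((u p g - 1) * t1) * ext p β (u p g * t2) + ext p α t1 * ext p β ((u p g - 1) * t2) := by
          rw [sub_mul, sub_mul, one_mul, one_mul, map_sub, map_sub]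
          show ext p α (u p g * t1) * ext p β (u p g * t2) - ext p α t1 * ext p β t2 = _
          noncomm_ring
        rw [e]
        refine M.add_mem (hM (s1 + 1) (k + w1) _ s2 w2 _ (Dp.dm g hk hk1 h1) (Dp.lm g h2) (by omega) (by omega))
          (hM s1 w1 _ (s2 + 1) (k + w2) _ h1 (Dp.dm g hk hk1 h2) (by omega) (by omega)))
    rw [Submodule.mem_comap] at h1
    have e2 : ext p (fun y => ((α (g * y), α y) : S × S) * (β (g * y), β y)) t =
        (ext p (fun g => α g * β g) (u p g * t), ext p (fun g => α g * β g) t) := by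
      rw [← ps_shift p (fun g => α g * β g) g, ← ps_pair]
      rfl
    rw [e2] at h1
    rw [sub_mul, one_mul, map_sub]
    exact h1

private theorem ps_w {s w : ℕ} {t : R p} (h : Dp p s w t) : (s = 0 → w = 0) ∧ (1 ≤ s → eps p t = 0) := by
  induction h with
  | base g => exact ⟨fun _ => rfl, fun h => absurd h (by omega)⟩
  | lm g h0 ih =>
    refine ⟨ih.1, fun h => ?_⟩
    rw [map_mul, ih.2 h, mul_zero]
  | dm g hk hk1 h0 ih =>
    refine ⟨fun h => absurd h (by omega), fun _ => ?_⟩
    rw [map_mul, map_sub, eps_u, map_one, sub_self, zero_mul]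

private theorem ps_mem {s w : ℕ} {t : R p} (h : Dp p s w t) : t ∈ A p w := by
  induction h with
  | base g => exact Submodule.mem_top
  | @lm g s w t h0 ih =>
    have h1 : u p g ∈ A p 0 := Submodule.mem_top
    have := mul_mem_A p h1 ih
    rwa [Nat.zero_add] at this
  | dm g hk hk1 h0 ih => exact mul_mem_A p hk ih

private theorem ps_one (t : R p) : ext p (fun g => u p g - 1) t = t - algebraMap (ZMod p) (R p) (eps p t) := by
  have h : ext p (fun g => u p g - 1) = LinearMap.id - (Algebra.linearMap (ZMod p) (R p)).comp (eps p).toLinearMap := by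
    apply ext_unique
    intro y
    rw [ext_u, LinearMap.sub_apply, LinearMap.id_apply, LinearMap.comp_apply, AlgHom.toLinearMap_apply, eps_u, Algebra.linearMap_apply, map_one]
  rw [h]
  rfl

private theorem ps_zero (t : R p) : Psi p 0 t = algebraMap (ZMod p) (R p) (eps p t) := by
  have h : Psi p 0 = (Algebra.linearMap (ZMod p) (R p)).comp (eps p).toLinearMap := by
    apply ext_unique
    intro y
    rw [Psi_u, pow_zero, LinearMap.comp_apply, AlgHom.toLinearMap_apply, eps_u, Algebra.linearMap_apply, map_one]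
  rw [h]
  rfl

theorem psi_dp {s w : ℕ} {t : R p} (h : Dp p s w t) (n : ℕ) : Psi p n t ∈ A p (w + (n - s)) := by
  induction n generalizing s w t with
  | zero =>
    rw [ps_zero]
    rcases Nat.eq_zero_or_pos s with h0 | h0
    · rw [(ps_w p h).1 h0, Nat.zero_sub]
      exact Submodule.mem_top
    · rw [(ps_w p h).2 h0, map_zero]
      exact Submodule.zero_mem _
  | succ n ih =>
    have e : Psi p (n + 1) = ext p (fun g => (u p g - 1) * (u p g - 1) ^ n) := by
      unfold Psi
      congr 1
      funext g
      rw [pow_succ']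
    rw [e]
    refine ps_key p h (R p) (fun g => u p g - 1) (fun g => (u p g - 1) ^ n) _ fun s1 w1 t1 s2 w2 t2 h1 h2 hs hw => ?_
    have h3 : ext p (fun g => (u p g - 1) ^ n) t2 ∈ A p (w2 + (n - s2)) := ih h2
    rw [ps_one]
    rcases Nat.eq_zero_or_pos s1 with h0 | h0
    · have h4 : t1 - algebraMap (ZMod p) (R p) (eps p t1) ∈ A p 1 := by
        rw [mem_A_one, map_sub, AlgHom.commutes, Algebra.algebraMap_self_apply, sub_self]
      have h5 := (ps_w p h1).1 h0
      exact A_anti p (by omega) (mul_mem_A p h4 h3)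
    · rw [(ps_w p h1).2 h0, map_zero, sub_zero]
      exact A_anti p (by omega) (mul_mem_A p (ps_mem p h1) h3)

end NLB
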