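import Pool.Agent.Lib.NLB.Spn
import Pool.Agent.Lib.NLB.Ps
import Pool.Agent.Lib.NLB.Lds

/-!
# NLB / Rk: the rank bound

PROOF IN WORDS. Let `Kr` be the submodule of all `t` with `Psi q t ∈ A (m+1)` (comap) and `S = span {mon w | w ∈ T} ⊔ Kr`. CLAIM `S = ⊤`. Downward induction on `i`: `A i ≤ S` for all `i ≤ m+1` (down to `A 0 = ⊤`).
`i = m+1`: `A (m+1) ≤ Kr`: by `A_le_span` it is enough that `mon w ∈ Kr` for `|w| ≥ m+1` and .. (use: `A i ≤ span {mon w | |w| = i} ⊔ A (i+1)` only reaches `A M` for large `M`; so prove directly `A i ≤ Kr` for `i ≥ m+1`: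
`A i` is spanned by elements `t` with `Dp s i' t`, `i' ≥ i`: by induction `A i = A (i-1) * I`, `I` is spanned by the `u g - 1`; every element of `A i` is a linear combination of products `u h * (u g_1 - 1) * ... * (u g_i - 1)`, for which `Dp i i _`
(`Dp.dm` with `k = 1`, `u_sub_one_mem`, `Dp.lm`, `Dp.base 1`); `psi_dp` gives `Psi q t ∈ A (i + (q - i)) ≤ A (m+1)`.)
Step `i + 1 → i`, `i ≤ m`: by `A_le_span` it is enough that `mon w ∈ S` for `|w| = i`: strong induction on `2^i - val w` (downward on `val w`, `val_lt`): if `w ∈ T` clear. Otherwise `hT` gives `s` and `lead_pcs` an element `t`, `Dp s i t`,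
`t - mon w ∈ hi w`; `psi_dp`: `Psi q t ∈ A (i + (q - s)) ≤ A (m+1)`, so `t ∈ Kr ≤ S`; `hi w ≤ S` by the induction hypotheses. Hence `mon w ∈ S`.
CONCLUSION: `range (Psi q) ≤ span {Psi q (mon w) | w ∈ T} ⊔ A (m+1)`. For `V ≤ range (Psi q)`, `V ⧸ (V ⊓ A (m+1))` embeds into `R ⧸ A (m+1)` with image in the span of `card T` classes. So `finrank V - finrank (V ⊓ A (m+1)) ≤ card T`
(rank-nullity for `V → R ⧸ A (m+1)`).
-/

set_option autoImplicit false

namespace NLB

open Module

variable (p : ℕ) [Fact p.Prime]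

private theorem dp_right {s w : ℕ} {t : R p} (h : Dp p s w t) (g : F2) :
    Dp p (s + 1) (w + 1) (t * (u p g - 1)) := by
  induction h with
  | base g' =>
    have h0 : Dp p (0 + 1) (1 + 0) ((u p g - 1) * u p 1) :=
      Dp.dm g (u_sub_one_mem p g) le_rfl (Dp.base 1)
    rw [u_one, mul_one] at h0
    exact Dp.lm g' h0
  | lm g' _ ih =>
    rw [mul_assoc]
    exact Dp.lm g' ih
  | @dm g' k s w t hk hk1 _ ih =>
    rw [mul_assoc]
    have h0 := Dp.dm g' hk hk1 ih
    rw [← Nat.add_assoc] at h0
    exact h0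

private theorem ker_le : LinearMap.ker (eps p).toLinearMap ≤
    Submodule.span (ZMod p) {x | ∃ g : F2, x = u p g - 1} := by
  have key : ∀ c : R p, c - eps p c • (1 : R p) ∈
      Submodule.span (ZMod p) {x | ∃ g : F2, x = u p g - 1} := by
    intro c
    have hc : c ∈ Submodule.span (ZMod p) (Set.range (u p)) := by
      rw [span_u]
      exact Submodule.mem_top
    induction hc using Submodule.span_induction with
    | mem x hx =>
      obtain ⟨g, rfl⟩ := hx
      rw [eps_u, one_smul]
      exact Submodule.subset_span ⟨g, rfl⟩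
    | zero => simp
    | add x y _ _ hx hy =>
      have : x + y - eps p (x + y) • (1 : R p) =
          (x - eps p x • (1 : R p)) + (y - eps p y • (1 : R p)) := by
        rw [map_add, add_smul]
        abel
      rw [this]
      exact Submodule.add_mem _ hx hy
    | smul a x _ hx =>
      have : a • x - eps p (a • x) • (1 : R p) = a • (x - eps p x • (1 : R p)) := by
        rw [map_smul, smul_sub, smul_assoc]
      rw [this]
      exact Submodule.smul_mem _ _ hx
  intro c hc
  have h0 : eps p c = 0 := hc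
  have := key c
  rwa [h0, zero_smul, sub_zero] at this

private theorem A_le_Dp (i : ℕ) : A p i ≤ Submodule.span (ZMod p) {t | Dp p i i t} := by
  induction i with
  | zero =>
    intro x _
    have hx : x ∈ Submodule.span (ZMod p) (Set.range (u p)) := by
      rw [span_u]
      exact Submodule.mem_top
    refine Submodule.span_mono ?_ hx
    rintro y ⟨g, rfl⟩
    exact Dp.base g
  | succ i ih =>
    show A p i * LinearMap.ker (eps p).toLinearMap ≤ _
    have h0 : A p i * LinearMap.ker (eps p).toLinearMap ≤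
        Submodule.span (ZMod p) {t | Dp p i i t} *
          Submodule.span (ZMod p) {x | ∃ g : F2, x = u p g - 1} :=
      Submodule.mul_le.mpr fun a ha b hb => Submodule.mul_mem_mul (ih ha) (ker_le p hb)
    refine h0.trans ?_
    rw [Submodule.span_mul_span]
    refine Submodule.span_mono ?_
    rintro y ⟨a, ha, b, ⟨g, rfl⟩, rfl⟩
    exact dp_right p ha g

private theorem top_le (q m : ℕ) (T : Finset (List Bool))
    (hT : ∀ w : List Bool, w.length ≤ m → w ∉ T → ∃ s, Pcs s w ∧ m + 1 ≤ w.length + (q - s)) :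
    (⊤ : Submodule (ZMod p) (R p)) ≤ Submodule.span (ZMod p) {x | ∃ w ∈ T, x = mon p w} ⊔
      Submodule.comap (Psi p q) (A p (m + 1)) := by
  set Kr := Submodule.comap (Psi p q) (A p (m + 1)) with hKr
  set S := Submodule.span (ZMod p) {x | ∃ w ∈ T, x = mon p w} ⊔ Kr with hS
  have h1 : A p (m + 1) ≤ S := by
    refine le_trans ?_ (le_sup_right : Kr ≤ S)
    refine (A_le_Dp p (m + 1)).trans ?_
    rw [Submodule.span_le]
    intro t ht
    have h2 := psi_dp p ht q
    exact A_anti p (show m + 1 ≤ (m + 1) + (q - (m + 1)) by omega) h2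
  have h2 : ∀ i, i ≤ m → A p (i + 1) ≤ S → A p i ≤ S := by
    intro i him hA
    have h3 : ∀ n : ℕ, ∀ w : List Bool, w.length = i → 2 ^ i - val w = n → mon p w ∈ S := by
      intro n
      induction n using Nat.strong_induction_on with
      | _ n ih =>
        intro w hw hn
        by_cases hwT : w ∈ T
        · exact (le_sup_left : Submodule.span (ZMod p) {x | ∃ w ∈ T, x = mon p w} ≤ S)
            (Submodule.subset_span ⟨w, hwT, rfl⟩)
        · obtain ⟨s, hs1, hs2⟩ := hT w (by omega) hwT
          obtain ⟨t, ht1, ht2⟩ := lead_pcs p hs1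
          have ht3 : t ∈ Kr := A_anti p hs2 (psi_dp p ht1 q)
          have ht4 : t ∈ S := (le_sup_right : Kr ≤ S) ht3
          have hhi : hi p w ≤ S := by
            unfold hi
            refine sup_le ?_ ?_
            · rw [Submodule.span_le]
              rintro x ⟨v, hv1, hv2, rfl⟩
              have hv3 := val_lt v
              rw [hv1, hw] at hv3
              exact ih (2 ^ i - val v) (by omega) v (by omega) rfl
            · rw [hw]
              exact hA
          have h5 : mon p w = t - (t - mon p w) := by abel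
          rw [h5]
          exact Submodule.sub_mem _ ht4 (hhi ht2)
    refine (A_le_span p i).trans (sup_le ?_ hA)
    rw [Submodule.span_le]
    rintro x ⟨w, hw, rfl⟩
    exact h3 _ w hw rfl
  have h3 : ∀ j, j ≤ m + 1 → A p (m + 1 - j) ≤ S := by
    intro j
    induction j with
    | zero =>
      intro _
      exact h1
    | succ j ih =>
      intro hj
      have h4 := ih (by omega)
      have h5 : m + 1 - j = (m + 1 - (j + 1)) + 1 := by omega
      rw [h5] at h4
      exact h2 _ (by omega) h4
  have h4 := h3 (m + 1) le_rfl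
  rw [Nat.sub_self] at h4
  exact h4

theorem rank_bound (q m : ℕ) (T : Finset (List Bool))
    (hT : ∀ w : List Bool, w.length ≤ m → w ∉ T → ∃ s, Pcs s w ∧ m + 1 ≤ w.length + (q - s))
    (V : Submodule (ZMod p) (R p)) [FiniteDimensional (ZMod p) V] (hV : V ≤ LinearMap.range (Psi p q)) :
    finrank (ZMod p) V ≤ finrank (ZMod p) (V ⊓ A p (m + 1) : Submodule (ZMod p) (R p)) + T.card := by
  classical
  set Φ : R p →ₗ[ZMod p] (R p ⧸ A p (m + 1)) := (A p (m + 1)).mkQ ∘ₗ Psi p q with hΦ
  set f : V →ₗ[ZMod p] (R p ⧸ A p (m + 1)) := (A p (m + 1)).mkQ ∘ₗ V.subtype with hf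
  have hrk := LinearMap.finrank_range_add_finrank_ker f
  have hker : finrank (ZMod p) (LinearMap.ker f) =
      finrank (ZMod p) (V ⊓ A p (m + 1) : Submodule (ZMod p) (R p)) := by
    have h1 : LinearMap.ker f = Submodule.comap V.subtype (A p (m + 1)) := by
      rw [hf, LinearMap.ker_comp, Submodule.ker_mkQ]
    rw [h1, ← Submodule.finrank_map_subtype_eq, Submodule.map_comap_subtype]
  have hrange : LinearMap.range f ≤
      Submodule.span (ZMod p) ((T.image (fun w => Φ (mon p w)) : Finset _) : Set (R p ⧸ A p (m + 1))) := by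
    rintro y ⟨⟨v, hv⟩, rfl⟩
    obtain ⟨r, rfl⟩ := hV hv
    have hr : r ∈ Submodule.span (ZMod p) {x | ∃ w ∈ T, x = mon p w} ⊔
        Submodule.comap (Psi p q) (A p (m + 1)) := top_le p q m T hT Submodule.mem_top
    obtain ⟨a, ha, b, hb, rfl⟩ := Submodule.mem_sup.mp hr
    show Φ (a + b) ∈ _
    have hb0 : Φ b = 0 := by
      rw [hΦ]
      simp only [LinearMap.comp_apply, Submodule.mkQ_apply]
      exact (Submodule.Quotient.mk_eq_zero _).mpr hb
    rw [map_add, hb0, add_zero]
    have h2 : Φ a ∈ Submodule.map Φ (Submodule.span (ZMod p) {x | ∃ w ∈ T, x = mon p w}) :=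
      Submodule.mem_map_of_mem ha
    rw [Submodule.map_span] at h2
    refine Submodule.span_mono ?_ h2
    rintro z ⟨x, ⟨w, hw, rfl⟩, rfl⟩
    exact Finset.mem_coe.mpr (Finset.mem_image_of_mem _ hw)
  have h3 : finrank (ZMod p) (LinearMap.range f) ≤ T.card := by
    refine (Submodule.finrank_mono hrange).trans ?_
    refine (finrank_span_finset_le_card _).trans Finset.card_image_le
  omega

end NLB
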