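import Pool.Agent.Lib.NLB.Gsf
import Pool.Agent.Lib.NLB.Rk
import Pool.Agent.Lib.NLB.Bdt
import Pool.Agent.Lib.NLB.Num
import Pool.Agent.Lib.NLB.Act
import Pool.Agent.Lib.NLB.Pad

/-!
# NLB / Fin: assembly (captain)
-/

set_option autoImplicit false

namespace NLB

open Module

/-- the words of length at most `N` -/
def wl (N : ℕ) : Finset (List Bool) :=
  (Finset.range (N + 1)).biUnion fun i => Finset.univ.image fun f : Fin i → Bool => List.ofFn f

theorem mem_wl (N : ℕ) (l : List Bool) (h : l.length ≤ N) : l ∈ wl N := by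
  refine Finset.mem_biUnion.2 ⟨l.length, Finset.mem_range.2 (by omega), ?_⟩
  exact Finset.mem_image.2 ⟨l.get, Finset.mem_univ _, List.ofFn_get l⟩

theorem card_wl (N : ℕ) : (wl N).card ≤ 2 ^ (N + 1) := by
  refine Finset.card_biUnion_le.trans ?_
  have h1 : ∀ i ∈ Finset.range (N + 1), (Finset.univ.image fun f : Fin i → Bool => List.ofFn f).card ≤ 2 ^ i := by
    intro i _
    refine Finset.card_image_le.trans ?_
    simp
  refine (Finset.sum_le_sum h1).trans ?_
  have h2 := Nat.geomSum_lt (m := 2) (n := N + 1) (s := Finset.range (N + 1)) le_rfl (fun i hi => Finset.mem_range.1 hi)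
  exact h2.le

section

variable (p : ℕ) [Fact p.Prime]

/-- the span of the relators -/
noncomputable def VV (N q : ℕ) : Submodule (ZMod p) (R p) :=
  Submodule.span (ZMod p) (((wl N).image fun l => u p (pw l) ^ q - 1 : Finset (R p)) : Set (R p))

theorem VV_fin (N q : ℕ) : FiniteDimensional (ZMod p) (VV p N q) := FiniteDimensional.span_finset _ _

theorem VV_rank (N q : ℕ) : finrank (ZMod p) (VV p N q) ≤ 2 ^ (N + 1) :=
  (finrank_span_finset_le_card _).trans (Finset.card_image_le.trans (card_wl N))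

theorem VV_mem (N q : ℕ) (l : List Bool) (h : l.length ≤ N) : u p (pw l) ^ q - 1 ∈ VV p N q :=
  Submodule.subset_span (Finset.mem_coe.2 (Finset.mem_image.2 ⟨l, mem_wl N l h, rfl⟩))

theorem pow_sub (a : ℕ) (g : F2) : u p g ^ p ^ a - 1 = (u p g - 1) ^ p ^ a := by
  have : CharP (R p) p := charP_of_injective_algebraMap (FaithfulSMul.algebraMap_injective (ZMod p) (R p)) p
  rw [sub_pow_char_pow_of_commute _ _ (Commute.one_right _), one_pow]

theorem VV_le (N a : ℕ) : VV p N (p ^ a) ≤ A p (p ^ a) := by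
  refine Submodule.span_le.2 ?_
  rintro x hx
  obtain ⟨l, _, rfl⟩ := Finset.mem_image.1 (Finset.mem_coe.1 hx)
  show u p (pw l) ^ p ^ a - 1 ∈ A p (p ^ a)
  rw [pow_sub]
  have h := pow_mem_A p (u_sub_one_mem p (pw l)) (p ^ a)
  rwa [one_mul] at h

theorem VV_range (N a : ℕ) : VV p N (p ^ a) ≤ LinearMap.range (Psi p (p ^ a)) := by
  refine Submodule.span_le.2 ?_
  rintro x hx
  obtain ⟨l, _, rfl⟩ := Finset.mem_image.1 (Finset.mem_coe.1 hx)
  exact ⟨u p (pw l), by rw [Psi_u, pow_sub]⟩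

/-- the ranks -/
noncomputable def rr (N q m : ℕ) : ℕ := finrank (ZMod p) (VV p N q ⊓ A p m : Submodule (ZMod p) (R p)) -
  finrank (ZMod p) (VV p N q ⊓ A p (m + 1) : Submodule (ZMod p) (R p))

theorem rr_spec (N q m : ℕ) : finrank (ZMod p) (VV p N q ⊓ A p m : Submodule (ZMod p) (R p)) =
    finrank (ZMod p) (VV p N q ⊓ A p (m + 1) : Submodule (ZMod p) (R p)) + rr p N q m := by
  have := VV_fin p N q
  have : FiniteDimensional (ZMod p) (VV p N q ⊓ A p m : Submodule (ZMod p) (R p)) :=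
    Submodule.finiteDimensional_of_le inf_le_left
  have h := Submodule.finrank_mono (inf_le_inf_left (VV p N q) (A_anti p (Nat.le_add_right m 1)))
  unfold rr
  omega

theorem rr_sum (N q K : ℕ) : ∑ m ∈ Finset.range K, rr p N q m +
    finrank (ZMod p) (VV p N q ⊓ A p K : Submodule (ZMod p) (R p)) = finrank (ZMod p) (VV p N q) := by
  induction K with
  | zero =>
    rw [Finset.sum_range_zero, zero_add]
    have : VV p N q ⊓ A p 0 = VV p N q := inf_top_eq _
    rw [this]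
  | succ K ih =>
    rw [Finset.sum_range_succ]
    have := rr_spec p N q K
    omega

theorem rr_le_card (N a m : ℕ) (T : Finset (List Bool))
    (hT : ∀ w : List Bool, w.length ≤ m → w ∉ T → ∃ s, Pcs s w ∧ m + 1 ≤ w.length + (p ^ a - s)) :
    rr p N (p ^ a) m ≤ T.card := by
  have := VV_fin p N (p ^ a)
  have h1 := rank_bound p (p ^ a) m T hT (VV p N (p ^ a)) (VV_range p N a)
  have h2 : finrank (ZMod p) (VV p N (p ^ a) ⊓ A p m : Submodule (ZMod p) (R p)) ≤ finrank (ZMod p) (VV p N (p ^ a)) :=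
    Submodule.finrank_mono inf_le_left
  unfold rr
  omega

theorem rr_weighted (N a : ℕ) (t : ℝ) (M0 h' h : ℕ) (ht : 0 < t) (ht1 : t ≤ 1) (h1 : h' ≤ p ^ a) (hh : 1 ≤ h)
    (h2 : h ≤ p ^ a - h')
    (hs : ∑ m ∈ Finset.range M0, 2 ^ (m + 1) * ((1 / 2) ^ h' + (m * (1 / 2) ^ h + (3 / 4) ^ (p ^ a - h' - h) * (3 / 2) ^ h)) *
      t ^ m + 2 ^ (N + 1) * t ^ M0 ≤ 2 * t - 1) (M : ℕ) :
    ∑ m ∈ Finset.Icc 1 M, (rr p N (p ^ a) m : ℝ) * t ^ m ≤ 2 * t - 1 := by
  refine le_trans ?_ hs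
  have e1 : ∑ m ∈ Finset.Icc 1 M, (rr p N (p ^ a) m : ℝ) * t ^ m ≤
      ∑ m ∈ Finset.range (M0 + (M + 1)), (rr p N (p ^ a) m : ℝ) * t ^ m := by
    refine Finset.sum_le_sum_of_subset_of_nonneg ?_ fun m _ _ => by positivity
    intro m hm
    rw [Finset.mem_Icc] at hm
    rw [Finset.mem_range]
    omega
  refine e1.trans ?_
  rw [Finset.sum_range_add]
  refine add_le_add (Finset.sum_le_sum fun m _ => ?_) ?_
  · obtain ⟨T, hT, hc⟩ := bad_all (p ^ a) h' h m h1 hh h2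
    refine mul_le_mul_of_nonneg_right (le_trans ?_ hc) (by positivity)
    exact_mod_cast rr_le_card p N a m T hT
  · have e2 : ∀ j ∈ Finset.range (M + 1), (rr p N (p ^ a) (M0 + j) : ℝ) * t ^ (M0 + j) ≤
        (rr p N (p ^ a) (M0 + j) : ℝ) * t ^ M0 := by
      intro j _
      refine mul_le_mul_of_nonneg_left ?_ (by positivity)
      exact pow_le_pow_of_le_one ht.le ht1 (Nat.le_add_right _ _)
    refine (Finset.sum_le_sum e2).trans ?_
    rw [← Finset.sum_mul]
    refine mul_le_mul_of_nonneg_right ?_ (by positivity)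
    have e3 := rr_sum p N (p ^ a) (M0 + (M + 1))
    rw [Finset.sum_range_add] at e3
    have e4 := VV_rank p N (p ^ a)
    have e5 : ∑ j ∈ Finset.range (M + 1), rr p N (p ^ a) (M0 + j) ≤ 2 ^ (N + 1) := by omega
    exact_mod_cast e5

end

theorem main : ∃ C : ℕ, 1 ≤ C ∧ ∀ p a : ℕ, p.Prime → C ≤ p ^ a → ∀ k n N B : ℕ, 2 ≤ k → p ^ a ∣ n → N ^ C ≤ 2 ^ (p ^ a) →
    ∃ (G : Type) (_ : Group G) (S : Finset G), Finite G ∧ IsPGroup p G ∧ S.card = k ∧ Subgroup.closure (S : Set G) = ⊤ ∧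
      Cond N n S ∧ B < Nat.card G := by
  obtain ⟨C, hC1, hC⟩ := num
  refine ⟨C + 1, by omega, fun p a hp hCq k n N B hk hn hN => ?_⟩
  have : Fact p.Prime := ⟨hp⟩
  have hN' : N ^ C ≤ 2 ^ (p ^ a) := by
    rcases Nat.eq_zero_or_pos N with h0 | h0
    · subst h0
      rw [zero_pow (by omega)]
      exact Nat.zero_le _
    · exact (Nat.pow_le_pow_right h0 (Nat.le_succ C)).trans hN
  obtain ⟨t, M0, h', h, ht, ht1, h1, hh, h2, ht', hs⟩ := hC (p ^ a) N (by omega) hN'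
  have ha : a ≠ 0 := by
    rintro rfl
    rw [pow_zero] at hCq
    omega
  have hfd := VV_fin p N (p ^ a)
  have hq1 : 1 ≤ p ^ a := Nat.one_le_pow _ _ hp.pos
  obtain ⟨n0, hn0⟩ := pow_unbounded_of_one_lt (B : ℝ) ht'
  have hg := gs p (VV p N (p ^ a)) ((VV_le p N a).trans (A_anti p hq1)) t ht ht1 (rr p N (p ^ a))
    (fun m => (rr_spec p N (p ^ a) m).le) (rr_weighted p N a t M0 h' h ht ht1 h1 hh h2 hs) n0
  obtain ⟨G, _, S, hfin, hpg, hSc, hcl, hcond, hcard⟩ := act p (VV p N (p ^ a)) (p ^ a) N (n0 + 1) (VV_mem p N (p ^ a))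
  obtain ⟨G', _, S', hfin', hpg', hSc', hcl', hcond', hcard'⟩ :=
    pad p N (p ^ a) k (dvd_pow_self p ha) hk G hpg S hSc hcl hcond
  refine ⟨G', inferInstance, S', hfin', hpg', hSc', hcl', ?_, ?_⟩
  · intro l hl hx
    obtain ⟨c, rfl⟩ := hn
    rw [pow_mul, hcond' l hl hx, one_pow]
  · have e1 : (B : ℝ) < (bb p (VV p N (p ^ a)) (n0 + 1) : ℝ) := lt_of_lt_of_le hn0 hg
    have e2 : B < bb p (VV p N (p ^ a)) (n0 + 1) := by exact_mod_cast e1
    omega

end NLB
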