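import Pool.Agent.Lib.NLB.Aug

/-!
# NLB / Fox: Fox derivatives
-/

set_option autoImplicit false

namespace NLB

variable (p : ℕ) [Fact p.Prime]

private theorem fox_der (b : Bool) : ∃ d : F2 → R p, (∀ g h, d (g * h) = d g + u p g * d h) ∧
    ∀ c, d (FreeGroup.of c) = if b = c then 1 else 0 := by
  let P : Bool → Equiv.Perm (R p) := fun c =>
    { toFun := fun r => u p (FreeGroup.of c) * r + (if b = c then 1 else 0)
      invFun := fun r => u p (FreeGroup.of c)⁻¹ * (r - (if b = c then 1 else 0))
      left_inv := fun r => by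
        show u p (FreeGroup.of c)⁻¹ * (u p (FreeGroup.of c) * r + (if b = c then 1 else 0) - (if b = c then 1 else 0)) = r
        rw [add_sub_cancel_right, ← mul_assoc, u_inv_mul, one_mul]
      right_inv := fun r => by
        show u p (FreeGroup.of c) * (u p (FreeGroup.of c)⁻¹ * (r - (if b = c then 1 else 0))) + (if b = c then 1 else 0) = r
        rw [← mul_assoc, u_mul_inv, one_mul, sub_add_cancel] }
  let φ : F2 →* Equiv.Perm (R p) := FreeGroup.lift P
  have hP : ∀ c r, φ (FreeGroup.of c) r = u p (FreeGroup.of c) * r + (if b = c then 1 else 0) := by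
    intro c r
    show FreeGroup.lift P (FreeGroup.of c) r = _
    rw [FreeGroup.lift_apply_of]
    rfl
  have key : ∀ g r, φ g r = u p g * r + φ g 0 := by
    intro g
    induction g using FreeGroup.induction_on with
    | C1 =>
      intro r
      rw [map_one]
      show r = u p 1 * r + 0
      rw [u_one, one_mul, add_zero]
    | of c =>
      intro r
      show φ (FreeGroup.of c) r = u p (FreeGroup.of c) * r + φ (FreeGroup.of c) 0
      rw [hP, hP, mul_zero, zero_add]
    | inv_of c ih =>
      intro r
      have h1 : ∀ r, φ (FreeGroup.of c)⁻¹ r = u p (FreeGroup.of c)⁻¹ * (r - (if b = c then 1 else 0)) := by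
        intro r
        rw [map_inv, Equiv.Perm.inv_eq_iff_eq, hP, ← mul_assoc, u_mul_inv, one_mul, sub_add_cancel]
      show φ (FreeGroup.of c)⁻¹ r = u p (FreeGroup.of c)⁻¹ * r + φ (FreeGroup.of c)⁻¹ 0
      rw [h1, h1, zero_sub, mul_sub, mul_neg, sub_eq_add_neg]
    | mul g h hg hh =>
      intro r
      have h1 : ∀ r, φ (g * h) r = φ g (φ h r) := fun r => by rw [map_mul]; rfl
      rw [h1, h1, hg, hh, hg (φ h 0), u_mul, mul_add, mul_assoc, add_assoc]
  refine ⟨fun g => φ g 0, fun g h => ?_, fun c => ?_⟩
  · show φ (g * h) 0 = φ g 0 + u p g * φ h 0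
    rw [map_mul]
    show φ g (φ h 0) = _
    rw [key g, add_comm]
  · show φ (FreeGroup.of c) 0 = _
    rw [hP, mul_zero, zero_add]

theorem fox : ∃ D : Bool → (R p →ₗ[ZMod p] R p), IsFox p D := by
  classical
  choose d hd1 hd2 using fox_der p
  have h1 : ∀ b, d b 1 = 0 := by
    intro b
    have h := hd1 b 1 1
    rw [mul_one, u_one, one_mul] at h
    exact left_eq_add.1 h
  have hinv : ∀ b g, d b g⁻¹ = -(u p g⁻¹ * d b g) := by
    intro b g
    have h := hd1 b g⁻¹ g
    rw [inv_mul_cancel, h1] at h
    exact eq_neg_of_add_eq_zero_left h.symm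
  have hlin : ∀ (F G : R p →ₗ[ZMod p] R p), (∀ x, F (u p x) = G (u p x)) → ∀ a, F a = G a := fun F G h a => by
    rw [ext_unique p F G h]
  have hmul : ∀ (b : Bool) (a c : R p), ext p (d b) (a * c) = a * ext p (d b) c + eps p c • ext p (d b) a := by
    intro b a c
    have hg : ∀ (g : F2) (c : R p), ext p (d b) (u p g * c) = u p g * ext p (d b) c + eps p c • ext p (d b) (u p g) := by
      intro g c
      exact hlin ((ext p (d b)) ∘ₗ LinearMap.mulLeft (ZMod p) (u p g))
        (LinearMap.mulLeft (ZMod p) (u p g) ∘ₗ ext p (d b) + (eps p).toLinearMap.smulRight (ext p (d b) (u p g)))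
        (fun x => by
          show ext p (d b) (u p g * u p x) = u p g * ext p (d b) (u p x) + eps p (u p x) • ext p (d b) (u p g)
          rw [← u_mul, ext_u, ext_u, ext_u, eps_u, one_smul, hd1, add_comm]) c
    exact hlin ((ext p (d b)) ∘ₗ LinearMap.mulRight (ZMod p) c)
      (LinearMap.mulRight (ZMod p) (ext p (d b) c) + eps p c • ext p (d b)) (fun x => hg x c) a
  have hX : ∀ b c, ext p (d b) (X p c) = if b = c then 1 else 0 := by
    intro b c
    unfold X
    rw [map_sub, ext_u, ← u_one, ext_u, h1, sub_zero, hd2, u_one]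
  have heX : ∀ c, eps p (X p c) = 0 := by
    intro c
    unfold X
    rw [map_sub, eps_u, map_one, sub_self]
  refine ⟨fun b => ext p (d b), fun a => ?_, fun b c a => ?_, hmul, fun b n a ha => ?_⟩
  · refine hlin LinearMap.id (Algebra.linearMap (ZMod p) (R p) ∘ₗ (eps p).toLinearMap
      + LinearMap.mulRight (ZMod p) (X p false) ∘ₗ ext p (d false)
      + LinearMap.mulRight (ZMod p) (X p true) ∘ₗ ext p (d true)) (fun g => ?_) a
    show u p g = algebraMap (ZMod p) (R p) (eps p (u p g)) + ext p (d false) (u p g) * X p false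
      + ext p (d true) (u p g) * X p true
    rw [eps_u, map_one, ext_u, ext_u]
    induction g using FreeGroup.induction_on with
    | C1 => rw [h1, h1, zero_mul, zero_mul, add_zero, add_zero, u_one]
    | of c =>
      show u p (FreeGroup.of c) = 1 + d false (FreeGroup.of c) * X p false + d true (FreeGroup.of c) * X p true
      rw [hd2, hd2]
      cases c <;> simp [X]
    | inv_of c ih =>
      change u p (FreeGroup.of c) = 1 + d false (FreeGroup.of c) * X p false + d true (FreeGroup.of c) * X p true at ih
      show u p (FreeGroup.of c)⁻¹ = 1 + d false (FreeGroup.of c)⁻¹ * X p false + d true (FreeGroup.of c)⁻¹ * X p true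
      have h2 : u p (FreeGroup.of c)⁻¹ * u p (FreeGroup.of c) = 1 := u_inv_mul p _
      rw [hinv, hinv]
      generalize u p (FreeGroup.of c)⁻¹ = y at *
      generalize u p (FreeGroup.of c) = x at *
      have h3 : y * (1 + d false (FreeGroup.of c) * X p false + d true (FreeGroup.of c) * X p true) = 1 := by
        rw [← ih]
        exact h2
      rw [mul_add, mul_add, mul_one] at h3
      rw [neg_mul, neg_mul, mul_assoc, mul_assoc]
      rw [← h3]
      abel
    | mul g h hg hh =>
      rw [hd1, hd1, u_mul]
      nth_rewrite 1 [hh]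
      rw [add_mul, add_mul, mul_add, mul_add, mul_one, mul_assoc (u p g), mul_assoc (u p g)]
      nth_rewrite 1 [hg]
      abel
  · show ext p (d b) (a * X p c) = _
    rw [hmul, hX, heX, zero_smul, add_zero]
    split_ifs
    · rw [mul_one]
    · rw [mul_zero]
  · show ext p (d b) a ∈ A p n
    refine Submodule.mul_induction_on (show a ∈ A p n * LinearMap.ker (eps p).toLinearMap from ha) (fun m hm c hc => ?_)
      fun x y hx hy => ?_
    · have h2 : eps p c = 0 := hc
      rw [hmul, h2, zero_smul, add_zero]
      exact mul_mem_A p hm (show ext p (d b) c ∈ A p 0 from Submodule.mem_top)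
    · rw [map_add]
      exact Submodule.add_mem _ hx hy

end NLB
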