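import Mathlib

/-!
# NLB / GSB: adapted generators (pure linear algebra)

PROOF IN WORDS. `U' ≤ U`, `U` finite dimensional. Choose a complement `C` of `U'` inside `U` (for example `Submodule.exists_isCompl` of `U'.comap U.subtype` in `U`, mapped to `M`), a basis of `C` and let `B`
be the image of the basis. Then `card B = finrank C = finrank U - finrank U'` (`Submodule.finrank_add_eq_of_isCompl`, injectivity of the basis) and `U ≤ span B ⊔ U'`.
-/

set_option autoImplicit false

namespace NLB

open Module

theorem exists_B {K M : Type} [Field K] [AddCommGroup M] [Module K M] (U U' : Submodule K M) [FiniteDimensional K U] (h : U' ≤ U) :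
    ∃ B : Finset M, (∀ v ∈ B, v ∈ U) ∧ B.card + finrank K U' = finrank K U ∧ U ≤ Submodule.span K (B : Set M) ⊔ U' := by
  classical
  obtain ⟨C, hC⟩ := Submodule.exists_isCompl (U'.comap U.subtype)
  have hinj : Function.Injective fun i => (((finBasis K C i : C) : U) : M) := by
    intro i j hij
    exact (finBasis K C).injective (Subtype.ext (Subtype.ext hij))
  refine ⟨Finset.univ.map ⟨fun i => (((finBasis K C i : C) : U) : M), hinj⟩, ?_, ?_, ?_⟩
  · intro v hv
    obtain ⟨i, -, hi⟩ := Finset.mem_map.1 hv
    rw [← hi]
    exact ((finBasis K C i : C) : U).2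
  · rw [Finset.card_map, Finset.card_univ, Fintype.card_fin]
    have h1 := Submodule.finrank_add_eq_of_isCompl hC
    have h2 : finrank K (U'.comap U.subtype) = finrank K U' := (Submodule.comapSubtypeEquivOfLe h).finrank_eq
    omega
  · intro u hu
    have h1 : (⟨u, hu⟩ : U) ∈ U'.comap U.subtype ⊔ C := by
      rw [hC.sup_eq_top]
      exact Submodule.mem_top
    obtain ⟨x, hx, y, hy, hxy⟩ := Submodule.mem_sup.1 h1
    have h2 : u = (y : M) + (x : M) := by
      have h3 := congrArg (fun z : U => (z : M)) hxy
      simp only [Submodule.coe_add] at h3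
      rw [← h3, add_comm]
    rw [h2]
    refine Submodule.add_mem_sup ?_ hx
    have h4 : (⟨y, hy⟩ : C) ∈ Submodule.span K (Set.range (finBasis K C)) := by
      rw [(finBasis K C).span_eq]
      exact Submodule.mem_top
    have h5 := Submodule.mem_map_of_mem (f := U.subtype ∘ₗ C.subtype) h4
    rw [Submodule.map_span] at h5
    refine Submodule.span_mono ?_ h5
    rintro _ ⟨_, ⟨i, rfl⟩, rfl⟩
    exact Finset.mem_coe.2 (Finset.mem_map.2 ⟨i, Finset.mem_univ _, rfl⟩)

end NLB
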