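import Mathlib

/-!
# NLB / GSG: growth (pure real numbers)

PROOF IN WORDS. Let `τ = 1/t`. Claim by strong induction: `f (n+1) ≥ τ f n` for all `n ≥ 1`, and `f n ≥ 0`. If it holds below `n` then `f (n+1-m) ≤ t^(m-1) f n` for `1 ≤ m ≤ n`, hence
`f (n+1) ≥ 2 f n - Σ r m t^(m-1) f n = f n (2 - (1/t) Σ r m t^m) ≥ f n (2 - (2t-1)/t) = f n / t`. With `f 1 ≥ 1` this gives `f (n+1) ≥ τ^n`.
-/

set_option autoImplicit false

namespace NLB

theorem growth (f r : ℕ → ℕ) (t : ℝ) (ht : 0 < t) (ht1 : t ≤ 1) (h1 : 1 ≤ f 1)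
    (hf : ∀ n, 1 + 2 * f n ≤ f (n + 1) + ∑ m ∈ Finset.Icc 1 n, r m * f (n + 1 - m))
    (hr : ∀ M, ∑ m ∈ Finset.Icc 1 M, (r m : ℝ) * t ^ m ≤ 2 * t - 1) (n : ℕ) : (1 / t) ^ n ≤ (f (n + 1) : ℝ) := by
  have key : ∀ n, 1 ≤ n → (f n : ℝ) ≤ t * f (n + 1) := by
    intro n
    induction n using Nat.strong_induction_on with
    | _ n ih =>
      intro hn
      have hle : ∀ m, m + 1 ≤ n → (f (n - m) : ℝ) ≤ t ^ m * f n := by
        intro m
        induction m with
        | zero => intro _; simp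
        | succ m ihm =>
          intro hm
          have h2 := ih (n - (m + 1)) (by omega) (by omega)
          have h3 : n - (m + 1) + 1 = n - m := by omega
          rw [h3] at h2
          have h4 := mul_le_mul_of_nonneg_left (ihm (by omega)) ht.le
          calc (f (n - (m + 1)) : ℝ) ≤ t * f (n - m) := h2
            _ ≤ t * (t ^ m * f n) := h4
            _ = t ^ (m + 1) * f n := by ring
      have hS : t * ∑ m ∈ Finset.Icc 1 n, (r m : ℝ) * f (n + 1 - m) ≤ (2 * t - 1) * f n := by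
        calc t * ∑ m ∈ Finset.Icc 1 n, (r m : ℝ) * f (n + 1 - m)
            = ∑ m ∈ Finset.Icc 1 n, t * ((r m : ℝ) * f (n + 1 - m)) := Finset.mul_sum _ _ _
          _ ≤ ∑ m ∈ Finset.Icc 1 n, (r m : ℝ) * t ^ m * f n := by
              refine Finset.sum_le_sum fun m hm => ?_
              rw [Finset.mem_Icc] at hm
              obtain ⟨k, rfl⟩ : ∃ k, m = k + 1 := ⟨m - 1, by omega⟩
              have h2 : n + 1 - (k + 1) = n - k := by omega
              rw [h2]
              have h3 := hle k hm.2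
              have h4 : (0 : ℝ) ≤ t * r (k + 1) := mul_nonneg ht.le (Nat.cast_nonneg _)
              have h5 := mul_le_mul_of_nonneg_left h3 h4
              calc t * ((r (k + 1) : ℝ) * f (n - k)) = t * r (k + 1) * f (n - k) := by ring
                _ ≤ t * r (k + 1) * (t ^ k * f n) := h5
                _ = (r (k + 1) : ℝ) * t ^ (k + 1) * f n := by ring
          _ = (∑ m ∈ Finset.Icc 1 n, (r m : ℝ) * t ^ m) * f n := by rw [Finset.sum_mul]
          _ ≤ (2 * t - 1) * f n := mul_le_mul_of_nonneg_right (hr n) (Nat.cast_nonneg _)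
      have h6 : (1 : ℝ) + 2 * f n ≤ f (n + 1) + ∑ m ∈ Finset.Icc 1 n, (r m : ℝ) * f (n + 1 - m) := by
        have := hf n
        have h7 : ((1 + 2 * f n : ℕ) : ℝ) ≤ ((f (n + 1) + ∑ m ∈ Finset.Icc 1 n, r m * f (n + 1 - m) : ℕ) : ℝ) := by
          exact_mod_cast this
        push_cast at h7
        exact h7
      have h8 := mul_le_mul_of_nonneg_left h6 ht.le
      rw [mul_add, mul_add] at h8
      linarith
  induction n with
  | zero =>
    rw [pow_zero, zero_add]
    exact_mod_cast h1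
  | succ n ih =>
    have h2 := key (n + 1) (by omega)
    calc (1 / t) ^ (n + 1) = (1 / t) ^ n / t := by rw [pow_succ, mul_one_div]
      _ ≤ f (n + 1) / t := div_le_div_of_nonneg_right ih ht.le
      _ ≤ f (n + 1 + 1) := by
          rw [div_le_iff₀ ht]
          linarith

end NLB
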