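import Pool.Agent.Lib.NLB.GSK

/-!
# NLB / GSI: the inequality of Golod and Shafarevich

PROOF IN WORDS. Write `J = Jd V`, `Q n = J ⊔ A n`, `W n = R ⧸ Q n`, `bb n = finrank (W n)`; all `W n` are finite dimensional (quotients of `R ⧸ A n`, `fin_A`). `J` and `A n` are two-sided ideals, `J ≤ A 1`.
(1) `Φ : W n × W n → W (n+1)`, `(s, t) ↦ s * X false + t * X true` is well defined (`Submodule.mapQ` / `Submodule.liftQ`; `Q n * X b ⊆ Q (n+1)`). Its range lies in the kernel of the functional
`W (n+1) → ZMod p` induced by `eps` (`Q (n+1) ≤ A 1`), which is onto; so `finrank (range Φ) + 1 ≤ bb (n+1)`.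
(2) For `v ∈ B m`, `1 ≤ m ≤ n`, the map `ψ_v : W (n+1-m) → W n × W n`, `s ↦ (s * D false v, s * D true v)` is well defined: `D b v ∈ A (m-1)` by `IsFox.mem` (`D` from `fox`), so `A (n+1-m) * D b v ⊆ A n`, and `J * R ⊆ J`.
(3) `ker Φ ≤ ⨆ (range ψ_v)` over `m ∈ Icc 1 n`, `v ∈ B m`: let `x = s X false + t X true ∈ J ⊔ A (n+1)`; by `IsFox.mulX`, `D false x = s`, `D true x = t`, and `gs_ker` gives the pair `(s, t)` as an element of
`Q n × Q n` plus a sum of elements of the ranges of the `pr`; take classes.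
(4) `2 bb n = finrank (W n × W n) = finrank (range Φ) + finrank (ker Φ) ≤ bb (n+1) - 1 + Σ_m Σ_{v ∈ B m} bb (n+1-m)`.
-/

set_option autoImplicit false

namespace NLB

open Module

variable (p : ℕ) [Fact p.Prime]

private theorem mem_A_zero (x : R p) : x ∈ A p 0 := Submodule.mem_top

private theorem J_left (V : Submodule (ZMod p) (R p)) (a : R p) {x : R p} (hx : x ∈ Jd p V) : a * x ∈ Jd p V := by
  induction hx using Submodule.span_induction with
  | mem x hx =>
    obtain ⟨a', b, v, hv, rfl⟩ := hx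
    exact Submodule.subset_span ⟨a * a', b, v, hv, by simp only [mul_assoc]⟩
  | zero => rw [mul_zero]; exact Submodule.zero_mem _
  | add x y _ _ hx hy => rw [mul_add]; exact Submodule.add_mem _ hx hy
  | smul c x _ hx => rw [mul_smul_comm]; exact Submodule.smul_mem _ _ hx

private theorem J_right (V : Submodule (ZMod p) (R p)) (b : R p) {x : R p} (hx : x ∈ Jd p V) : x * b ∈ Jd p V := by
  induction hx using Submodule.span_induction with
  | mem x hx =>
    obtain ⟨a, b', v, hv, rfl⟩ := hx
    exact Submodule.subset_span ⟨a, b' * b, v, hv, by simp only [mul_assoc]⟩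
  | zero => rw [zero_mul]; exact Submodule.zero_mem _
  | add x y _ _ hx hy => rw [add_mul]; exact Submodule.add_mem _ hx hy
  | smul c x _ hx => rw [smul_mul_assoc]; exact Submodule.smul_mem _ _ hx

/-- multiplication from the right between the quotients -/
private theorem map_le (V : Submodule (ZMod p) (R p)) {i j k : ℕ} (h : k ≤ i + j) {a : R p} (ha : a ∈ A p j) :
    Jd p V ⊔ A p i ≤ (Jd p V ⊔ A p k).comap (LinearMap.mulRight (ZMod p) a) := by
  refine sup_le (fun x hx => ?_) fun x hx => ?_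
  · exact Submodule.mem_sup_left (J_right p V a hx)
  · exact Submodule.mem_sup_right (A_anti p h (mul_mem_A p hx ha))

private theorem fin_iSup {K M ι : Type} [Field K] [AddCommGroup M] [Module K M] [FiniteDimensional K M] (s : Finset ι)
    (f : ι → Submodule K M) : finrank K (⨆ i ∈ s, f i : Submodule K M) ≤ ∑ i ∈ s, finrank K (f i) := by
  classical
  induction s using Finset.induction_on with
  | empty => simp
  | insert i s hi ih =>
    rw [Finset.iSup_insert, Finset.sum_insert hi]
    exact (Submodule.finrank_add_le_finrank_add_finrank _ _).trans (Nat.add_le_add_left ih _)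

theorem gs_ineq (V : Submodule (ZMod p) (R p)) (hV : V ≤ A p 1) (B : ℕ → Finset (R p))
    (hB : ∀ m, ∀ v ∈ B m, v ∈ V ∧ v ∈ A p m)
    (hs : ∀ m, 1 ≤ m → V ⊓ A p m ≤ Submodule.span (ZMod p) (B m : Set (R p)) ⊔ (V ⊓ A p (m + 1))) (n : ℕ) :
    1 + 2 * bb p V n ≤ bb p V (n + 1) + ∑ m ∈ Finset.Icc 1 n, (B m).card * bb p V (n + 1 - m) := by
  classical
  obtain ⟨D, hD⟩ := fox p
  have hfd : ∀ i, FiniteDimensional (ZMod p) (R p ⧸ (Jd p V ⊔ A p i)) := by
    intro i
    have := fin_A p i
    exact Module.Finite.of_surjective (Submodule.factor (le_sup_right : A p i ≤ Jd p V ⊔ A p i))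
      (Submodule.factor_surjective _)
  have hX : ∀ b, X p b ∈ A p 1 := fun b => u_sub_one_mem p _
  let φ : Bool → (R p ⧸ (Jd p V ⊔ A p n)) →ₗ[ZMod p] (R p ⧸ (Jd p V ⊔ A p (n + 1))) := fun b =>
    Submodule.mapQ _ _ (LinearMap.mulRight (ZMod p) (X p b)) (map_le p V le_rfl (hX b))
  let Φ := (φ false).coprod (φ true)
  -- the range
  have hJ1 : Jd p V ⊔ A p (n + 1) ≤ LinearMap.ker (eps p).toLinearMap := by
    refine sup_le (Submodule.span_le.2 ?_) fun x hx => ?_
    · rintro x ⟨a, b, v, hv, rfl⟩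
      have h2 := (mem_A_one p v).1 (hV hv)
      show eps p (a * v * b) = 0
      rw [map_mul, map_mul, h2, mul_zero, zero_mul]
    · exact (mem_A_one p x).1 (A_anti p (by omega) hx)
  let ε : (R p ⧸ (Jd p V ⊔ A p (n + 1))) →ₗ[ZMod p] ZMod p := Submodule.liftQ _ (eps p).toLinearMap hJ1
  have hrange : finrank (ZMod p) (LinearMap.range Φ) + 1 ≤ bb p V (n + 1) := by
    have h1 : LinearMap.range Φ ≤ LinearMap.ker ε := by
      rintro _ ⟨⟨x, y⟩, rfl⟩
      obtain ⟨x, rfl⟩ := Submodule.mkQ_surjective _ x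
      obtain ⟨y, rfl⟩ := Submodule.mkQ_surjective _ y
      rw [LinearMap.mem_ker]
      show (eps p) (x * X p false + y * X p true) = 0
      rw [map_add, map_mul, map_mul, (mem_A_one p _).1 (hX false), (mem_A_one p _).1 (hX true), mul_zero, mul_zero, add_zero]
    have h2 : LinearMap.ker ε < ⊤ := by
      rw [lt_top_iff_ne_top]
      intro h3
      have h4 : ε (Submodule.Quotient.mk 1) = 0 := by
        rw [← LinearMap.mem_ker, h3]
        exact Submodule.mem_top
      have h5 : eps p 1 = 0 := h4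
      rw [map_one] at h5
      exact one_ne_zero h5
    have h3 := Submodule.finrank_mono h1
    have h4 := Submodule.finrank_lt h2.ne
    unfold bb
    omega
  -- the kernel
  have hker : finrank (ZMod p) (LinearMap.ker Φ) ≤ ∑ m ∈ Finset.Icc 1 n, (B m).card * bb p V (n + 1 - m) := by
    let π : R p × R p →ₗ[ZMod p] (R p ⧸ (Jd p V ⊔ A p n)) × (R p ⧸ (Jd p V ⊔ A p n)) :=
      LinearMap.prodMap (Submodule.mkQ _) (Submodule.mkQ _)
    have h1 : LinearMap.ker Φ ≤ ⨆ m ∈ Finset.Icc 1 n, ⨆ v ∈ B m,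
        (LinearMap.range (pr p (D false v) (D true v))).map π := by
      rintro ⟨x, y⟩ hxy
      obtain ⟨x, rfl⟩ := Submodule.mkQ_surjective _ x
      obtain ⟨y, rfl⟩ := Submodule.mkQ_surjective _ y
      have h2 : x * X p false + y * X p true ∈ Jd p V ⊔ A p (n + 1) := by
        rw [← Submodule.Quotient.mk_eq_zero]
        exact hxy
      have h3 := gs_ker p D hD V hV B hB hs n _ h2
      have h4 : (D false (x * X p false + y * X p true), D true (x * X p false + y * X p true)) = (x, y) := by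
        simp [map_add, hD.mulX]
      rw [h4] at h3
      have h5 := Submodule.mem_map_of_mem (f := π) h3
      rw [Submodule.map_sup] at h5
      have h6 : (Submodule.prod (Jd p V ⊔ A p n) (Jd p V ⊔ A p n)).map π = ⊥ := by
        rw [eq_bot_iff]
        rintro _ ⟨⟨a, b⟩, hab, rfl⟩
        rw [Submodule.mem_bot]
        exact Prod.ext ((Submodule.Quotient.mk_eq_zero _).2 hab.1) ((Submodule.Quotient.mk_eq_zero _).2 hab.2)
      rw [h6, bot_sup_eq] at h5
      have h7 : π (x, y) = ((Jd p V ⊔ A p n).mkQ x, (Jd p V ⊔ A p n).mkQ y) := rfl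
      rw [h7] at h5
      simpa only [Submodule.map_iSup] using h5
    have h2 : ∀ m ∈ Finset.Icc 1 n, ∀ v ∈ B m,
        finrank (ZMod p) ((LinearMap.range (pr p (D false v) (D true v))).map π) ≤ bb p V (n + 1 - m) := by
      intro m hm v hv
      rw [Finset.mem_Icc] at hm
      have hDv : ∀ b, D b v ∈ A p (m - 1) := fun b => hD.mem b (m - 1) v (by
        rw [Nat.sub_add_cancel hm.1]
        exact (hB m v hv).2)
      have hle : n ≤ (n + 1 - m) + (m - 1) := by omega
      let ψ : (R p ⧸ (Jd p V ⊔ A p (n + 1 - m))) →ₗ[ZMod p] (R p ⧸ (Jd p V ⊔ A p n)) × (R p ⧸ (Jd p V ⊔ A p n)) :=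
        LinearMap.prod (Submodule.mapQ _ _ (LinearMap.mulRight (ZMod p) (D false v)) (map_le p V hle (hDv false)))
          (Submodule.mapQ _ _ (LinearMap.mulRight (ZMod p) (D true v)) (map_le p V hle (hDv true)))
      have h3 : (LinearMap.range (pr p (D false v) (D true v))).map π ≤ LinearMap.range ψ := by
        rintro _ ⟨_, ⟨s, rfl⟩, rfl⟩
        exact ⟨Submodule.Quotient.mk s, rfl⟩
      exact (Submodule.finrank_mono h3).trans (LinearMap.finrank_range_le ψ)
    refine (Submodule.finrank_mono h1).trans ((fin_iSup _ _).trans (Finset.sum_le_sum fun m hm => ?_))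
    refine (fin_iSup _ _).trans ((Finset.sum_le_sum fun v hv => h2 m hm v hv).trans ?_)
    rw [Finset.sum_const, smul_eq_mul]
  have hrn := LinearMap.finrank_range_add_finrank_ker Φ
  rw [Module.finrank_prod] at hrn
  unfold bb at hrange hker ⊢
  omega

end NLB
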