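import Pool.Agent.Lib.NLB.Spn

/-!
# NLB / GSK: Golod and Shafarevich, the kernel

PROOF IN WORDS. Let `P` be the submodule on the right. The set of `x` with `(D false x, D true x) ∈ P` is a submodule. For `x ∈ A (n+1)`: `D b x ∈ A n` (`IsFox.mem`). For `x = a * v * b`, `v ∈ V`: by `IsFox.mul` twice
`D c (a * v * b) = a * v * D c b + eps b • (a * D c v + eps v • D c a)`, `eps v = 0` (`mem_A_one`, `hV`). The first term is in `Jd V`. So it is enough that `(a * D false v, a * D true v) ∈ P` for all `v ∈ V` and `a`. By `hs`, inductively in `j ≤ n`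
(`V = V ⊓ A 1`): `V ≤ (⨆ m ∈ Icc 1 j, span (B m)) ⊔ (V ⊓ A (j+1))`. For `v ∈ A (n+1)`: `a * D c v ∈ A n` (`mul_mem_A` with `A 0 = ⊤`). For `v ∈ B m`: it is `pr (D false v) (D true v) a`. All is linear in `v`.
-/

set_option autoImplicit false

namespace NLB

open Module

variable (p : ℕ) [Fact p.Prime]

/-- the right-hand side -/
private noncomputable def gkP (D : Bool → (R p →ₗ[ZMod p] R p)) (V : Submodule (ZMod p) (R p)) (B : ℕ → Finset (R p)) (n : ℕ) :
    Submodule (ZMod p) (R p × R p) :=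
  (Submodule.prod (Jd p V ⊔ A p n) (Jd p V ⊔ A p n)) ⊔
    ⨆ m ∈ Finset.Icc 1 n, ⨆ v ∈ B m, LinearMap.range (pr p (D false v) (D true v))

private theorem gk_prod {D : Bool → (R p →ₗ[ZMod p] R p)} {V : Submodule (ZMod p) (R p)} {B : ℕ → Finset (R p)} {n : ℕ} {a b : R p}
    (ha : a ∈ Jd p V ⊔ A p n) (hb : b ∈ Jd p V ⊔ A p n) : (a, b) ∈ gkP p D V B n :=
  Submodule.mem_sup_left ⟨ha, hb⟩

private theorem gk_range {D : Bool → (R p →ₗ[ZMod p] R p)} {V : Submodule (ZMod p) (R p)} {B : ℕ → Finset (R p)} {n m : ℕ}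
    (h1 : 1 ≤ m) (hm : m ≤ n) {v : R p} (hv : v ∈ B m) (a : R p) : (a * D false v, a * D true v) ∈ gkP p D V B n := by
  refine Submodule.mem_sup_right ?_
  have h2 : (a * D false v, a * D true v) ∈ LinearMap.range (pr p (D false v) (D true v)) := ⟨a, rfl⟩
  refine Submodule.mem_iSup_of_mem m (Submodule.mem_iSup_of_mem (Finset.mem_Icc.2 ⟨h1, hm⟩) ?_)
  exact Submodule.mem_iSup_of_mem v (Submodule.mem_iSup_of_mem hv h2)

private theorem gk_left (D : Bool → (R p →ₗ[ZMod p] R p)) (hD : IsFox p D) (V : Submodule (ZMod p) (R p)) (hV : V ≤ A p 1) (B : ℕ → Finset (R p))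
    (hs : ∀ m, 1 ≤ m → V ⊓ A p m ≤ Submodule.span (ZMod p) (B m : Set (R p)) ⊔ (V ⊓ A p (m + 1))) (n : ℕ) (a : R p) (v : R p)
    (hv : v ∈ V) : (a * D false v, a * D true v) ∈ gkP p D V B n := by
  let L : R p →ₗ[ZMod p] R p × R p :=
    ((LinearMap.mulLeft (ZMod p) a).comp (D false)).prod ((LinearMap.mulLeft (ZMod p) a).comp (D true))
  have hL : ∀ w, L w = (a * D false w, a * D true w) := fun w => rfl
  have key : ∀ i, i ≤ n → V ⊓ A p (n + 1 - i) ≤ (gkP p D V B n).comap L := by
    intro i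
    induction i with
    | zero =>
      intro _ w hw
      rw [Submodule.mem_comap, hL]
      have hw2 : w ∈ A p (n + 1) := hw.2
      have h1 : ∀ c, a * D c w ∈ A p n := fun c => by
        have ha : a ∈ A p 0 := Submodule.mem_top
        have := mul_mem_A p ha (hD.mem c n w hw2)
        rwa [zero_add] at this
      exact gk_prod p (Submodule.mem_sup_right (h1 false)) (Submodule.mem_sup_right (h1 true))
    | succ i ih =>
      intro hi
      have e1 : n + 1 - (i + 1) = n - i := by omega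
      have e2 : n - i + 1 = n + 1 - i := by omega
      rw [e1]
      refine (hs (n - i) (by omega)).trans (sup_le ?_ ?_)
      · rw [Submodule.span_le]
        intro w hw
        have h2 := gk_range p (D := D) (V := V) (B := B) (n := n) (m := n - i) (by omega) (by omega) hw a
        exact h2
      · rw [e2]
        exact ih (by omega)
  have h := key n le_rfl
  have e3 : n + 1 - n = 1 := by omega
  rw [e3] at h
  exact h ⟨hv, hV hv⟩

theorem gs_ker (D : Bool → (R p →ₗ[ZMod p] R p)) (hD : IsFox p D) (V : Submodule (ZMod p) (R p)) (hV : V ≤ A p 1) (B : ℕ → Finset (R p))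
    (hB : ∀ m, ∀ v ∈ B m, v ∈ V ∧ v ∈ A p m)
    (hs : ∀ m, 1 ≤ m → V ⊓ A p m ≤ Submodule.span (ZMod p) (B m : Set (R p)) ⊔ (V ⊓ A p (m + 1))) (n : ℕ) (x : R p)
    (hx : x ∈ Jd p V ⊔ A p (n + 1)) :
    (D false x, D true x) ∈ (Submodule.prod (Jd p V ⊔ A p n) (Jd p V ⊔ A p n)) ⊔
      ⨆ m ∈ Finset.Icc 1 n, ⨆ v ∈ B m, LinearMap.range (pr p (D false v) (D true v)) := by
  let DD : R p →ₗ[ZMod p] R p × R p := (D false).prod (D true)
  have hDD : ∀ w, DD w = (D false w, D true w) := fun w => rfl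
  have hle : Jd p V ⊔ A p (n + 1) ≤ (gkP p D V B n).comap DD := by
    refine sup_le ?_ ?_
    · unfold Jd
      rw [Submodule.span_le]
      rintro _ ⟨a, b, v, hv, rfl⟩
      have hev : eps p v = 0 := (mem_A_one p v).1 (hV hv)
      have h1 : ∀ c, D c (a * v * b) = a * v * D c b + eps p b • (a * D c v) := fun c => by
        rw [hD.mul, hD.mul, hev, zero_smul, add_zero]
      have h2 : DD (a * v * b) = (a * v * D false b, a * v * D true b) + eps p b • (a * D false v, a * D true v) := by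
        rw [hDD, h1, h1]
        rfl
      have h3 : ∀ c, a * v * D c b ∈ Jd p V ⊔ A p n := fun c =>
        Submodule.mem_sup_left (Submodule.subset_span ⟨a, D c b, v, hv, rfl⟩)
      show DD (a * v * b) ∈ gkP p D V B n
      rw [h2]
      exact Submodule.add_mem _ (gk_prod p (h3 false) (h3 true)) (Submodule.smul_mem _ _ (gk_left p D hD V hV B hs n a v hv))
    · intro w hw
      rw [Submodule.mem_comap, hDD]
      exact gk_prod p (Submodule.mem_sup_right (hD.mem false n w hw)) (Submodule.mem_sup_right (hD.mem true n w hw))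
  exact hle hx

end NLB
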