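import Pool.Agent.Lib.NLB.Inf

/-!
# NLB / Gcu: Golod and Shafarevich for spaces of relators of infinite dimension
-/

set_option autoImplicit false

namespace NLB

open Module

variable (p : ℕ) [Fact p.Prime]

/-- `B m` lies in `A m`, and the `B m`, `1 ≤ m ≤ n`, generate `V` modulo `A (n+1)` -/
structure Gen (V : Submodule (ZMod p) (R p)) (B : ℕ → Finset (R p)) : Prop where
  mem : ∀ m, ∀ v ∈ B m, v ∈ A p m
  le : ∀ n, V ≤ (⨆ m ∈ Finset.Icc 1 n, Submodule.span (ZMod p) (B m : Set (R p))) ⊔ A p (n + 1)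

private noncomputable def gkP (D : Bool → (R p →ₗ[ZMod p] R p)) (V : Submodule (ZMod p) (R p)) (B : ℕ → Finset (R p)) (n : ℕ) :
    Submodule (ZMod p) (R p × R p) :=
  (Submodule.prod (Jd p V ⊔ A p n) (Jd p V ⊔ A p n)) ⊔
    ⨆ m ∈ Finset.Icc 1 n, ⨆ v ∈ B m, LinearMap.range (pr p (D false v) (D true v))

private theorem gk_prod {D : Bool → (R p →ₗ[ZMod p] R p)} {V : Submodule (ZMod p) (R p)} {B : ℕ → Finset (R p)} {n : ℕ} {a b : R p}
    (ha : a ∈ Jd p V ⊔ A p n) (hb : b ∈ Jd p V ⊔ A p n) : (a, b) ∈ gkP p D V B n :=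
  Submodule.mem_sup_left ⟨ha, hb⟩

private theorem gk_range {D : Bool → (R p →ₗ[ZMod p] R p)} {V : Submodule (ZMod p) (R p)} {B : ℕ → Finset (R p)} {n m : ℕ}
    (hm : m ∈ Finset.Icc 1 n) {v : R p} (hv : v ∈ B m) (a : R p) : (a * D false v, a * D true v) ∈ gkP p D V B n := by
  refine Submodule.mem_sup_right ?_
  have h2 : (a * D false v, a * D true v) ∈ LinearMap.range (pr p (D false v) (D true v)) := ⟨a, rfl⟩
  refine Submodule.mem_iSup_of_mem m (Submodule.mem_iSup_of_mem hm ?_)
  exact Submodule.mem_iSup_of_mem v (Submodule.mem_iSup_of_mem hv h2)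

private theorem gk_left (D : Bool → (R p →ₗ[ZMod p] R p)) (hD : IsFox p D) (V : Submodule (ZMod p) (R p)) (B : ℕ → Finset (R p))
    (hB : Gen p V B) (n : ℕ) (a : R p) (v : R p) (hv : v ∈ V) : (a * D false v, a * D true v) ∈ gkP p D V B n := by
  let L : R p →ₗ[ZMod p] R p × R p :=
    ((LinearMap.mulLeft (ZMod p) a).comp (D false)).prod ((LinearMap.mulLeft (ZMod p) a).comp (D true))
  have hL : ∀ w, L w = (a * D false w, a * D true w) := fun w => rfl
  have key : (⨆ m ∈ Finset.Icc 1 n, Submodule.span (ZMod p) (B m : Set (R p))) ⊔ A p (n + 1) ≤ (gkP p D V B n).comap L := by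
    refine sup_le (iSup₂_le fun m hm => Submodule.span_le.2 fun w hw => ?_) fun w hw => ?_
    · exact gk_range p hm hw a
    · rw [Submodule.mem_comap, hL]
      have h1 : ∀ c, a * D c w ∈ A p n := fun c => by
        have ha : a ∈ A p 0 := Submodule.mem_top
        have := mul_mem_A p ha (hD.mem c n w hw)
        rwa [zero_add] at this
      exact gk_prod p (Submodule.mem_sup_right (h1 false)) (Submodule.mem_sup_right (h1 true))
  exact key (hB.le n hv)

theorem gs_ker_cu (D : Bool → (R p →ₗ[ZMod p] R p)) (hD : IsFox p D) (V : Submodule (ZMod p) (R p)) (hV : V ≤ A p 1)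
    (B : ℕ → Finset (R p)) (hB : Gen p V B) (n : ℕ) (x : R p) (hx : x ∈ Jd p V ⊔ A p (n + 1)) :
    (D false x, D true x) ∈ (Submodule.prod (Jd p V ⊔ A p n) (Jd p V ⊔ A p n)) ⊔
      ⨆ m ∈ Finset.Icc 1 n, ⨆ v ∈ B m, LinearMap.range (pr p (D false v) (D true v)) := by
  let DD : R p →ₗ[ZMod p] R p × R p := (D false).prod (D true)
  have hDD : ∀ w, DD w = (D false w, D true w) := fun w => rfl
  have hle : Jd p V ⊔ A p (n + 1) ≤ (gkP p D V B n).comap DD := by
    refine sup_le ?_ ?_
    · unfold Jd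
      rw [Submodule.span_le]
      rintro _ ⟨a, b, v, hv, rfl⟩
      have hev : eps p v = 0 := (mem_A_one p v).1 (hV hv)
      have h1 : ∀ c, D c (a * v * b) = a * v * D c b + eps p b • (a * D c v) := fun c => by
        rw [hD.mul, hD.mul, hev, zero_smul, add_zero]
      have h2 : DD (a * v * b) = (a * v * D false b, a * v * D true b) + eps p b • (a * D false v, a * D true v) := by
        rw [hDD, h1, h1]
        rfl
      have h3 : ∀ c, a * v * D c b ∈ Jd p V ⊔ A p n := fun c =>
        Submodule.mem_sup_left (Submodule.subset_span ⟨a, D c b, v, hv, rfl⟩)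
      show DD (a * v * b) ∈ gkP p D V B n
      rw [h2]
      exact Submodule.add_mem _ (gk_prod p (h3 false) (h3 true)) (Submodule.smul_mem _ _ (gk_left p D hD V B hB n a v hv))
    · intro w hw
      rw [Submodule.mem_comap, hDD]
      exact gk_prod p (Submodule.mem_sup_right (hD.mem false n w hw)) (Submodule.mem_sup_right (hD.mem true n w hw))
  exact hle hx

private theorem J_right (V : Submodule (ZMod p) (R p)) (b : R p) {x : R p} (hx : x ∈ Jd p V) : x * b ∈ Jd p V := by
  induction hx using Submodule.span_induction with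
  | mem x hx =>
    obtain ⟨a, b', v, hv, rfl⟩ := hx
    exact Submodule.subset_span ⟨a, b' * b, v, hv, by simp only [mul_assoc]⟩
  | zero => rw [zero_mul]; exact Submodule.zero_mem _
  | add x y _ _ hx hy => rw [add_mul]; exact Submodule.add_mem _ hx hy
  | smul c x _ hx => rw [smul_mul_assoc]; exact Submodule.smul_mem _ _ hx

private theorem map_le (V : Submodule (ZMod p) (R p)) {i j k : ℕ} (h : k ≤ i + j) {a : R p} (ha : a ∈ A p j) :
    Jd p V ⊔ A p i ≤ (Jd p V ⊔ A p k).comap (LinearMap.mulRight (ZMod p) a) := by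
  refine sup_le (fun x hx => ?_) fun x hx => ?_
  · exact Submodule.mem_sup_left (J_right p V a hx)
  · exact Submodule.mem_sup_right (A_anti p h (mul_mem_A p hx ha))

private theorem fin_iSup {K M ι : Type} [Field K] [AddCommGroup M] [Module K M] [FiniteDimensional K M] (s : Finset ι)
    (f : ι → Submodule K M) : finrank K (⨆ i ∈ s, f i : Submodule K M) ≤ ∑ i ∈ s, finrank K (f i) := by
  classical
  induction s using Finset.induction_on with
  | empty => simp
  | insert i s hi ih =>
    rw [Finset.iSup_insert, Finset.sum_insert hi]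
    exact (Submodule.finrank_add_le_finrank_add_finrank _ _).trans (Nat.add_le_add_left ih _)

theorem gs_ineq_cu (V : Submodule (ZMod p) (R p)) (hV : V ≤ A p 1) (B : ℕ → Finset (R p)) (hB : Gen p V B) (n : ℕ) :
    1 + 2 * bb p V n ≤ bb p V (n + 1) + ∑ m ∈ Finset.Icc 1 n, (B m).card * bb p V (n + 1 - m) := by
  classical
  obtain ⟨D, hD⟩ := fox p
  have hfd : ∀ i, FiniteDimensional (ZMod p) (R p ⧸ (Jd p V ⊔ A p i)) := by
    intro i
    have := fin_A p i
    exact Module.Finite.of_surjective (Submodule.factor (le_sup_right : A p i ≤ Jd p V ⊔ A p i))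
      (Submodule.factor_surjective _)
  have hX : ∀ b, X p b ∈ A p 1 := fun b => u_sub_one_mem p _
  let φ : Bool → (R p ⧸ (Jd p V ⊔ A p n)) →ₗ[ZMod p] (R p ⧸ (Jd p V ⊔ A p (n + 1))) := fun b =>
    Submodule.mapQ _ _ (LinearMap.mulRight (ZMod p) (X p b)) (map_le p V le_rfl (hX b))
  let Φ := (φ false).coprod (φ true)
  have hJ1 : Jd p V ⊔ A p (n + 1) ≤ LinearMap.ker (eps p).toLinearMap := by
    refine sup_le (Submodule.span_le.2 ?_) fun x hx => ?_
    · rintro x ⟨a, b, v, hv, rfl⟩
      have h2 := (mem_A_one p v).1 (hV hv)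
      show eps p (a * v * b) = 0
      rw [map_mul, map_mul, h2, mul_zero, zero_mul]
    · exact (mem_A_one p x).1 (A_anti p (by omega) hx)
  let ε : (R p ⧸ (Jd p V ⊔ A p (n + 1))) →ₗ[ZMod p] ZMod p := Submodule.liftQ _ (eps p).toLinearMap hJ1
  have hrange : finrank (ZMod p) (LinearMap.range Φ) + 1 ≤ bb p V (n + 1) := by
    have h1 : LinearMap.range Φ ≤ LinearMap.ker ε := by
      rintro _ ⟨⟨x, y⟩, rfl⟩
      obtain ⟨x, rfl⟩ := Submodule.mkQ_surjective _ x
      obtain ⟨y, rfl⟩ := Submodule.mkQ_surjective _ y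
      rw [LinearMap.mem_ker]
      show (eps p) (x * X p false + y * X p true) = 0
      rw [map_add, map_mul, map_mul, (mem_A_one p _).1 (hX false), (mem_A_one p _).1 (hX true), mul_zero, mul_zero, add_zero]
    have h2 : LinearMap.ker ε < ⊤ := by
      rw [lt_top_iff_ne_top]
      intro h3
      have h4 : ε (Submodule.Quotient.mk 1) = 0 := by
        rw [← LinearMap.mem_ker, h3]
        exact Submodule.mem_top
      have h5 : eps p 1 = 0 := h4
      rw [map_one] at h5
      exact one_ne_zero h5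
    have h3 := Submodule.finrank_mono h1
    have h4 := Submodule.finrank_lt h2.ne
    unfold bb
    omega
  have hker : finrank (ZMod p) (LinearMap.ker Φ) ≤ ∑ m ∈ Finset.Icc 1 n, (B m).card * bb p V (n + 1 - m) := by
    let π : R p × R p →ₗ[ZMod p] (R p ⧸ (Jd p V ⊔ A p n)) × (R p ⧸ (Jd p V ⊔ A p n)) :=
      LinearMap.prodMap (Submodule.mkQ _) (Submodule.mkQ _)
    have h1 : LinearMap.ker Φ ≤ ⨆ m ∈ Finset.Icc 1 n, ⨆ v ∈ B m,
        (LinearMap.range (pr p (D false v) (D true v))).map π := by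
      rintro ⟨x, y⟩ hxy
      obtain ⟨x, rfl⟩ := Submodule.mkQ_surjective _ x
      obtain ⟨y, rfl⟩ := Submodule.mkQ_surjective _ y
      have h2 : x * X p false + y * X p true ∈ Jd p V ⊔ A p (n + 1) := by
        rw [← Submodule.Quotient.mk_eq_zero]
        exact hxy
      have h3 := gs_ker_cu p D hD V hV B hB n _ h2
      have h4 : (D false (x * X p false + y * X p true), D true (x * X p false + y * X p true)) = (x, y) := by
        simp [map_add, hD.mulX]
      rw [h4] at h3
      have h5 := Submodule.mem_map_of_mem (f := π) h3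
      rw [Submodule.map_sup] at h5
      have h6 : (Submodule.prod (Jd p V ⊔ A p n) (Jd p V ⊔ A p n)).map π = ⊥ := by
        rw [eq_bot_iff]
        rintro _ ⟨⟨a, b⟩, hab, rfl⟩
        rw [Submodule.mem_bot]
        exact Prod.ext ((Submodule.Quotient.mk_eq_zero _).2 hab.1) ((Submodule.Quotient.mk_eq_zero _).2 hab.2)
      rw [h6, bot_sup_eq] at h5
      have h7 : π (x, y) = ((Jd p V ⊔ A p n).mkQ x, (Jd p V ⊔ A p n).mkQ y) := rfl
      rw [h7] at h5
      simpa only [Submodule.map_iSup] using h5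
    have h2 : ∀ m ∈ Finset.Icc 1 n, ∀ v ∈ B m,
        finrank (ZMod p) ((LinearMap.range (pr p (D false v) (D true v))).map π) ≤ bb p V (n + 1 - m) := by
      intro m hm v hv
      rw [Finset.mem_Icc] at hm
      have hDv : ∀ b, D b v ∈ A p (m - 1) := fun b => hD.mem b (m - 1) v (by
        rw [Nat.sub_add_cancel hm.1]
        exact hB.mem m v hv)
      have hle : n ≤ (n + 1 - m) + (m - 1) := by omega
      let ψ : (R p ⧸ (Jd p V ⊔ A p (n + 1 - m))) →ₗ[ZMod p] (R p ⧸ (Jd p V ⊔ A p n)) × (R p ⧸ (Jd p V ⊔ A p n)) :=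
        LinearMap.prod (Submodule.mapQ _ _ (LinearMap.mulRight (ZMod p) (D false v)) (map_le p V hle (hDv false)))
          (Submodule.mapQ _ _ (LinearMap.mulRight (ZMod p) (D true v)) (map_le p V hle (hDv true)))
      have h3 : (LinearMap.range (pr p (D false v) (D true v))).map π ≤ LinearMap.range ψ := by
        rintro _ ⟨_, ⟨s, rfl⟩, rfl⟩
        exact ⟨Submodule.Quotient.mk s, rfl⟩
      exact (Submodule.finrank_mono h3).trans (LinearMap.finrank_range_le ψ)
    refine (Submodule.finrank_mono h1).trans ((fin_iSup _ _).trans (Finset.sum_le_sum fun m hm => ?_))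
    refine (fin_iSup _ _).trans ((Finset.sum_le_sum fun v hv => h2 m hm v hv).trans ?_)
    rw [Finset.sum_const, smul_eq_mul]
  have hrn := LinearMap.finrank_range_add_finrank_ker Φ
  rw [Module.finrank_prod] at hrn
  unfold bb at hrange hker ⊢
  omega

theorem gs_cu (V : Submodule (ZMod p) (R p)) (hV : V ≤ A p 1) (B : ℕ → Finset (R p)) (hB : Gen p V B) (t : ℝ) (ht : 0 < t)
    (ht1 : t ≤ 1) (h : ∀ M, ∑ m ∈ Finset.Icc 1 M, ((B m).card : ℝ) * t ^ m ≤ 2 * t - 1) (n : ℕ) :
    (1 / t) ^ n ≤ (bb p V (n + 1) : ℝ) :=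
  growth (bb p V) (fun m => (B m).card) t ht ht1 (one_le_bb p V hV) (gs_ineq_cu p V hV B hB) h n

/-- adapted generators of a space of finite dimension -/
theorem exists_gen (V : Submodule (ZMod p) (R p)) [FiniteDimensional (ZMod p) V] (hV : V ≤ A p 1) (r : ℕ → ℕ)
    (hr : ∀ m, finrank (ZMod p) (V ⊓ A p m : Submodule (ZMod p) (R p)) =
      finrank (ZMod p) (V ⊓ A p (m + 1) : Submodule (ZMod p) (R p)) + r m) :
    ∃ B : ℕ → Finset (R p), Gen p V B ∧ ∀ m, (B m).card = r m := by
  have hfd : ∀ m, FiniteDimensional (ZMod p) (V ⊓ A p m : Submodule (ZMod p) (R p)) := fun m =>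
    Submodule.finiteDimensional_of_le inf_le_left
  choose B hB hc hs using fun m => exists_B (V ⊓ A p m) (V ⊓ A p (m + 1)) (inf_le_inf_left V (A_anti p (Nat.le_add_right m 1)))
  refine ⟨B, ⟨fun m v hv => (hB m v hv).2, fun n => ?_⟩, fun m => ?_⟩
  · have key : V ≤ (⨆ m ∈ Finset.Icc 1 n, Submodule.span (ZMod p) (B m : Set (R p))) ⊔ (V ⊓ A p (n + 1)) := by
      induction n with
      | zero =>
        refine le_trans ?_ le_sup_right
        exact le_inf le_rfl hV
      | succ n ih =>
        refine ih.trans (sup_le ?_ ?_)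
        · refine le_trans ?_ le_sup_left
          refine iSup₂_le fun m hm => ?_
          rw [Finset.mem_Icc] at hm
          exact le_iSup₂_of_le m (Finset.mem_Icc.2 ⟨hm.1, by omega⟩) le_rfl
        · refine (hs (n + 1)).trans (sup_le_sup ?_ le_rfl)
          exact le_iSup₂_of_le (n + 1) (Finset.mem_Icc.2 ⟨by omega, le_rfl⟩) le_rfl
    exact key.trans (sup_le_sup le_rfl inf_le_right)
  · have h1 := hc m
    have h2 := hr m
    omega

end NLB
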