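import Pool.Agent.Lib.NLB.GSB
import Pool.Agent.Lib.NLB.GSI
import Pool.Agent.Lib.NLB.GSG

/-!
# NLB / Gsf: the theorem of Golod and Shafarevich in the form used here

PROOF IN WORDS. `B m` from `exists_B` for `U = V ⊓ A m`, `U' = V ⊓ A (m+1)` (`A_anti`); `gs_ineq` and `(B m).card ≤ r m`; `growth` with `f = bb V`; `bb V 1 = 1`: `V ≤ A 1` gives `Jd V ⊔ A 1 = A 1 ≠ ⊤`, so the quotient is not trivial (`finrank_pos`).
-/

set_option autoImplicit false

namespace NLB

open Module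

variable (p : ℕ) [Fact p.Prime]

theorem one_le_bb (V : Submodule (ZMod p) (R p)) (hV : V ≤ A p 1) : 1 ≤ bb p V 1 := by
  have h1 : Jd p V ⊔ A p 1 ≤ A p 1 := by
    refine sup_le (Submodule.span_le.2 ?_) le_rfl
    rintro x ⟨a, b, v, hv, rfl⟩
    have h2 := (mem_A_one p v).1 (hV hv)
    refine (mem_A_one p _).2 ?_
    rw [map_mul, map_mul, h2, mul_zero, zero_mul]
  have : FiniteDimensional (ZMod p) (R p ⧸ A p 1) := fin_A p 1
  have h3 : FiniteDimensional (ZMod p) (R p ⧸ (Jd p V ⊔ A p 1)) :=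
    Module.Finite.of_surjective (Submodule.factor (le_sup_right : A p 1 ≤ Jd p V ⊔ A p 1))
      (Submodule.factor_surjective _)
  have h4 : Nontrivial (R p ⧸ (Jd p V ⊔ A p 1)) := by
    rw [Submodule.Quotient.nontrivial_iff]
    intro h5
    have h6 : (1 : R p) ∈ A p 1 := h1 (h5 ▸ Submodule.mem_top)
    rw [mem_A_one, map_one] at h6
    exact one_ne_zero h6
  exact Module.finrank_pos

theorem gs (V : Submodule (ZMod p) (R p)) [FiniteDimensional (ZMod p) V] (hV : V ≤ A p 1) (t : ℝ) (ht : 0 < t) (ht1 : t ≤ 1)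
    (r : ℕ → ℕ) (hr : ∀ m, finrank (ZMod p) (V ⊓ A p m : Submodule (ZMod p) (R p)) ≤
      finrank (ZMod p) (V ⊓ A p (m + 1) : Submodule (ZMod p) (R p)) + r m)
    (h : ∀ M, ∑ m ∈ Finset.Icc 1 M, (r m : ℝ) * t ^ m ≤ 2 * t - 1) (n : ℕ) : (1 / t) ^ n ≤ (bb p V (n + 1) : ℝ) := by
  have hfd : ∀ m, FiniteDimensional (ZMod p) (V ⊓ A p m : Submodule (ZMod p) (R p)) := fun m =>
    Submodule.finiteDimensional_of_le inf_le_left
  choose B hB hc hs using fun m => exists_B (V ⊓ A p m) (V ⊓ A p (m + 1)) (inf_le_inf_left V (A_anti p (Nat.le_succ m)))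
  have hcr : ∀ m, (B m).card ≤ r m := by
    intro m
    have h1 := hc m
    have h2 := hr m
    omega
  refine growth (bb p V) r t ht ht1 (one_le_bb p V hV) (fun n => ?_) h n
  refine (gs_ineq p V hV B (fun m v hv => ⟨(hB m v hv).1, (hB m v hv).2⟩) (fun m _ => hs m) n).trans ?_
  exact Nat.add_le_add_left (Finset.sum_le_sum fun m _ => Nat.mul_le_mul_right _ (hcr m)) _

end NLB
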