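import Pool.Agent.Lib.NLB.Spn

/-!
# NLB / Hom: the finite p-groups as quotients of the free group

Variant of `Act`: for every `V` and `n` a finite `p`-group with a surjection from the free group which kills each `g` with `g - 1` in `V`.
-/

set_option autoImplicit false

namespace NLB

open Module

variable (p : ℕ) [Fact p.Prime]

private theorem mulQ (V : Submodule (ZMod p) (R p)) (n : ℕ) (c : R p) {x : R p} (hx : x ∈ Jd p V ⊔ A p n) :
    c * x ∈ Jd p V ⊔ A p n := by
  obtain ⟨y, hy, z, hz, rfl⟩ := Submodule.mem_sup.1 hx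
  clear hx
  rw [mul_add]
  refine Submodule.add_mem_sup ?_ ?_
  · induction hy using Submodule.span_induction with
    | mem w hw =>
      obtain ⟨a, b, v, hv, rfl⟩ := hw
      exact Submodule.subset_span ⟨c * a, b, v, hv, by simp only [mul_assoc]⟩
    | zero => rw [mul_zero]; exact Submodule.zero_mem _
    | add w w' _ _ h h' => rw [mul_add]; exact Submodule.add_mem _ h h'
    | smul r w _ h => rw [mul_smul_comm]; exact Submodule.smul_mem _ _ h
  · have := mul_mem_A p (m := 0) (n := n) (a := c) (b := z) (by rw [A]; exact Submodule.mem_top) hz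
    rwa [zero_add] at this

/-- the quotient -/
private abbrev MM (V : Submodule (ZMod p) (R p)) (n : ℕ) : Type := R p ⧸ (Jd p V ⊔ A p n)

private noncomputable def LL (V : Submodule (ZMod p) (R p)) (n : ℕ) : R p →* Module.End (ZMod p) (MM p V n) where
  toFun c := (Jd p V ⊔ A p n).mapQ (Jd p V ⊔ A p n) (LinearMap.mulLeft (ZMod p) c) (fun _ hx => mulQ p V n c hx)
  map_one' := by
    apply Submodule.linearMap_qext
    ext x
    simp
  map_mul' c d := by
    apply Submodule.linearMap_qext
    apply LinearMap.ext
    intro x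
    simp only [LinearMap.comp_apply, Submodule.mkQ_apply, Submodule.mapQ_apply, LinearMap.mulLeft_apply,
      Module.End.mul_apply, mul_assoc]

private theorem LL_mk (V : Submodule (ZMod p) (R p)) (n : ℕ) (c a : R p) :
    LL p V n c (Submodule.Quotient.mk a) = Submodule.Quotient.mk (c * a) := rfl

private noncomputable def uh : F2 →* R p where
  toFun := u p
  map_one' := u_one p
  map_mul' := u_mul p

private noncomputable def rho (V : Submodule (ZMod p) (R p)) (n : ℕ) : F2 →* (Module.End (ZMod p) (MM p V n))ˣ :=
  ((LL p V n).comp (uh p)).toHomUnits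

private theorem rho_val (V : Submodule (ZMod p) (R p)) (n : ℕ) (g : F2) :
    ((rho p V n g : (Module.End (ZMod p) (MM p V n))ˣ) : Module.End (ZMod p) (MM p V n)) = LL p V n (u p g) := rfl

private theorem LL_eq_one (V : Submodule (ZMod p) (R p)) (n : ℕ) (c : R p) (h : ∀ a, (c - 1) * a ∈ Jd p V ⊔ A p n) :
    LL p V n c = 1 := by
  apply LinearMap.ext
  intro x
  induction x using Submodule.Quotient.induction_on with
  | _ a =>
    rw [LL_mk, Module.End.one_apply, Submodule.Quotient.eq]
    have := h a
    rwa [sub_mul, one_mul] at this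

private theorem rho_eq_one (V : Submodule (ZMod p) (R p)) (n : ℕ) (g : F2) (h : ∀ a, (u p g - 1) * a ∈ Jd p V ⊔ A p n) :
    rho p V n g = 1 := by
  apply Units.ext
  rw [rho_val, LL_eq_one p V n _ h]
  rfl

private theorem finM (V : Submodule (ZMod p) (R p)) (n : ℕ) : Module.Finite (ZMod p) (MM p V n) := by
  have : FiniteDimensional (ZMod p) (R p ⧸ A p n) := fin_A p n
  refine Module.Finite.of_surjective (Submodule.factor (le_sup_right : A p n ≤ Jd p V ⊔ A p n)) ?_
  intro x
  induction x using Submodule.Quotient.induction_on with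
  | _ a => exact ⟨Submodule.Quotient.mk a, rfl⟩

theorem act_hom (V : Submodule (ZMod p) (R p)) (n : ℕ) :
    ∃ (G : Type) (_ : Group G) (ρ : F2 →* G), Finite G ∧ IsPGroup p G ∧ Function.Surjective ρ ∧
      (∀ g, u p g - 1 ∈ V → ρ g = 1) ∧ bb p V n ≤ Nat.card G := by
  classical
  have : Module.Finite (ZMod p) (MM p V n) := finM p V n
  have : Finite (MM p V n) := Module.finite_of_finite (ZMod p)
  have : Finite (Module.End (ZMod p) (MM p V n)) :=
    Finite.of_injective (fun f => (f : MM p V n → MM p V n)) DFunLike.coe_injective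
  let ρ := (rho p V n).rangeRestrict
  have hρ : ∀ g, ((ρ g : (rho p V n).range) : (Module.End (ZMod p) (MM p V n))ˣ) = rho p V n g := fun _ => rfl
  have hsur : Function.Surjective ρ := (rho p V n).rangeRestrict_surjective
  have : Finite (rho p V n).range := inferInstance
  refine ⟨(rho p V n).range, inferInstance, ρ, inferInstance, ?_, hsur, ?_, ?_⟩
  · intro g
    obtain ⟨h, rfl⟩ := hsur g
    refine ⟨n, ?_⟩
    rw [← map_pow]
    apply Subtype.ext
    rw [hρ]
    refine rho_eq_one p V n _ fun a => ?_
    have : CharP (R p) p := charP_of_injective_algebraMap (algebraMap (ZMod p) (R p)).injective p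
    have e1 : u p (h ^ p ^ n) - 1 = (u p h - 1) ^ p ^ n := by
      rw [u_pow, sub_pow_char_pow_of_commute _ _ (Commute.one_right _), one_pow]
    rw [e1]
    have h1 := pow_mem_A p (u_sub_one_mem p h) (p ^ n)
    rw [one_mul] at h1
    have h2 : (u p h - 1) ^ p ^ n ∈ A p n :=
      A_anti p (Nat.lt_pow_self (Fact.out : p.Prime).one_lt).le h1
    have h3 := mul_mem_A p (m := n) (n := 0) h2 (b := a) (by rw [A]; exact Submodule.mem_top)
    exact Submodule.mem_sup_right h3
  · intro g hg
    apply Subtype.ext
    rw [hρ]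
    refine rho_eq_one p V n _ fun a => ?_
    exact Submodule.mem_sup_left (Submodule.subset_span ⟨1, a, _, hg, by rw [one_mul]⟩)
  · haveI : Fintype (rho p V n).range := Fintype.ofFinite _
    rw [Nat.card_eq_fintype_card, bb]
    let b : (rho p V n).range → MM p V n := fun g =>
      ((g : (Module.End (ZMod p) (MM p V n))ˣ) : Module.End (ZMod p) (MM p V n)) (Submodule.Quotient.mk 1)
    have hb : Submodule.span (ZMod p) (Set.range b) = ⊤ := by
      have h1 := congrArg (Submodule.map (Jd p V ⊔ A p n).mkQ) (span_u p)
      rw [Submodule.map_top, Submodule.range_mkQ, Submodule.map_span] at h1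
      rw [← h1]
      congr 1
      ext x
      constructor
      · rintro ⟨g, rfl⟩
        obtain ⟨h, rfl⟩ := hsur g
        refine ⟨u p h, ⟨h, rfl⟩, ?_⟩
        show Submodule.Quotient.mk (u p h) = LL p V n (u p h) (Submodule.Quotient.mk 1)
        rw [LL_mk, mul_one]
      · rintro ⟨_, ⟨h, rfl⟩, rfl⟩
        refine ⟨ρ h, ?_⟩
        show LL p V n (u p h) (Submodule.Quotient.mk 1) = Submodule.Quotient.mk (u p h)
        rw [LL_mk, mul_one]
    have h2 := finrank_range_le_card (R := ZMod p) b
    rw [Set.finrank, hb, finrank_top] at h2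
    exact h2

end NLB
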