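import Pool.Agent.Lib.NLB.Fin

/-!
# NLB / Inf: an infinite residually finite group (captain)
-/

set_option autoImplicit false

namespace NLB

/-- from finite `p`-groups of unbounded order to an infinite group which is residually a finite `p`-group -/
theorem infinite_of_unbounded (p k n N : ℕ)
    (h : ∀ B : ℕ, ∃ (G : Type) (_ : Group G) (S : Finset G), Finite G ∧ IsPGroup p G ∧ S.card = k ∧
      Subgroup.closure (S : Set G) = ⊤ ∧ Cond N n S ∧ B < Nat.card G) :
    ∃ (H : Type) (_ : Group H) (S : Finset H), Infinite H ∧ S.card = k ∧ Subgroup.closure (S : Set H) = ⊤ ∧ Cond N n S ∧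
      ∀ x : H, x ≠ 1 → ∃ (Q : Type) (_ : Group Q) (f : H →* Q), Finite Q ∧ IsPGroup p Q ∧ f x ≠ 1 := by
  classical
  choose G hG S hfin hp hc hcl hC hB using h
  have e : ∀ B, Nonempty (Fin k ≃ S B) := fun B => ⟨(Fintype.equivFinOfCardEq (by rw [Fintype.card_coe, hc B])).symm⟩
  let e' : ∀ B, Fin k ≃ S B := fun B => (e B).some
  let d : Fin k → ∀ B, G B := fun i B => (e' B i : G B)
  have hd : Function.Injective d := by
    intro i j hij
    have h1 : ((e' 0 i : S 0) : G 0) = (e' 0 j : S 0) := congrFun hij 0
    exact (e' 0).injective (Subtype.ext h1)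
  let K : Subgroup (∀ B, G B) := Subgroup.closure (Set.range d)
  let d' : Fin k → K := fun i => ⟨d i, Subgroup.subset_closure ⟨i, rfl⟩⟩
  have hd' : Function.Injective d' := fun i j hij => hd (congrArg Subtype.val hij)
  let T : Finset K := Finset.univ.image d'
  let pj : ∀ B, K →* G B := fun B => (Pi.evalMonoidHom G B).comp K.subtype
  have hpj : ∀ B i, pj B (d' i) = (e' B i : G B) := fun B i => rfl
  have hsurj : ∀ B, Function.Surjective (pj B) := by
    intro B
    rw [← MonoidHom.range_eq_top, eq_top_iff, ← hcl B, Subgroup.closure_le]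
    intro x hx
    obtain ⟨i, hi⟩ := (e' B).surjective ⟨x, hx⟩
    exact ⟨d' i, by rw [hpj, hi]⟩
  refine ⟨K, inferInstance, T, ?_, ?_, ?_, ?_, ?_⟩
  · by_contra hK
    rw [not_infinite_iff_finite] at hK
    have h1 := Nat.card_le_card_of_surjective _ (hsurj (Nat.card K))
    have h2 := hB (Nat.card K)
    omega
  · rw [Finset.card_image_of_injective _ hd', Finset.card_univ, Fintype.card_fin]
  · have h1 : (T : Set K) = K.subtype ⁻¹' (Set.range d) := by
      ext x
      simp only [T, Finset.coe_image, Finset.coe_univ, Set.image_univ, Set.mem_preimage, Set.mem_range]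
      constructor
      · rintro ⟨i, rfl⟩
        exact ⟨i, rfl⟩
      · rintro ⟨i, hi⟩
        exact ⟨i, Subtype.ext hi⟩
    rw [h1]
    exact Subgroup.closure_preimage_eq_top _
  · intro l hl hx
    apply Subtype.ext
    funext B
    have h1 : pj B (l.prod ^ n) = 1 := by
      rw [map_pow, map_list_prod]
      refine hC B _ (by rw [List.length_map, hl]) fun y hy => ?_
      obtain ⟨x, hx1, rfl⟩ := List.mem_map.1 hy
      rcases hx x hx1 with h2 | h2
      · left
        obtain ⟨i, _, rfl⟩ := Finset.mem_image.1 h2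
        rw [hpj]
        exact (e' B i).2
      · right
        rw [h2, map_one]
    exact h1
  · intro x hx
    have h1 : ∃ B, pj B x ≠ 1 := by
      by_contra hcon
      push Not at hcon
      exact hx (Subtype.ext (funext fun B => hcon B))
    obtain ⟨B, hB'⟩ := h1
    exact ⟨G B, hG B, pj B, hfin B, hp B, hB'⟩

end NLB
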