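import Pool.Agent.Lib.NLB.Defs

/-!
# NLB / Vl: values of binary words

PROOF IN WORDS. `val_append`: induction on `w` from the right or `List.foldl_append` and a general accumulator lemma `foldl _ a w = a * 2^|w| + val w`. `val_lt`, `val_inj` by induction on the length (`val (w ++ [b]) = 2 val w + b`).
`val_blk`: `val (replicate i false) = 0`. `seg_cmp`: a segment `w` with `Seg i w` starts with `i` letters `false`: `w = replicate i false ++ w'` (induction), so `val (w ++ blk j) = val (w' ++ blk j) < 2^(|w| - i + j + 1) ≤ 2^|w|`
(as `j + 1 ≤ i`), while `val (blk j ++ w) = val (blk j) * 2^|w| + val w ≥ 2^|w|`.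
-/

set_option autoImplicit false

namespace NLB

private theorem vl_acc (w : List Bool) (a : ℕ) :
    w.foldl (fun a b => 2 * a + (if b then 1 else 0)) a = a * 2 ^ w.length + val w := by
  induction w generalizing a with
  | nil => simp [val]
  | cons b w ih =>
    have h1 := ih (2 * a + (if b then 1 else 0))
    have h2 := ih (2 * 0 + (if b then 1 else 0))
    have h3 : val (b :: w) = w.foldl (fun a b => 2 * a + (if b then 1 else 0)) (2 * 0 + (if b then 1 else 0)) := rfl
    rw [List.foldl_cons, h1, h3, h2, List.length_cons, pow_succ]
    ring

theorem val_append (v w : List Bool) : val (v ++ w) = val v * 2 ^ w.length + val w := by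
  have h : val (v ++ w) = w.foldl (fun a b => 2 * a + (if b then 1 else 0)) (val v) := by
    unfold val
    rw [List.foldl_append]
  rw [h, vl_acc]

private theorem vl_cons (b : Bool) (w : List Bool) :
    val (b :: w) = (if b then 1 else 0) * 2 ^ w.length + val w := by
  have h := val_append [b] w
  have h1 : val [b] = if b then 1 else 0 := by
    simp [val]
  rw [h1] at h
  exact h

theorem val_lt (w : List Bool) : val w < 2 ^ w.length := by
  induction w with
  | nil => simp [val]
  | cons b w ih =>
    rw [vl_cons, List.length_cons, pow_succ]
    split_ifs <;> omega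

theorem val_inj {v w : List Bool} (h : v.length = w.length) (h' : val v = val w) : v = w := by
  induction v generalizing w with
  | nil =>
    cases w with
    | nil => rfl
    | cons c w => simp at h
  | cons b v ih =>
    cases w with
    | nil => simp at h
    | cons c w =>
      have hl : v.length = w.length := by simpa using h
      rw [vl_cons, vl_cons, hl] at h'
      have h1 := val_lt v
      have h2 := val_lt w
      rw [hl] at h1
      cases b <;> cases c <;> simp only [Bool.false_eq_true, if_true, if_false, zero_mul, one_mul, zero_add] at h'
      · rw [ih hl h']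
      · omega
      · omega
      · rw [ih hl (by omega)]

private theorem vl_rep (i : ℕ) : val (List.replicate i false) = 0 := by
  induction i with
  | zero => rfl
  | succ i ih =>
    rw [List.replicate_succ, vl_cons, ih]
    simp

theorem val_blk (i : ℕ) : val (blk i) = 1 := by
  unfold blk
  rw [val_append, vl_rep]
  simp [val]

private theorem vl_seg {i : ℕ} {w : List Bool} (h : Seg i w) : ∃ w', w = List.replicate i false ++ w' := by
  induction h with
  | one => exact ⟨[true], rfl⟩
  | app h hj ih =>
    obtain ⟨w', rfl⟩ := ih
    exact ⟨w' ++ blk _, by rw [List.append_assoc]⟩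

theorem seg_cmp {i j : ℕ} {w : List Bool} (h : Seg i w) (hj : j < i) : val (w ++ blk j) < val (blk j ++ w) := by
  have h1 : 2 ^ w.length ≤ val (blk j ++ w) := by
    rw [val_append, val_blk]
    omega
  obtain ⟨w', hw⟩ := vl_seg h
  have h2 : val (w ++ blk j) = val (w' ++ blk j) := by
    rw [hw, List.append_assoc, val_append, vl_rep]
    simp
  have h3 := val_lt (w' ++ blk j)
  have h4 : (w' ++ blk j).length ≤ w.length := by
    rw [hw]
    simp only [blk, List.length_append, List.length_replicate, List.length_cons, List.length_nil]
    omega
  have h5 : 2 ^ (w' ++ blk j).length ≤ 2 ^ w.length := Nat.pow_le_pow_right (by norm_num) h4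
  omega

end NLB
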