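import Pool.Agent.Lib.NLB.Aug
import Pool.Agent.Lib.NLB.Vl

/-!
# NLB / Ldm: leading words of products

PROOF IN WORDS. Let `E w = span {mon v | |v| = |w|, val w ≤ val v}`, so `x - mon w ∈ hi w` implies `x ∈ E w ⊔ A (|w|+1)`. `mon v' * mon w' = mon (v' ++ w')`, `val (v' ++ w') = val v' * 2^|w| + val w'` (`val_append`), so for
`val v ≤ val v'`, `val w ≤ val w'` the value is `≥ val (v ++ w)`, and `>` if one of the two inequalities is strict (`val_lt`). Write `x = mon v + x₁`, `y = mon w + y₁`, `x₁ ∈ hi v`, `y₁ ∈ hi w`: `x y - mon (v ++ w) = mon v * y₁ + x₁ * y`;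
`x₁ = x₂ + x₃` with `x₂` in the span of bigger monomials and `x₃ ∈ A (|v|+1)`, and so on; terms with a factor in `A (.. + 1)` are in `A (|v|+|w|+1)` (`mul_mem_A`, `mon_mem`). `hi_le`: for `|v| = |w|`, `val v ≤ val w`: `hi w ≤ hi v`.
`mem_A_of_hi`: `hi w ≤ A |w|` (`mon_mem`, `A_anti`).
-/

set_option autoImplicit false

namespace NLB

variable (p : ℕ) [Fact p.Prime]

theorem hi_le_A (w : List Bool) : hi p w ≤ A p w.length := by
  unfold hi
  refine sup_le (Submodule.span_le.2 ?_) (A_anti p (Nat.le_succ _))
  rintro x ⟨v, hv, _, rfl⟩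
  rw [← hv]
  exact mon_mem p v

theorem hi_anti {v w : List Bool} (h : v.length = w.length) (h' : val v ≤ val w) : hi p w ≤ hi p v := by
  unfold hi
  rw [h]
  refine sup_le_sup (Submodule.span_mono ?_) le_rfl
  rintro x ⟨u, hu, hlt, rfl⟩
  exact ⟨u, hu, lt_of_le_of_lt h' hlt, rfl⟩

theorem mon_mem_hi {v w : List Bool} (h : v.length = w.length) (h' : val v < val w) : mon p w ∈ hi p v := by
  unfold hi
  exact Submodule.mem_sup_left (Submodule.subset_span ⟨w, h.symm, h', rfl⟩)

private theorem ldm_left {v w : List Bool} {y : R p} (hy : y ∈ hi p w) :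
    mon p v * y ∈ hi p (v ++ w) := by
  have h : hi p w ≤ (hi p (v ++ w)).comap (LinearMap.mulLeft (ZMod p) (mon p v)) := by
    refine le_trans (le_of_eq (by unfold hi; rfl)) (sup_le (Submodule.span_le.2 ?_) ?_)
    · rintro x ⟨u, hu, hlt, rfl⟩
      rw [SetLike.mem_coe, Submodule.mem_comap, LinearMap.mulLeft_apply, ← mon_append]
      refine mon_mem_hi p (by simp [hu]) ?_
      rw [val_append, val_append, hu]
      omega
    · intro t ht
      rw [Submodule.mem_comap, LinearMap.mulLeft_apply]
      unfold hi
      refine Submodule.mem_sup_right ?_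
      have := mul_mem_A p (mon_mem p v) ht
      rw [List.length_append, add_assoc]
      exact this
  exact h hy

private theorem ldm_right {v w : List Bool} {x : R p} (hx : x ∈ hi p v) :
    x * mon p w ∈ hi p (v ++ w) := by
  have h : hi p v ≤ (hi p (v ++ w)).comap (LinearMap.mulRight (ZMod p) (mon p w)) := by
    refine le_trans (le_of_eq (by unfold hi; rfl)) (sup_le (Submodule.span_le.2 ?_) ?_)
    · rintro x ⟨u, hu, hlt, rfl⟩
      rw [SetLike.mem_coe, Submodule.mem_comap, LinearMap.mulRight_apply, ← mon_append]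
      refine mon_mem_hi p (by simp [hu]) ?_
      rw [val_append, val_append]
      have : val v * 2 ^ w.length < val u * 2 ^ w.length := Nat.mul_lt_mul_of_pos_right hlt (by positivity)
      omega
    · intro t ht
      rw [Submodule.mem_comap, LinearMap.mulRight_apply]
      unfold hi
      refine Submodule.mem_sup_right ?_
      have := mul_mem_A p ht (mon_mem p w)
      rw [List.length_append, add_right_comm]
      exact this
  exact h hx

private theorem ldm_both {v w : List Bool} {x y : R p} (hx : x ∈ hi p v) (hy : y ∈ hi p w) :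
    x * y ∈ hi p (v ++ w) := by
  have h : hi p v ≤ (hi p (v ++ w)).comap (LinearMap.mulRight (ZMod p) y) := by
    refine le_trans (le_of_eq (by unfold hi; rfl)) (sup_le (Submodule.span_le.2 ?_) ?_)
    · rintro x ⟨u, hu, hlt, rfl⟩
      rw [SetLike.mem_coe, Submodule.mem_comap, LinearMap.mulRight_apply]
      refine hi_anti p (by simp [hu]) ?_ (ldm_left p hy)
      rw [val_append, val_append]
      have : val v * 2 ^ w.length < val u * 2 ^ w.length := Nat.mul_lt_mul_of_pos_right hlt (by positivity)
      omega
    · intro t ht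
      rw [Submodule.mem_comap, LinearMap.mulRight_apply]
      unfold hi
      refine Submodule.mem_sup_right ?_
      have := mul_mem_A p ht (hi_le_A p w hy)
      rw [List.length_append, add_right_comm]
      exact this
  exact h hx

theorem mul_hi {v w : List Bool} {x y : R p} (hx : x - mon p v ∈ hi p v) (hy : y - mon p w ∈ hi p w) :
    x * y - mon p (v ++ w) ∈ hi p (v ++ w) := by
  have e : x * y - mon p (v ++ w) =
      mon p v * (y - mon p w) + (x - mon p v) * mon p w + (x - mon p v) * (y - mon p w) := by
    rw [mon_append]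
    noncomm_ring
  rw [e]
  exact Submodule.add_mem _ (Submodule.add_mem _ (ldm_left p hy) (ldm_right p hx)) (ldm_both p hx hy)

end NLB
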