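import Pool.Agent.Lib.NLB.Defs

/-!
# NLB / Pst: decomposition of binary words and the automaton

PROOF IN WORDS. `(v, c, s) = st w`. `pcs_st`: by induction on `w` from the right (`List.reverseRecOn`, `List.foldl_append`) prove: there are `w₁` with `w = w₁ ++ replicate c false` and: if `s = 0` then `v = 0` and `w₁ = []`; if `s ≥ 1` then
`w₁ = w₂ ++ w₃`, `Pcs (s-1) w₂`, `Seg v w₃`. Reading `false`: `c + 1`. Reading `true`, `v ≤ c`: `Pcs s w₁` (append lemma: `Pcs s v → Pcs t w → Pcs (s+t) (v ++ w)`), new `w₂ = w₁`, `w₃ = blk c`, new `v = c`, `s + 1`. Reading `true`, `c < v`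
(so `s ≥ 1`): `w₃ ++ blk c` is a segment (`Seg.app`). At the end `Pcs (s + c) w` with the `c` single letters. `run_st`: by induction from the right `max v c` (and each of `v`, `c`) is the length of a run of `false` in `w`:
`c` is the length of the final run, `v` is attained by a completed run; shorten it to `h`.
-/

set_option autoImplicit false

namespace NLB

private theorem pcs_append {s t : ℕ} {v w : List Bool} (hv : Pcs s v) (hw : Pcs t w) : Pcs (s + t) (v ++ w) := by
  induction hv with
  | nil => simpa using hw
  | @seg i s v' w' h1 h2 ih =>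
    have h := Pcs.seg h1 ih
    rw [List.append_assoc]
    have e : s + t + 1 = s + 1 + t := by omega
    rwa [e] at h
  | @x s w' h ih =>
    have h := Pcs.x ih
    have e : s + t + 1 = s + 1 + t := by omega
    rw [e] at h
    simpa using h

private theorem pcs_rep (c : ℕ) : Pcs c (List.replicate c false) := by
  induction c with
  | zero => exact Pcs.nil
  | succ c ih =>
    rw [List.replicate_succ]
    exact Pcs.x ih

private theorem pcs_seg {i s : ℕ} {w₂ w₃ : List Bool} (h2 : Pcs s w₂) (h3 : Seg i w₃) : Pcs (s + 1) (w₂ ++ w₃) := by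
  have h := Pcs.seg h3 Pcs.nil
  rw [List.append_nil] at h
  exact pcs_append h2 h

private theorem st_snoc (w : List Bool) (b : Bool) : st (w ++ [b]) = step (st w) b := by
  rw [st, List.foldl_append]
  rfl

private theorem inv_st (w : List Bool) : ∃ w₁ : List Bool, w = w₁ ++ List.replicate (st w).2.1 false ∧
    (((st w).2.2 = 0 ∧ (st w).1 = 0 ∧ w₁ = []) ∨ ∃ (s : ℕ) (w₂ w₃ : List Bool), (st w).2.2 = s + 1 ∧ w₁ = w₂ ++ w₃ ∧
      Pcs s w₂ ∧ Seg (st w).1 w₃) := by
  induction w using List.reverseRecOn with
  | nil => exact ⟨[], rfl, Or.inl ⟨rfl, rfl, rfl⟩⟩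
  | append_singleton w b ih =>
    obtain ⟨w₁, e1, h1⟩ := ih
    rw [st_snoc]
    rcases hst : st w with ⟨v, c, s⟩
    rw [hst] at e1 h1
    simp only at e1 h1
    cases b with
    | false =>
      refine ⟨w₁, ?_, ?_⟩
      · show w ++ [false] = w₁ ++ List.replicate (c + 1) false
        rw [List.replicate_succ', ← List.append_assoc, ← e1]
      · exact h1
    | true =>
      have eb : w ++ [true] = w₁ ++ blk c := by
        rw [blk, ← List.append_assoc, ← e1]
      by_cases hvc : v ≤ c
      · have hs : step (v, c, s) true = (c, 0, s + 1) := by simp [step, hvc]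
        rw [hs]
        refine ⟨w ++ [true], by simp, Or.inr ⟨s, w₁, blk c, rfl, eb, ?_, Seg.one c⟩⟩
        rcases h1 with ⟨a1, a2, a3⟩ | ⟨s', w₂, w₃, a1, a2, a3, a4⟩
        · rw [a1, a3]
          exact Pcs.nil
        · rw [a1, a2]
          exact pcs_seg a3 a4
      · have hs : step (v, c, s) true = (v, 0, s) := by simp [step, hvc]
        rw [hs]
        refine ⟨w ++ [true], by simp, ?_⟩
        rcases h1 with ⟨a1, a2, a3⟩ | ⟨s', w₂, w₃, a1, a2, a3, a4⟩
        · omega
        · refine Or.inr ⟨s', w₂, w₃ ++ blk c, a1, ?_, a3, Seg.app a4 (by omega)⟩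
          rw [eb, a2, List.append_assoc]

private theorem run_v (w : List Bool) : ∃ α β : List Bool, w = α ++ List.replicate (st w).1 false ++ β := by
  induction w using List.reverseRecOn with
  | nil => exact ⟨[], [], rfl⟩
  | append_singleton w b ih =>
    obtain ⟨α, β, e⟩ := ih
    obtain ⟨w₁, e1, -⟩ := inv_st w
    rw [st_snoc]
    rcases hst : st w with ⟨v, c, s⟩
    rw [hst] at e e1
    simp only at e e1
    cases b with
    | false =>
      refine ⟨α, β ++ [false], ?_⟩
      show w ++ [false] = α ++ List.replicate v false ++ (β ++ [false])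
      rw [← List.append_assoc, ← e]
    | true =>
      by_cases hvc : v ≤ c
      · have hs : step (v, c, s) true = (c, 0, s + 1) := by simp [step, hvc]
        rw [hs]
        exact ⟨w₁, [true], by rw [← e1]⟩
      · have hs : step (v, c, s) true = (v, 0, s) := by simp [step, hvc]
        rw [hs]
        exact ⟨α, β ++ [true], by rw [← List.append_assoc, ← e]⟩

theorem pcs_st (w : List Bool) : Pcs ((st w).2.2 + (st w).2.1) w := by
  obtain ⟨w₁, e1, h1⟩ := inv_st w
  have h : Pcs (st w).2.2 w₁ := by
    rcases h1 with ⟨a1, a2, a3⟩ | ⟨s', w₂, w₃, a1, a2, a3, a4⟩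
    · rw [a1, a3]
      exact Pcs.nil
    · rw [a1, a2]
      exact pcs_seg a3 a4
  have h' := pcs_append h (pcs_rep (st w).2.1)
  rwa [← e1] at h'

theorem run_st (w : List Bool) (h : ℕ) (hh : h ≤ max (st w).1 (st w).2.1) :
    ∃ α β : List Bool, w = α ++ List.replicate h false ++ β := by
  rcases le_max_iff.1 hh with h1 | h1
  · obtain ⟨α, β, e⟩ := run_v w
    refine ⟨α, List.replicate ((st w).1 - h) false ++ β, ?_⟩
    have e2 : List.replicate (st w).1 false = List.replicate h false ++ List.replicate ((st w).1 - h) false := by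
      rw [← List.replicate_add]
      congr 1
      omega
    rw [e2] at e
    refine e.trans ?_
    simp only [List.append_assoc]
  · obtain ⟨w₁, e, -⟩ := inv_st w
    refine ⟨w₁, List.replicate ((st w).2.1 - h) false, ?_⟩
    have e2 : List.replicate (st w).2.1 false = List.replicate h false ++ List.replicate ((st w).2.1 - h) false := by
      rw [← List.replicate_add]
      congr 1
      omega
    rw [List.append_assoc, ← e2]
    exact e

end NLB
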