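import Pool.Agent.Lib.NLB.Fox

/-!
# NLB / Spn: the monomials span the quotients

PROOF IN WORDS. (1) `A n ≤ span {mon w | |w| = n} ⊔ A (n+1)` by induction on `n`. `n = 0`: `a = eps a • 1 + (a - eps a • 1)`, the second summand in `A 1` (`mem_A_one`), `1 = mon []`.
Step: `A (n+1) = A n * I`; let `a ∈ A n`, `c ∈ I`; by `fox`, `c = D false c * X false + D true c * X true`; `a * D b c ∈ A n` (`mul_mem_A`), by induction it is `s + r`, `s` in the span of the `mon w`,
`|w| = n`, `r ∈ A (n+1)`; `s * X b` is in the span of the `mon (w ++ [b])` (`mon_append`, `mon [b] = X b`), `r * X b ∈ A (n+2)`.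
(2) `R ⧸ A n` is finite dimensional, by induction: `⊤ ≤ span {mon w | |w| < n} ⊔ A n`, the set of words of length `< n` is finite (`List.finite_length_lt` or similar); so the quotient is spanned
by finitely many elements.
-/

set_option autoImplicit false

namespace NLB

variable (p : ℕ) [Fact p.Prime]

private theorem spn_X (b : Bool) : X p b ∈ A p 1 := u_sub_one_mem p (FreeGroup.of b)

private theorem spn_mon (b : Bool) : mon p [b] = X p b := by
  simp [mon]

theorem A_le_span (n : ℕ) :
    A p n ≤ Submodule.span (ZMod p) {x | ∃ w : List Bool, w.length = n ∧ x = mon p w} ⊔ A p (n + 1) := by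
  induction n with
  | zero =>
    intro a _
    have h1 : a = (eps p a) • (1 : R p) + (a - (eps p a) • (1 : R p)) := by rw [add_sub_cancel]
    rw [h1]
    refine Submodule.add_mem_sup (Submodule.smul_mem _ _ (Submodule.subset_span ⟨[], rfl, ?_⟩)) ?_
    · simp [mon]
    · rw [zero_add, mem_A_one, map_sub, map_smul, map_one, smul_eq_mul, mul_one, sub_self]
  | succ n ih =>
    have key : ∀ (b : Bool) (s : R p), s ∈ A p n → s * X p b ∈
        Submodule.span (ZMod p) {x | ∃ w : List Bool, w.length = n + 1 ∧ x = mon p w} ⊔ A p (n + 1 + 1) := by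
      intro b s hs
      obtain ⟨s1, h1, s2, h2, rfl⟩ := Submodule.mem_sup.1 (ih hs)
      rw [add_mul]
      refine Submodule.add_mem_sup ?_ (mul_mem_A p h2 (spn_X p b))
      refine Submodule.span_induction (p := fun x _ => x * X p b ∈
        Submodule.span (ZMod p) {x | ∃ w : List Bool, w.length = n + 1 ∧ x = mon p w}) ?_ ?_ ?_ ?_ h1
      · rintro x ⟨w, hw, rfl⟩
        refine Submodule.subset_span ⟨w ++ [b], by simp [hw], ?_⟩
        rw [mon_append, spn_mon]
      · rw [zero_mul]
        exact Submodule.zero_mem _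
      · intro x y _ _ hx hy
        rw [add_mul]
        exact Submodule.add_mem _ hx hy
      · intro c x _ hx
        rw [smul_mul_assoc]
        exact Submodule.smul_mem _ _ hx
    obtain ⟨D, hD⟩ := fox p
    have hmul : A p (n + 1) = A p n * LinearMap.ker (eps p).toLinearMap := rfl
    rw [hmul, Submodule.mul_le]
    intro a ha c hc
    have hc0 : eps p c = 0 := hc
    have h1 := hD.fund c
    rw [hc0, map_zero, zero_add] at h1
    have h2 : a * c = (a * D false c) * X p false + (a * D true c) * X p true := by
      conv_lhs => rw [h1]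
      rw [mul_add, mul_assoc, mul_assoc]
    rw [h2]
    have h3 : ∀ b, a * D b c ∈ A p n := by
      intro b
      have := mul_mem_A p ha (show D b c ∈ A p 0 from Submodule.mem_top)
      rwa [add_zero] at this
    exact Submodule.add_mem _ (key false _ (h3 false)) (key true _ (h3 true))

private theorem spn_top (n : ℕ) :
    (⊤ : Submodule (ZMod p) (R p)) ≤ Submodule.span (ZMod p) {x | ∃ w : List Bool, w.length < n ∧ x = mon p w} ⊔ A p n := by
  induction n with
  | zero =>
    exact le_sup_of_le_right (le_refl (⊤ : Submodule (ZMod p) (R p)))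
  | succ n ih =>
    refine ih.trans (sup_le ?_ ?_)
    · refine le_sup_of_le_left (Submodule.span_mono ?_)
      rintro x ⟨w, hw, rfl⟩
      exact ⟨w, by omega, rfl⟩
    · refine (A_le_span p n).trans (sup_le_sup_right (Submodule.span_mono ?_) _)
      rintro x ⟨w, hw, rfl⟩
      exact ⟨w, by omega, rfl⟩

theorem fin_A (n : ℕ) : FiniteDimensional (ZMod p) (R p ⧸ A p n) := by
  have hfin : ({x | ∃ w : List Bool, w.length < n ∧ x = mon p w} : Set (R p)).Finite := by
    refine ((List.finite_length_lt Bool n).image (mon p)).subset ?_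
    rintro x ⟨w, hw, rfl⟩
    exact ⟨w, hw, rfl⟩
  have hV : FiniteDimensional (ZMod p) (Submodule.span (ZMod p) {x | ∃ w : List Bool, w.length < n ∧ x = mon p w}) :=
    FiniteDimensional.span_of_finite (ZMod p) hfin
  refine Module.Finite.of_surjective ((A p n).mkQ.comp
    (Submodule.span (ZMod p) {x | ∃ w : List Bool, w.length < n ∧ x = mon p w}).subtype) ?_
  intro q
  obtain ⟨a, rfl⟩ := Submodule.mkQ_surjective _ q
  obtain ⟨s, hs, r, hr, rfl⟩ := Submodule.mem_sup.1 (spn_top p n (show a ∈ ⊤ from Submodule.mem_top))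
  refine ⟨⟨s, hs⟩, ?_⟩
  show (A p n).mkQ s = (A p n).mkQ (s + r)
  rw [map_add]
  have : (A p n).mkQ r = 0 := by
    rw [Submodule.mkQ_apply, Submodule.Quotient.mk_eq_zero]
    exact hr
  rw [this, add_zero]

end NLB
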