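import Pool.Agent.Lib.NLB.Tor
import Pool.Agent.Lib.NLB.Hom

/-!
# NLB / Tfi: an infinite torsion group with `C(N,n)`, residually a finite `p`-group
-/

set_option autoImplicit false

namespace NLB

private theorem pad_pow (p : ℕ) [Fact p.Prime] (r q : ℕ) (hpq : p ∣ q) (v : Multiplicative (Fin r → ZMod p)) : v ^ q = 1 := by
  apply Multiplicative.toAdd.injective
  rw [toAdd_pow, toAdd_one]
  funext i
  rw [Pi.smul_apply, nsmul_eq_mul, (ZMod.natCast_eq_zero_iff q p).2 hpq, zero_mul, Pi.zero_apply]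

private theorem pad_gen (p : ℕ) [Fact p.Prime] (r : ℕ) (H : Subgroup (Multiplicative (Fin r → ZMod p)))
    (h : ∀ i : Fin r, Multiplicative.ofAdd (Pi.single i (1 : ZMod p)) ∈ H) (v : Multiplicative (Fin r → ZMod p)) : v ∈ H := by
  have hv : v = ∏ i : Fin r, (Multiplicative.ofAdd (Pi.single i (1 : ZMod p)) : Multiplicative (Fin r → ZMod p)) ^ (v.toAdd i).val := by
    apply Multiplicative.toAdd.injective
    rw [toAdd_prod]
    funext j
    rw [Finset.sum_apply, Finset.sum_eq_single j]
    · rw [toAdd_pow, toAdd_ofAdd, Pi.smul_apply, Pi.single_eq_same, nsmul_eq_mul, mul_one, ZMod.natCast_zmod_val]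
    · intro b _ hb
      rw [toAdd_pow, toAdd_ofAdd, Pi.smul_apply, Pi.single_eq_of_ne hb.symm, nsmul_eq_mul, mul_zero]
    · intro hj
      exact absurd (Finset.mem_univ j) hj
  rw [hv]
  exact Subgroup.prod_mem _ fun i _ => Subgroup.pow_mem _ (h i) _

theorem pad_inf (p : ℕ) [Fact p.Prime] (N q k : ℕ) (hpq : p ∣ q) (hk : 2 ≤ k) (G : Type) [Group G] [Infinite G] (hG : IsPGroup p G)
    (S : Finset G) (hS : S.card ≤ 2) (hc : Subgroup.closure (S : Set G) = ⊤) (hC : Cond N q S)
    (hR : ∀ x : G, x ≠ 1 → ∃ (Q : Type) (_ : Group Q) (f : G →* Q), Finite Q ∧ f x ≠ 1) :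
    ∃ (G' : Type) (_ : Group G') (S' : Finset G'), Infinite G' ∧ IsPGroup p G' ∧ S'.card = k ∧
      Subgroup.closure (S' : Set G') = ⊤ ∧ Cond N q S' ∧
      ∀ x : G', x ≠ 1 → ∃ (Q : Type) (_ : Group Q) (f : G' →* Q), Finite Q ∧ f x ≠ 1 := by
  classical
  set r : ℕ := k - S.card with hr
  let E : Fin r → Multiplicative (Fin r → ZMod p) := fun i => Multiplicative.ofAdd (Pi.single i (1 : ZMod p))
  have hE1 : ∀ i, E i ≠ 1 := by
    intro i h
    have h1 : (Pi.single i (1 : ZMod p) : Fin r → ZMod p) = 0 := by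
      have := congrArg Multiplicative.toAdd h
      simpa [E] using this
    have h2 := congrFun h1 i
    rw [Pi.single_eq_same, Pi.zero_apply] at h2
    exact one_ne_zero h2
  have hEi : Function.Injective E := by
    intro i j h
    have h1 : (Pi.single i (1 : ZMod p) : Fin r → ZMod p) = Pi.single j 1 := by
      have := congrArg Multiplicative.toAdd h
      simpa [E] using this
    by_contra hij
    have h2 := congrFun h1 i
    rw [Pi.single_eq_same, Pi.single_eq_of_ne hij] at h2
    exact one_ne_zero h2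
  let S1 : Finset (G × Multiplicative (Fin r → ZMod p)) := S.image fun x => (x, 1)
  let S2 : Finset (G × Multiplicative (Fin r → ZMod p)) := Finset.univ.image fun i => (1, E i)
  refine ⟨G × Multiplicative (Fin r → ZMod p), inferInstance, S1 ∪ S2, inferInstance, ?_, ?_, ?_, ?_, ?_⟩
  · intro g
    obtain ⟨m, hm⟩ := hG g.1
    refine ⟨m + 1, Prod.ext ?_ ?_⟩
    · rw [Prod.pow_fst, pow_succ, pow_mul, hm, one_pow, Prod.fst_one]
    · rw [Prod.pow_snd, Prod.snd_one]
      exact pad_pow p r _ (dvd_pow_self p (Nat.succ_ne_zero m)) _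
  · rw [Finset.card_union_of_disjoint, Finset.card_image_of_injective, Finset.card_image_of_injective, Finset.card_univ, Fintype.card_fin]
    · omega
    · intro i j h
      exact hEi (congrArg Prod.snd h)
    · intro x y h
      exact congrArg Prod.fst h
    · rw [Finset.disjoint_left]
      intro a ha hb
      obtain ⟨x, -, hx⟩ := Finset.mem_image.1 ha
      obtain ⟨i, -, hi⟩ := Finset.mem_image.1 hb
      exact hE1 i (by rw [← hx] at hi; exact congrArg Prod.snd hi)
  · rw [eq_top_iff]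
    intro g _
    have h1 : ∀ a : G, ((a, 1) : G × Multiplicative (Fin r → ZMod p)) ∈ Subgroup.closure ((S1 ∪ S2 : Finset _) : Set (G × Multiplicative (Fin r → ZMod p))) := by
      intro a
      have h2 : Subgroup.closure (S : Set G) ≤ (Subgroup.closure ((S1 ∪ S2 : Finset _) : Set (G × Multiplicative (Fin r → ZMod p)))).comap (MonoidHom.inl G (Multiplicative (Fin r → ZMod p))) := by
        rw [Subgroup.closure_le]
        intro x hx
        refine Subgroup.subset_closure ?_
        rw [Finset.mem_coe, Finset.mem_union]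
        exact Or.inl (Finset.mem_image.2 ⟨x, hx, rfl⟩)
      have h3 : a ∈ Subgroup.closure (S : Set G) := by
        rw [hc]
        trivial
      exact h2 h3
    have h4 : ∀ v : Multiplicative (Fin r → ZMod p), ((1, v) : G × Multiplicative (Fin r → ZMod p)) ∈ Subgroup.closure ((S1 ∪ S2 : Finset _) : Set (G × Multiplicative (Fin r → ZMod p))) := by
      intro v
      refine pad_gen p r ((Subgroup.closure ((S1 ∪ S2 : Finset _) : Set (G × Multiplicative (Fin r → ZMod p)))).comap (MonoidHom.inr G (Multiplicative (Fin r → ZMod p)))) ?_ v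
      intro i
      refine Subgroup.subset_closure ?_
      rw [Finset.mem_coe, Finset.mem_union]
      exact Or.inr (Finset.mem_image.2 ⟨i, Finset.mem_univ i, rfl⟩)
    have h5 : g = (g.1, 1) * (1, g.2) := by
      ext <;> simp
    rw [h5]
    exact Subgroup.mul_mem _ (h1 _) (h4 _)
  · intro l hl hx
    refine Prod.ext ?_ ?_
    · rw [Prod.pow_fst, Prod.fst_one]
      have h1 : l.prod.1 = (l.map Prod.fst).prod := map_list_prod (MonoidHom.fst G (Multiplicative (Fin r → ZMod p))) l
      rw [h1]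
      refine hC _ (by rw [List.length_map, hl]) ?_
      intro x hx'
      obtain ⟨y, hy, rfl⟩ := List.mem_map.1 hx'
      rcases hx y hy with h | h
      · rcases Finset.mem_union.1 h with h | h
        · obtain ⟨z, hz, rfl⟩ := Finset.mem_image.1 h
          exact Or.inl hz
        · obtain ⟨i, -, rfl⟩ := Finset.mem_image.1 h
          exact Or.inr rfl
      · rw [h]
        exact Or.inr rfl
    · rw [Prod.pow_snd, Prod.snd_one]
      exact pad_pow p r q hpq _
  · rintro ⟨a, v⟩ hx
    by_cases ha : a = 1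
    · have hv : v ≠ 1 := by
        rintro rfl
        exact hx (by rw [ha]; rfl)
      exact ⟨Multiplicative (Fin r → ZMod p), inferInstance, MonoidHom.snd G (Multiplicative (Fin r → ZMod p)),
        inferInstance, hv⟩
    · obtain ⟨Q, _, f, hQ, hf⟩ := hR a ha
      exact ⟨Q, inferInstance, f.comp (MonoidHom.fst G (Multiplicative (Fin r → ZMod p))), hQ, hf⟩


theorem torsion_two (p : ℕ) [Fact p.Prime] (q N : ℕ) (V : Submodule (ZMod p) (R p)) (τ : ℝ) (hτ : 1 < τ)
    (hw : ∀ l : List Bool, l.length ≤ N → u p (pw l) ^ q - 1 ∈ V) (ht : ∀ g : F2, ∃ j : ℕ, u p g ^ p ^ j - 1 ∈ V)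
    (hb : ∀ n : ℕ, τ ^ n ≤ (bb p V (n + 1) : ℝ)) :
    ∃ (G : Type) (_ : Group G) (S : Finset G), Infinite G ∧ IsPGroup p G ∧ S.card ≤ 2 ∧ Subgroup.closure (S : Set G) = ⊤ ∧
      Cond N q S ∧ ∀ x : G, x ≠ 1 → ∃ (Q : Type) (_ : Group Q) (f : G →* Q), Finite Q ∧ f x ≠ 1 := by
  classical
  choose G hG ρ hfin _ hsur hker hcard using act_hom p V
  let Φ : F2 →* (∀ n, G n) := MonoidHom.pi ρ
  let ψ : F2 →* Φ.range := Φ.rangeRestrict
  have hψ : Function.Surjective ψ := Φ.rangeRestrict_surjective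
  let pj : ∀ n, Φ.range →* G n := fun n => (Pi.evalMonoidHom G n).comp Φ.range.subtype
  have hpj : ∀ n g, pj n (ψ g) = ρ n g := fun _ _ => rfl
  have hext : ∀ x y : Φ.range, (∀ n, pj n x = pj n y) → x = y := fun x y h => Subtype.ext (funext fun n => h n)
  have hone : ∀ g : F2, u p g - 1 ∈ V → ψ g = 1 := by
    intro g hg
    refine hext _ _ fun n => ?_
    rw [hpj, hker n g hg, map_one]
  refine ⟨Φ.range, inferInstance, {ψ (FreeGroup.of false), ψ (FreeGroup.of true)}, ?_, ?_, Finset.card_le_two, ?_, ?_, ?_⟩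
  · by_contra hK
    rw [not_infinite_iff_finite] at hK
    obtain ⟨n, hn⟩ := pow_unbounded_of_one_lt (Nat.card Φ.range : ℝ) hτ
    have h1 : Function.Surjective (pj (n + 1)) := by
      intro y
      obtain ⟨g, rfl⟩ := hsur (n + 1) y
      exact ⟨ψ g, hpj _ _⟩
    have h2 := Nat.card_le_card_of_surjective _ h1
    have h3 : ((bb p V (n + 1) : ℕ) : ℝ) ≤ (Nat.card Φ.range : ℝ) := by exact_mod_cast (hcard (n + 1)).trans h2
    linarith [hb n]
  · intro x
    obtain ⟨g, rfl⟩ := hψ x
    obtain ⟨j, hj⟩ := ht g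
    refine ⟨j, ?_⟩
    rw [← map_pow]
    exact hone _ (by rw [u_pow]; exact hj)
  · have e1 : (({ψ (FreeGroup.of false), ψ (FreeGroup.of true)} : Finset Φ.range) : Set Φ.range)
        = ψ '' (Set.range (FreeGroup.of : Bool → F2)) := by
      ext x
      simp only [Finset.coe_insert, Finset.coe_singleton, Set.mem_insert_iff, Set.mem_singleton_iff, Set.mem_image,
        Set.mem_range]
      constructor
      · rintro (h | h)
        · exact ⟨_, ⟨false, rfl⟩, h.symm⟩
        · exact ⟨_, ⟨true, rfl⟩, h.symm⟩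
      · rintro ⟨_, ⟨b, rfl⟩, h⟩
        cases b
        · exact Or.inl h.symm
        · exact Or.inr h.symm
    rw [e1, ← MonoidHom.map_closure, FreeGroup.closure_range_of, Subgroup.map_top_of_surjective ψ hψ]
  · intro l hl hS
    have key : ∀ l : List Φ.range,
        (∀ x ∈ l, x ∈ ({ψ (FreeGroup.of false), ψ (FreeGroup.of true)} : Finset Φ.range) ∨ x = 1) →
        ∃ w : List Bool, w.length ≤ l.length ∧ l.prod = ψ (pw w) := by
      intro l
      induction l with
      | nil => intro _; exact ⟨[], le_rfl, by simp [pw]⟩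
      | cons x l ih =>
        intro h
        obtain ⟨w, hw1, hw2⟩ := ih fun y hy => h y (List.mem_cons_of_mem _ hy)
        have hcons : ∀ b : Bool, x = ψ (FreeGroup.of b) →
            ∃ w : List Bool, w.length ≤ (x :: l).length ∧ (x :: l).prod = ψ (pw w) := by
          intro b hb
          refine ⟨b :: w, by simpa using hw1, ?_⟩
          rw [List.prod_cons, hw2, hb, ← map_mul]
          simp [pw]
        rcases h x List.mem_cons_self with hx | hx
        · rw [Finset.mem_insert, Finset.mem_singleton] at hx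
          rcases hx with hx | hx
          · exact hcons _ hx
          · exact hcons _ hx
        · exact ⟨w, hw1.trans (by simp), by rw [List.prod_cons, hx, one_mul, hw2]⟩
    obtain ⟨w, hw1, hw2⟩ := key l hS
    rw [hw2, ← map_pow]
    exact hone _ (by rw [u_pow]; exact hw w (hw1.trans hl.le))
  · intro x hx
    have h1 : ∃ n, pj n x ≠ 1 := by
      by_contra hcon
      push Not at hcon
      exact hx (hext _ _ fun n => by rw [hcon n, map_one])
    obtain ⟨n, hn⟩ := h1
    exact ⟨G n, hG n, pj n, hfin n, hn⟩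

theorem torsion_main : ∃ C : ℕ, 1 ≤ C ∧ ∀ p a : ℕ, p.Prime → C ≤ p ^ a → ∀ k n N : ℕ, 2 ≤ k → p ^ a ∣ n → N ^ C ≤ 2 ^ (p ^ a) →
    ∃ (G : Type) (_ : Group G) (S : Finset G), Infinite G ∧ IsPGroup p G ∧ S.card = k ∧ Subgroup.closure (S : Set G) = ⊤ ∧
      Cond N n S ∧ ∀ x : G, x ≠ 1 → ∃ (Q : Type) (_ : Group Q) (f : G →* Q), Finite Q ∧ f x ≠ 1 := by
  obtain ⟨C, hC1, hC⟩ := exists_V
  refine ⟨C + 1, by omega, fun p a hp hCq k n N hk hn hN => ?_⟩
  have : Fact p.Prime := ⟨hp⟩
  have hN' : N ^ C ≤ 2 ^ (p ^ a) := by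
    rcases Nat.eq_zero_or_pos N with h0 | h0
    · subst h0
      rw [zero_pow (by omega)]
      exact Nat.zero_le _
    · exact (Nat.pow_le_pow_right h0 (Nat.le_succ C)).trans hN
  have ha : a ≠ 0 := by
    rintro rfl
    rw [pow_zero] at hCq
    omega
  obtain ⟨V, τ, -, hτ, hw, ht, hb⟩ := hC p a (by omega) N hN'
  obtain ⟨G, _, S, hinf, hpg, hSc, hcl, hcond, hR⟩ := torsion_two p (p ^ a) N V τ hτ hw ht hb
  obtain ⟨G', _, S', hinf', hpg', hSc', hcl', hcond', hR'⟩ :=
    pad_inf p N (p ^ a) k (dvd_pow_self p ha) hk G hpg S hSc hcl hcond hR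
  refine ⟨G', inferInstance, S', hinf', hpg', hSc', hcl', ?_, hR'⟩
  intro l hl hx
  obtain ⟨c, rfl⟩ := hn
  rw [pow_mul, hcond' l hl hx, one_pow]

end NLB
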