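import Pool.Agent.Lib.NLB.Gcu

/-!
# NLB / Tor: relators which make every element of finite order
-/

set_option autoImplicit false

namespace NLB

open Module

theorem countable_F2 : ∃ f : ℕ → F2, Function.Surjective f := by
  have h : Countable F2 := by
    have h1 : Function.Surjective (FreeGroup.mk : List (Bool × Bool) → F2) := Quot.mk_surjective
    exact h1.countable
  exact exists_surjective_nat F2

section

variable (p : ℕ) [Fact p.Prime]

theorem pow_sub_mem (a : ℕ) (g : F2) : u p g ^ p ^ a - 1 ∈ A p (p ^ a) := by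
  rw [pow_sub]
  have h := pow_mem_A p (u_sub_one_mem p g) (p ^ a)
  rwa [one_mul] at h

/-- the torsion relators -/
noncomputable def TT (f : ℕ → F2) (s0 : ℕ) : Submodule (ZMod p) (R p) :=
  Submodule.span (ZMod p) {x | ∃ i, x = u p (f i) ^ p ^ (s0 + i) - 1}

/-- the torsion relator of weight `m`, if there is one -/
noncomputable def te (f : ℕ → F2) (s0 m : ℕ) : Finset (R p) :=
  open Classical in
  if s0 ≤ Nat.log p m ∧ p ^ Nat.log p m = m then {u p (f (Nat.log p m - s0)) ^ m - 1} else ∅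

theorem te_card (f : ℕ → F2) (s0 m : ℕ) : (te p f s0 m).card ≤ if s0 ≤ m then 1 else 0 := by
  unfold te
  split_ifs with h1 h2 h2
  · simp
  · exfalso
    apply h2
    have h3 : Nat.log p m < p ^ Nat.log p m := Nat.lt_pow_self (Fact.out : p.Prime).one_lt
    omega
  · simp
  · simp

theorem te_mem (f : ℕ → F2) (s0 m : ℕ) : ∀ v ∈ te p f s0 m, v ∈ A p m := by
  intro v hv
  unfold te at hv
  split_ifs at hv with h1
  · rw [Finset.mem_singleton] at hv
    subst hv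
    have h2 := pow_sub_mem p (Nat.log p m) (f (Nat.log p m - s0))
    rwa [h1.2] at h2
  · exact absurd hv (Finset.notMem_empty v)

theorem te_spec (f : ℕ → F2) (s0 i : ℕ) : u p (f i) ^ p ^ (s0 + i) - 1 ∈ te p f s0 (p ^ (s0 + i)) := by
  have hp := (Fact.out : p.Prime).one_lt
  have h1 : Nat.log p (p ^ (s0 + i)) = s0 + i := Nat.log_pow hp _
  unfold te
  rw [h1, if_pos ⟨by omega, rfl⟩, Finset.mem_singleton]
  congr 4
  omega

theorem gen_add (V : Submodule (ZMod p) (R p)) (B : ℕ → Finset (R p)) (hB : Gen p V B) (f : ℕ → F2) (s0 : ℕ) :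
    ∃ B' : ℕ → Finset (R p), Gen p (V ⊔ TT p f s0) B' ∧ ∀ m, (B' m).card ≤ (B m).card + if s0 ≤ m then 1 else 0 := by
  classical
  refine ⟨fun m => B m ∪ te p f s0 m, ⟨?_, ?_⟩, ?_⟩
  · intro m v hv
    rcases Finset.mem_union.1 hv with h | h
    · exact hB.mem m v h
    · exact te_mem p f s0 m v h
  · intro n
    refine sup_le ((hB.le n).trans (sup_le_sup ?_ le_rfl)) (Submodule.span_le.2 ?_)
    · exact iSup₂_mono fun m _ => Submodule.span_mono (by simp)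
    · rintro _ ⟨i, rfl⟩
      by_cases h : p ^ (s0 + i) ≤ n
      · refine Submodule.mem_sup_left ?_
        refine Submodule.mem_iSup_of_mem (p ^ (s0 + i)) (Submodule.mem_iSup_of_mem ?_ ?_)
        · exact Finset.mem_Icc.2 ⟨Nat.one_le_pow _ _ (Fact.out : p.Prime).pos, h⟩
        · exact Submodule.subset_span (Finset.mem_coe.2 (Finset.mem_union_right _ (te_spec p f s0 i)))
      · exact Submodule.mem_sup_right (A_anti p (by omega) (pow_sub_mem p (s0 + i) (f i)))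
  · intro m
    exact (Finset.card_union_le _ _).trans (Nat.add_le_add_left (te_card p f s0 m) _)

theorem tail_sum (t : ℝ) (ht : 0 < t) (ht1 : t < 1) (s0 M : ℕ) :
    ∑ m ∈ Finset.Icc 1 M, ((if s0 ≤ m then 1 else 0 : ℕ) : ℝ) * t ^ m ≤ t ^ s0 / (1 - t) := by
  have h1 : ∑ m ∈ Finset.Icc 1 M, ((if s0 ≤ m then 1 else 0 : ℕ) : ℝ) * t ^ m ≤
      ∑ m ∈ Finset.range (s0 + (M + 1)), ((if s0 ≤ m then 1 else 0 : ℕ) : ℝ) * t ^ m := by
    refine Finset.sum_le_sum_of_subset_of_nonneg (fun m hm => ?_) fun m _ _ => by positivity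
    rw [Finset.mem_Icc] at hm
    rw [Finset.mem_range]
    omega
  refine h1.trans ?_
  rw [Finset.sum_range_add]
  have h2 : ∑ m ∈ Finset.range s0, ((if s0 ≤ m then 1 else 0 : ℕ) : ℝ) * t ^ m = 0 := by
    refine Finset.sum_eq_zero fun m hm => ?_
    rw [Finset.mem_range] at hm
    rw [if_neg (by omega), Nat.cast_zero, zero_mul]
  have h3 : ∑ j ∈ Finset.range (M + 1), ((if s0 ≤ s0 + j then 1 else 0 : ℕ) : ℝ) * t ^ (s0 + j) =
      t ^ s0 * ∑ j ∈ Finset.range (M + 1), t ^ j := by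
    rw [Finset.mul_sum]
    refine Finset.sum_congr rfl fun j _ => ?_
    rw [if_pos (by omega), Nat.cast_one, one_mul, pow_add]
  rw [h2, h3, zero_add, geom_sum_eq ht1.ne]
  have h4 : (0 : ℝ) < 1 - t := by linarith
  have h5 : (t ^ (M + 1) - 1) / (t - 1) = (1 - t ^ (M + 1)) / (1 - t) := by
    rw [← neg_div_neg_eq, neg_sub, neg_sub]
  rw [h5, mul_div_assoc']
  refine div_le_div_of_nonneg_right ?_ h4.le
  have h6 : 0 < t ^ (M + 1) := by positivity
  have h7 : 0 < t ^ s0 := by positivity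
  nlinarith

theorem rr_weighted_gen (N a : ℕ) (t : ℝ) (M0 h' h : ℕ) (ht : 0 < t) (ht1 : t ≤ 1) (h1 : h' ≤ p ^ a) (hh : 1 ≤ h)
    (h2 : h ≤ p ^ a - h') (c : ℝ)
    (hs : ∑ m ∈ Finset.range M0, 2 ^ (m + 1) * ((1 / 2) ^ h' + (m * (1 / 2) ^ h + (3 / 4) ^ (p ^ a - h' - h) * (3 / 2) ^ h)) *
      t ^ m + 2 ^ (N + 1) * t ^ M0 ≤ c) (M : ℕ) :
    ∑ m ∈ Finset.Icc 1 M, (rr p N (p ^ a) m : ℝ) * t ^ m ≤ c := by
  refine le_trans ?_ hs
  have e1 : ∑ m ∈ Finset.Icc 1 M, (rr p N (p ^ a) m : ℝ) * t ^ m ≤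
      ∑ m ∈ Finset.range (M0 + (M + 1)), (rr p N (p ^ a) m : ℝ) * t ^ m := by
    refine Finset.sum_le_sum_of_subset_of_nonneg ?_ fun m _ _ => by positivity
    intro m hm
    rw [Finset.mem_Icc] at hm
    rw [Finset.mem_range]
    omega
  refine e1.trans ?_
  rw [Finset.sum_range_add]
  refine add_le_add (Finset.sum_le_sum fun m _ => ?_) ?_
  · obtain ⟨T, hT, hc⟩ := bad_all (p ^ a) h' h m h1 hh h2
    refine mul_le_mul_of_nonneg_right (le_trans ?_ hc) (by positivity)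
    exact_mod_cast rr_le_card p N a m T hT
  · have e2 : ∀ j ∈ Finset.range (M + 1), (rr p N (p ^ a) (M0 + j) : ℝ) * t ^ (M0 + j) ≤
        (rr p N (p ^ a) (M0 + j) : ℝ) * t ^ M0 := by
      intro j _
      refine mul_le_mul_of_nonneg_left ?_ (by positivity)
      exact pow_le_pow_of_le_one ht.le ht1 (Nat.le_add_right _ _)
    refine (Finset.sum_le_sum e2).trans ?_
    rw [← Finset.sum_mul]
    refine mul_le_mul_of_nonneg_right ?_ (by positivity)
    have e3 := rr_sum p N (p ^ a) (M0 + (M + 1))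
    rw [Finset.sum_range_add] at e3
    have e4 := VV_rank p N (p ^ a)
    have e5 : ∑ j ∈ Finset.range (M + 1), rr p N (p ^ a) (M0 + j) ≤ 2 ^ (N + 1) := by omega
    exact_mod_cast e5

end

/-- the spaces of relators: exponential growth, `q`-th powers of short words, every element of finite order -/
theorem exists_V : ∃ C : ℕ, 1 ≤ C ∧ ∀ (p a : ℕ) [Fact p.Prime], C ≤ p ^ a → ∀ N : ℕ, N ^ C ≤ 2 ^ (p ^ a) →
    ∃ (V : Submodule (ZMod p) (R p)) (τ : ℝ), V ≤ A p 1 ∧ 1 < τ ∧ (∀ l : List Bool, l.length ≤ N → u p (pw l) ^ p ^ a - 1 ∈ V) ∧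
      (∀ g : F2, ∃ j : ℕ, u p g ^ p ^ j - 1 ∈ V) ∧ ∀ n, τ ^ n ≤ (bb p V (n + 1) : ℝ) := by
  obtain ⟨C, hC1, hC⟩ := num
  refine ⟨2 * C + 2, by omega, fun p a _ hCq N hN => ?_⟩
  have hN' : (N + 1) ^ C ≤ 2 ^ (p ^ a) := by
    rcases Nat.lt_or_ge N 2 with h0 | h0
    · calc (N + 1) ^ C ≤ 2 ^ C := Nat.pow_le_pow_left (by omega) C
        _ ≤ 2 ^ (p ^ a) := Nat.pow_le_pow_right (by omega) (by omega)
    · calc (N + 1) ^ C ≤ (N ^ 2) ^ C := Nat.pow_le_pow_left (by nlinarith) C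
        _ = N ^ (2 * C) := by rw [← pow_mul]
        _ ≤ N ^ (2 * C + 2) := Nat.pow_le_pow_right (by omega) (by omega)
        _ ≤ 2 ^ (p ^ a) := hN
  obtain ⟨t, M0, h', h, ht, ht1, h1, hh, h2, ht', hs⟩ := hC (p ^ a) (N + 1) (by omega) hN'
  have htl : t < 1 := by
    by_contra hcon
    have h3 : t = 1 := le_antisymm ht1 (not_lt.1 hcon)
    rw [h3, div_one] at ht'
    exact lt_irrefl _ ht'
  have hq1 : 1 ≤ p ^ a := Nat.one_le_pow _ _ (Fact.out : p.Prime).pos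
  have hη : 0 < 2 ^ (N + 1) * t ^ M0 := by positivity
  have hs' : ∑ m ∈ Finset.range M0, 2 ^ (m + 1) * ((1 / 2) ^ h' + (m * (1 / 2) ^ h + (3 / 4) ^ (p ^ a - h' - h) * (3 / 2) ^ h)) *
      t ^ m + 2 ^ (N + 1) * t ^ M0 ≤ 2 * t - 1 - 2 ^ (N + 1) * t ^ M0 := by
    have e : (2 : ℝ) ^ (N + 1 + 1) * t ^ M0 = 2 ^ (N + 1) * t ^ M0 + 2 ^ (N + 1) * t ^ M0 := by
      rw [pow_succ]
      ring
    rw [e] at hs
    linarith
  have hrw := rr_weighted_gen p N a t M0 h' h ht ht1 h1 hh h2 _ hs'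
  obtain ⟨s0, hs0⟩ := exists_pow_lt_of_lt_one (mul_pos hη (sub_pos.2 htl)) htl
  have htail : t ^ s0 / (1 - t) ≤ 2 ^ (N + 1) * t ^ M0 := by
    rw [div_le_iff₀ (sub_pos.2 htl)]
    exact hs0.le
  have hfd := VV_fin p N (p ^ a)
  have hV1 : VV p N (p ^ a) ≤ A p 1 := (VV_le p N a).trans (A_anti p hq1)
  obtain ⟨B, hB, hBc⟩ := exists_gen p (VV p N (p ^ a)) hV1 (rr p N (p ^ a)) (rr_spec p N (p ^ a))
  obtain ⟨f, hf⟩ := countable_F2
  obtain ⟨B', hB', hBc'⟩ := gen_add p _ B hB f s0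
  have hT1 : TT p f s0 ≤ A p 1 := by
    refine Submodule.span_le.2 ?_
    rintro _ ⟨i, rfl⟩
    exact A_anti p (Nat.one_le_pow _ _ (Fact.out : p.Prime).pos) (pow_sub_mem p (s0 + i) (f i))
  refine ⟨VV p N (p ^ a) ⊔ TT p f s0, 1 / t, sup_le hV1 hT1, ht', ?_, ?_, ?_⟩
  · intro l hl
    exact Submodule.mem_sup_left (VV_mem p N (p ^ a) l hl)
  · intro g
    obtain ⟨i, rfl⟩ := hf g
    exact ⟨s0 + i, Submodule.mem_sup_right (Submodule.subset_span ⟨i, rfl⟩)⟩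
  · refine gs_cu p _ (sup_le hV1 hT1) B' hB' t ht ht1 fun M => ?_
    calc ∑ m ∈ Finset.Icc 1 M, ((B' m).card : ℝ) * t ^ m
        ≤ ∑ m ∈ Finset.Icc 1 M, (((rr p N (p ^ a) m : ℝ) * t ^ m) + ((if s0 ≤ m then 1 else 0 : ℕ) : ℝ) * t ^ m) := by
          refine Finset.sum_le_sum fun m _ => ?_
          rw [← add_mul]
          refine mul_le_mul_of_nonneg_right ?_ (by positivity)
          have := hBc' m
          rw [hBc m] at this
          exact_mod_cast this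
      _ = ∑ m ∈ Finset.Icc 1 M, (rr p N (p ^ a) m : ℝ) * t ^ m +
          ∑ m ∈ Finset.Icc 1 M, ((if s0 ≤ m then 1 else 0 : ℕ) : ℝ) * t ^ m := Finset.sum_add_distrib
      _ ≤ (2 * t - 1 - 2 ^ (N + 1) * t ^ M0) + 2 ^ (N + 1) * t ^ M0 :=
          add_le_add (hrw M) ((tail_sum t ht htl s0 M).trans htail)
      _ = 2 * t - 1 := by ring

end NLB
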